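import Pool.Agent.H836R3.SE.Step

set_option autoImplicit false
set_option linter.unusedSectionVars false

namespace Pool.H836R3.SE

variable {ι κ : Type} [Fintype ι] [Fintype κ] [DecidableEq ι] [DecidableEq κ]

theorem inv_perturb (P Ps D : Matrix κ κ ℝ) (hPD : Ps * D = -1) (ε R θ : ℝ) (hε : 0 ≤ ε)
    (hR : 0 ≤ R)
    (hE : ∀ i j, |P i j - Ps i j| ≤ ε) (hD : ∀ i j, |D i j| ≤ R)
    (hθ : θ = Fintype.card κ * (ε * R))
    (hs : Fintype.card κ * θ ≤ 1 / 2) :
    ∃ D' : Matrix κ κ ℝ, P * D' = -1 ∧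
      ∀ i j, |D' i j - D i j| ≤ Fintype.card κ * (R * (Fintype.card κ * (θ * 2))) := by
  rcases isEmpty_or_nonempty κ with he | hne
  · exact ⟨0, by ext i; exact (he.false i).elim, fun i => (he.false i).elim⟩
  have hθ0 : 0 ≤ θ := by rw [hθ]; positivity
  set M : Matrix κ κ ℝ := (P - Ps) * D with hM
  have hMb : ∀ i j, |M i j| ≤ θ := by
    intro i j
    rw [hM, Matrix.mul_apply, hθ]
    exact abs_dot_le (fun l => (P - Ps) i l) (fun l => D l j) ε R
      (fun l => by simpa using hE i l) (fun l => hD l j)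
  have hcard : (1:ℝ) ≤ Fintype.card κ := by exact_mod_cast Fintype.card_pos
  have hθ2 : θ ≤ 1 / 2 := by nlinarith
  have hdet : (1 - M).det ≠ 0 := by
    apply det_ne_zero_of_sum_row_lt_diag
    intro k
    have h1 : ∑ j ∈ Finset.univ.erase k, ‖(1 - M) k j‖ ≤
        ∑ j ∈ Finset.univ.erase k, θ := by
      refine Finset.sum_le_sum (fun j hj => ?_)
      have hjk : k ≠ j := (Finset.ne_of_mem_erase hj).symm
      rw [Matrix.sub_apply, Matrix.one_apply_ne hjk, zero_sub, norm_neg, Real.norm_eq_abs]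
      exact hMb k j
    have h2 : ∑ j ∈ Finset.univ.erase k, θ = (Fintype.card κ - 1) * θ := by
      rw [Finset.sum_const, Finset.card_erase_of_mem (Finset.mem_univ k), Finset.card_univ,
        nsmul_eq_mul, Nat.cast_sub Fintype.card_pos]
      simp
    have h3 : 1 - θ ≤ ‖(1 - M) k k‖ := by
      rw [Matrix.sub_apply, Matrix.one_apply_eq, Real.norm_eq_abs]
      have := hMb k k
      have h5 := abs_le.1 this
      rw [abs_of_nonneg (by linarith [h5.2])]
      linarith [h5.2]
    have : (Fintype.card κ - 1) * θ < 1 - θ := by nlinarith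
    linarith
  have hunit : IsUnit (1 - M).det := isUnit_iff_ne_zero.2 hdet
  set H : Matrix κ κ ℝ := (1 - M)⁻¹ with hH
  have hGH : (1 - M) * H = 1 := Matrix.mul_nonsing_inv _ hunit
  have hHeq : H - 1 = M * H := by
    have : H - M * H = 1 := by rw [← hGH]; noncomm_ring
    rw [← this]; abel
  obtain ⟨p, -, hp⟩ := Finset.exists_max_image (Finset.univ : Finset (κ × κ))
    (fun q => |H q.1 q.2|) ⟨Classical.arbitrary _, Finset.mem_univ _⟩
  set mx : ℝ := |H p.1 p.2| with hmx
  have hmax : ∀ i j, |H i j| ≤ mx := fun i j => hp (i, j) (Finset.mem_univ _)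
  have hMH : ∀ i j, |(M * H) i j| ≤ Fintype.card κ * (θ * mx) := by
    intro i j
    rw [Matrix.mul_apply]
    exact abs_dot_le (fun l => M i l) (fun l => H l j) θ mx (fun l => hMb i l)
      (fun l => hmax l j)
  have hmx2 : mx ≤ 2 := by
    have h1 : H p.1 p.2 = (1 : Matrix κ κ ℝ) p.1 p.2 + (M * H) p.1 p.2 := by
      have := congrFun (congrFun hHeq p.1) p.2
      rw [Matrix.sub_apply] at this
      linarith
    have h2 : |(1 : Matrix κ κ ℝ) p.1 p.2| ≤ 1 := by
      rw [Matrix.one_apply]; split_ifs <;> simp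
    have h3 : mx ≤ 1 + Fintype.card κ * (θ * mx) := by
      have e : mx = |(1 : Matrix κ κ ℝ) p.1 p.2 + (M * H) p.1 p.2| := by
        have := congrArg abs h1
        exact this
      calc mx = _ := e
        _ ≤ _ := (abs_add_le _ _).trans (add_le_add h2 (hMH p.1 p.2))
    have h4 : Fintype.card κ * (θ * mx) ≤ 1 / 2 * mx := by
      rw [← mul_assoc]
      exact mul_le_mul_of_nonneg_right hs (abs_nonneg _)
    linarith
  refine ⟨D * H, ?_, ?_⟩
  · have : P = Ps + (P - Ps) := by abel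
    calc P * (D * H) = (Ps + (P - Ps)) * (D * H) := by rw [← this]
      _ = (Ps * D + (P - Ps) * D) * H := by noncomm_ring
      _ = -((1 - M) * H) := by rw [hPD, ← hM]; noncomm_ring
      _ = -1 := by rw [hGH]
  · intro i j
    have e1 : (D * H) i j - D i j = (D * (H - 1)) i j := by
      rw [Matrix.mul_sub, Matrix.sub_apply, Matrix.mul_one]
    rw [e1, Matrix.mul_apply]
    refine abs_dot_le (fun l => D i l) (fun l => (H - 1) l j) R _ (fun l => hD i l) (fun l => ?_)
    rw [hHeq]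
    refine (hMH l j).trans ?_
    gcongr

/-- Center data with margins and bounds. -/
structure VBase (N : ι → κ → ℝ) (b : ι → ℝ) (R μ : ℝ) (tf : κ → ι) (t : κ → ℝ)
    (δ : κ → κ → ℝ) : Prop where
  inj : Function.Injective tf
  dir : ∀ i j, dot (N (tf i)) (δ j) = if i = j then -1 else 0
  tgt : ∀ j, dot (N (tf j)) t = b (tf j)
  slack : ∀ q, (∀ j, tf j ≠ q) → dot (N q) t + μ ≤ b q
  bt : ∀ l, |t l| ≤ 1
  bδ : ∀ j l, |δ j l| ≤ R

theorem robust_vertex {N : ι → κ → ℝ} {b : ι → ℝ} {R μ : ℝ} {tf : κ → ι} {t : κ → ℝ}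
    {δ : κ → κ → ℝ} (h : VBase N b R μ tf t δ) (hne : Nonempty κ)
    (hR : 1 ≤ R) (hμ : 0 < μ) (hμ1 : μ ≤ 1)
    (bN : ∀ q l, |N q l| ≤ 1) (bb : ∀ q, |b q| ≤ 2)
    {N' : ι → κ → ℝ} {b' : ι → ℝ} {ε : ℝ} (hε : 0 ≤ ε)
    (hN' : ∀ q l, |N' q l - N q l| ≤ ε) (hb' : ∀ q, |b' q - b q| ≤ ε)
    (hsm : 600 * ((Fintype.card κ : ℝ) ^ 6 * R ^ 5 * ε) ≤ μ) :
    ∃ δ' t', Exact N' b' tf t' δ' ∧
      (∀ j l, |δ' j l - δ j l| ≤ 2 * ((Fintype.card κ : ℝ) ^ 3 * R ^ 2 * ε)) ∧
      (∀ l, |t' l - t l| ≤ 7 * ((Fintype.card κ : ℝ) ^ 4 * R ^ 2 * ε)) := by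
  set n : ℝ := (Fintype.card κ : ℝ) with hn
  have hn1 : 1 ≤ n := by rw [hn]; exact_mod_cast Fintype.card_pos
  set X : ℝ := n ^ 6 * R ^ 5 * ε with hX
  have hpw : ∀ a c : ℕ, a ≤ 6 → c ≤ 5 → n ^ a * R ^ c * ε ≤ X := by
    intro a c ha hc
    rw [hX]
    have h1 := pow_le_pow_right₀ hn1 ha
    have h2 := pow_le_pow_right₀ hR hc
    gcongr
  have hX0 : 0 ≤ X := by positivity
  have hX1 : X ≤ 1 / 600 := by linarith
  let P : Matrix κ κ ℝ := Matrix.of fun i l => N' (tf i) l
  let Ps : Matrix κ κ ℝ := Matrix.of fun i l => N (tf i) l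
  let D : Matrix κ κ ℝ := Matrix.of fun l j => δ j l
  have hPD : Ps * D = -1 := by
    ext i j
    rw [Matrix.mul_apply]
    have := h.dir i j
    simp only [dot] at this
    simp only [Ps, D, Matrix.of_apply, this, Matrix.neg_apply, Matrix.one_apply]
    split_ifs <;> simp
  obtain ⟨D', hPD', hcl⟩ := inv_perturb P Ps D hPD ε R (n * (ε * R)) hε (by linarith)
    (fun i j => hN' _ _) (fun i j => h.bδ _ _) rfl (by
      have := hpw 2 1 (by norm_num) (by norm_num)
      have e : n * (n * (ε * R)) = n ^ 2 * R ^ 1 * ε := by ring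
      rw [← hn, e]; linarith)
  have hDc : ∀ j l, |D' l j - δ j l| ≤ 2 * (n ^ 3 * R ^ 2 * ε) := by
    intro j l
    refine (hcl l j).trans (le_of_eq ?_)
    ring
  have hDP : D * Ps = -1 := by
    have : Ps * (-D) = 1 := by rw [Matrix.mul_neg, hPD, neg_neg]
    have := mul_eq_one_comm.1 this
    rw [Matrix.neg_mul] at this
    rw [← this, neg_neg]
  -- the center point
  have ht : ∀ l, t l = - ∑ j, D l j * b (tf j) := by
    intro l
    have h1 : (D * Ps).mulVec t = - t := by rw [hDP, Matrix.neg_mulVec, Matrix.one_mulVec]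
    have h2 : Ps.mulVec t = fun j => b (tf j) := by
      ext j
      exact h.tgt j
    rw [← Matrix.mulVec_mulVec, h2] at h1
    have := congrFun h1 l
    simp only [Matrix.mulVec, dotProduct, Pi.neg_apply] at this
    linarith
  set t' : κ → ℝ := fun l => - ∑ j, D' l j * b' (tf j) with ht'
  have hbt : ∀ l, |t' l - t l| ≤ 7 * (n ^ 4 * R ^ 2 * ε) := by
    intro l
    have e1 : t' l - t l = - (dot (fun j => D' l j - D l j) (fun j => b' (tf j)) +
        dot (fun j => D l j) (fun j => b' (tf j) - b (tf j))) := by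
      rw [ht l, ht']
      simp only [dot, sub_mul, mul_sub, Finset.sum_sub_distrib]
      ring
    rw [e1, abs_neg]
    have hε1 : ε ≤ 1 := by
      have := hpw 0 0 (by norm_num) (by norm_num)
      rw [pow_zero, pow_zero, one_mul, one_mul] at this; linarith
    have a1 := abs_dot_le (fun j => D' l j - D l j) (fun j => b' (tf j))
      (2 * (n ^ 3 * R ^ 2 * ε)) 3 (fun j => hDc j l) (fun j => by
        have h1 := bb (tf j)
        have h2 := hb' (tf j)
        have : b' (tf j) = b (tf j) + (b' (tf j) - b (tf j)) := by ring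
        rw [this]
        exact (abs_add_le _ _).trans (by linarith))
    have a2 := abs_dot_le (fun j => D l j) (fun j => b' (tf j) - b (tf j)) R ε
      (fun j => h.bδ _ _) (fun j => hb' _)
    refine (abs_add_le _ _).trans ?_
    have a3 : n * (R * ε) ≤ n ^ 4 * R ^ 2 * ε := by
      have h1 : n ≤ n ^ 4 := by nlinarith [pow_le_pow_right₀ hn1 (show 1 ≤ 4 by norm_num)]
      have h2 : R ≤ R ^ 2 := by nlinarith
      have : n * (R * ε) = n * R * ε := by ring
      rw [this]; gcongr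
    have : n * (2 * (n ^ 3 * R ^ 2 * ε) * 3) = 6 * (n ^ 4 * R ^ 2 * ε) := by ring
    rw [← hn] at a1 a2
    linarith
  have hexact : Exact N' b' tf t' (fun j l => D' l j) := by
    refine ⟨h.inj, ?_, ?_, ?_⟩
    · intro i j
      have := congrFun (congrFun hPD' i) j
      rw [Matrix.mul_apply, Matrix.neg_apply, Matrix.one_apply] at this
      simp only [P, Matrix.of_apply] at this
      simp only [dot, this]
      split_ifs <;> simp
    · intro j
      have h1 : (P * D').mulVec (fun j => b' (tf j)) = - fun j => b' (tf j) := by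
        rw [hPD', Matrix.neg_mulVec, Matrix.one_mulVec]
      rw [← Matrix.mulVec_mulVec] at h1
      have := congrFun h1 j
      simp only [Matrix.mulVec, dotProduct, Pi.neg_apply, P, Matrix.of_apply] at this
      simp only [dot, ht', mul_neg, Finset.sum_neg_distrib]
      linarith
    · intro q hq
      have h1 := h.slack q hq
      have e1 : dot (N' q) t' = dot (N q) t + dot (fun l => N' q l - N q l) t' +
          dot (N q) (fun l => t' l - t l) := by
        simp only [dot, sub_mul, mul_sub, Finset.sum_sub_distrib]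
        ring
      have hp4 := hpw 4 2 (by norm_num) (by norm_num)
      have a1 := abs_dot_le (fun l => N' q l - N q l) t' ε 2 (fun l => hN' q l) (fun l => by
        have h2 := h.bt l
        have h3 := hbt l
        have : t' l = t l + (t' l - t l) := by ring
        rw [this]
        exact (abs_add_le _ _).trans (by linarith))
      have a2 := abs_dot_le (N q) (fun l => t' l - t l) 1 (7 * (n ^ 4 * R ^ 2 * ε))
        (fun l => bN q l) hbt
      rw [← hn] at a1 a2
      have h4 := hpw 1 0 (by norm_num) (by norm_num)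
      have h5 := hpw 5 2 (by norm_num) (by norm_num)
      have h6 := hpw 0 0 (by norm_num) (by norm_num)
      have e2 : n * (ε * 2) = 2 * (n ^ 1 * R ^ 0 * ε) := by ring
      have e3 : n * (1 * (7 * (n ^ 4 * R ^ 2 * ε))) = 7 * (n ^ 5 * R ^ 2 * ε) := by ring
      rw [e2] at a1
      rw [e3] at a2
      have a1' := (abs_le.1 a1).2
      have a2' := (abs_le.1 a2).2
      have hbq := (abs_le.1 (hb' q)).1
      simp only [pow_zero, one_mul] at h6
      rw [e1]
      have : X < 1 := by linarith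
      nlinarith [hμ]
  exact ⟨fun j l => D' l j, t', hexact, hDc, hbt⟩

theorem robust_gain {R μ : ℝ} {δ δ' : κ → κ → ℝ} {c c' : κ → ℝ} (hne : Nonempty κ)
    (hR : 1 ≤ R) (hμ : 0 < μ) (hμ1 : μ ≤ 1)
    (bδ : ∀ j l, |δ j l| ≤ R) (bc : ∀ l, |c l| ≤ 4)
    {ε : ℝ} (hε : 0 ≤ ε)
    (hc' : ∀ l, |c' l - c l| ≤ ε)
    (hδ' : ∀ j l, |δ' j l - δ j l| ≤ 2 * ((Fintype.card κ : ℝ) ^ 3 * R ^ 2 * ε))
    (hsm : 600 * ((Fintype.card κ : ℝ) ^ 6 * R ^ 5 * ε) ≤ μ) (js : κ)
    (hgain : μ ≤ dot c (δ js))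
    (hother : ∀ j, j ≠ js → dot c (δ j) ≤ -μ ∨
      (dot c (δ j)) ^ 2 * dot (δ js) (δ js) + μ ≤ (dot c (δ js)) ^ 2 * dot (δ j) (δ j)) :
    0 < dot c' (δ' js) ∧ ∀ j, j ≠ js → dot c' (δ' j) < 0 ∨
      (dot c' (δ' j)) ^ 2 * dot (δ' js) (δ' js) < (dot c' (δ' js)) ^ 2 * dot (δ' j) (δ' j) := by
  set n : ℝ := (Fintype.card κ : ℝ) with hn
  have hn1 : 1 ≤ n := by rw [hn]; exact_mod_cast Fintype.card_pos
  set X : ℝ := n ^ 6 * R ^ 5 * ε with hX
  have hpw : ∀ a c : ℕ, a ≤ 6 → c ≤ 5 → n ^ a * R ^ c * ε ≤ X := by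
    intro a c ha hc
    rw [hX]
    have h1 := pow_le_pow_right₀ hn1 ha
    have h2 := pow_le_pow_right₀ hR hc
    gcongr
  have hX0 : 0 ≤ X := by positivity
  have hX1 : X ≤ 1 / 600 := by linarith
  have hR0 : 0 < R := by linarith
  have hδb : ∀ j l, |δ' j l| ≤ 2 * R := by
    intro j l
    have h3 := hpw 3 2 (by norm_num) (by norm_num)
    have : δ' j l = δ j l + (δ' j l - δ j l) := by ring
    rw [this]
    refine (abs_add_le _ _).trans ?_
    have := bδ j l
    have := hδ' j l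
    linarith
  -- gains
  have hg : ∀ j, |dot c' (δ' j) - dot c (δ j)| ≤ 10 * (n ^ 4 * R ^ 2 * ε) := by
    intro j
    have e1 : dot c' (δ' j) - dot c (δ j) = dot (fun l => c' l - c l) (δ' j) +
        dot c (fun l => δ' j l - δ j l) := by
      simp only [dot, sub_mul, mul_sub, Finset.sum_sub_distrib]
      ring
    rw [e1]
    have a1 := abs_dot_le (fun l => c' l - c l) (δ' j) ε (2 * R) hc' (hδb j)
    have a2 := abs_dot_le c (fun l => δ' j l - δ j l) 4 (2 * (n ^ 3 * R ^ 2 * ε)) bc (hδ' j)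
    rw [← hn] at a1 a2
    refine (abs_add_le _ _).trans ?_
    have a3 : n * (R * ε) ≤ n ^ 4 * R ^ 2 * ε := by
      have h1 : n ≤ n ^ 4 := by nlinarith [pow_le_pow_right₀ hn1 (show 1 ≤ 4 by norm_num)]
      have h2 : R ≤ R ^ 2 := by nlinarith
      have : n * (R * ε) = n * R * ε := by ring
      rw [this]; gcongr
    have e2 : n * (ε * (2 * R)) = 2 * (n * (R * ε)) := by ring
    have e3 : n * (4 * (2 * (n ^ 3 * R ^ 2 * ε))) = 8 * (n ^ 4 * R ^ 2 * ε) := by ring
    rw [e2] at a1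
    rw [e3] at a2
    linarith
  have hgb : ∀ j, |dot c (δ j)| ≤ 4 * n * R := by
    intro j
    have := abs_dot_le c (δ j) 4 R bc (bδ j)
    rw [← hn] at this
    linarith
  have hnn : ∀ j, |dot (δ' j) (δ' j) - dot (δ j) (δ j)| ≤ 6 * (n ^ 4 * R ^ 3 * ε) := by
    intro j
    have e1 : dot (δ' j) (δ' j) - dot (δ j) (δ j) =
        dot (fun l => δ' j l - δ j l) (fun l => δ' j l + δ j l) := by
      simp only [dot, ← Finset.sum_sub_distrib]
      exact Finset.sum_congr rfl (fun _ _ => by ring)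
    rw [e1]
    have a1 := abs_dot_le (fun l => δ' j l - δ j l) (fun l => δ' j l + δ j l)
      (2 * (n ^ 3 * R ^ 2 * ε)) (3 * R) (hδ' j) (fun l => by
        refine (abs_add_le _ _).trans ?_
        have := bδ j l
        have := hδb j l
        linarith)
    rw [← hn] at a1
    refine a1.trans (le_of_eq ?_)
    ring
  have hnb : ∀ j, |dot (δ j) (δ j)| ≤ n * R ^ 2 := by
    intro j
    have := abs_dot_le (δ j) (δ j) R R (bδ j) (bδ j)
    rw [← hn] at this
    refine this.trans (le_of_eq (by ring))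
  have hprod : ∀ i j, |(dot c' (δ' i)) ^ 2 * dot (δ' j) (δ' j) -
      (dot c (δ i)) ^ 2 * dot (δ j) (δ j)| ≤ 276 * X := by
    intro i j
    set a := dot c (δ i)
    set a' := dot c' (δ' i)
    set q := dot (δ j) (δ j)
    set q' := dot (δ' j) (δ' j)
    have h1 := hg i
    have h2 := hnn j
    have h3 := hgb i
    have h4 := hnb j
    have hp4 := hpw 4 2 (by norm_num) (by norm_num)
    have hp3 := hpw 4 3 (by norm_num) (by norm_num)
    have ha' : |a'| ≤ 5 * n * R := by
      have e : a' = a + (a' - a) := by ring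
      rw [e]
      refine (abs_add_le _ _).trans ?_
      have : 10 * (n ^ 4 * R ^ 2 * ε) ≤ n * R := by nlinarith
      calc |a| + |a' - a| ≤ 4 * n * R + 10 * (n ^ 4 * R ^ 2 * ε) := by
            have : |a' - a| ≤ 10 * (n ^ 4 * R ^ 2 * ε) := h1
            linarith
        _ ≤ 5 * n * R := by linarith
    have hq' : |q'| ≤ 2 * (n * R ^ 2) := by
      have e : q' = q + (q' - q) := by ring
      rw [e]
      refine (abs_add_le _ _).trans ?_
      have h6 : 1 ≤ n * R ^ 2 := by nlinarith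
      have h7 : |q' - q| ≤ 6 * (n ^ 4 * R ^ 3 * ε) := h2
      linarith
    have e1 : a' ^ 2 * q' - a ^ 2 * q = (a' - a) * ((a' + a) * q') + a ^ 2 * (q' - q) := by ring
    rw [e1]
    refine (abs_add_le _ _).trans ?_
    rw [abs_mul, abs_mul, abs_mul, abs_pow]
    have h8 : |a' + a| ≤ 9 * n * R := (abs_add_le _ _).trans (by linarith)
    have t1 : |a' - a| * (|a' + a| * |q'|) ≤
        10 * (n ^ 4 * R ^ 2 * ε) * (9 * n * R * (2 * (n * R ^ 2))) := by gcongr
    have t2 : |a| ^ 2 * |q' - q| ≤ (4 * n * R) ^ 2 * (6 * (n ^ 4 * R ^ 3 * ε)) := by gcongr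
    have e2 : 10 * (n ^ 4 * R ^ 2 * ε) * (9 * n * R * (2 * (n * R ^ 2))) = 180 * X := by
      rw [hX]; ring
    have e3 : (4 * n * R) ^ 2 * (6 * (n ^ 4 * R ^ 3 * ε)) = 96 * X := by
      rw [hX]; ring
    rw [e2] at t1
    rw [e3] at t2
    linarith
  have hX4 := hpw 4 2 (by norm_num) (by norm_num)
  refine ⟨?_, ?_⟩
  · have := (abs_le.1 (hg js)).1
    nlinarith
  · intro j hj
    rcases hother j hj with h1 | h1
    · left
      have := (abs_le.1 (hg j)).2
      nlinarith
    · right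
      have t1 := (abs_le.1 (hprod j js)).2
      have t2 := (abs_le.1 (hprod js j)).1
      nlinarith

end Pool.H836R3.SE
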