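import Pool.Agent.H836R3.SE.Gadget2
import Pool.Agent.H836R3.SE.Perturb

set_option autoImplicit false
set_option linter.unusedSectionVars false
set_option linter.unusedSimpArgs false

namespace Pool.H836R3.SE

/-- index set of the coordinates -/
abbrev Ix (K : ℕ) := (Fin K × Bool) ⊕ Fin 4

noncomputable def Ww (K : ℕ) : ℝ := 8 * 8 ^ K
noncomputable def eta (K : ℕ) : ℝ := 1 / (40 * 72 ^ K)
noncomputable def kst (i : ℕ) (b : Bool) : ℝ := 1 / (4 * cab i b)
noncomputable def rr (i : ℕ) (b : Bool) : ℝ := if b then cab i b * 9 ^ i else cab i b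
noncomputable def ikw (K : ℕ) (a : Fin 4) : ℝ :=
  if a = 1 then 4 * Ww K else if a = 2 then 400 * Ww K * 9 ^ K else 0
noncomputable def kw (K : ℕ) (a : Fin 4) : ℝ := 1 / ikw K a
noncomputable def Wv (K : ℕ) (a : Fin 4) : ℝ := if a = 1 then Ww K else if a = 2 then Ww K else 0

noncomputable def hvec (K k : ℕ) : Ix K → ℝ
  | Sum.inl p => if p.1.val < k then g p.1 p.2 else 0
  | Sum.inr _ => 0

noncomputable def upRow (K : ℕ) (q : Ix K) (κ₀ c₀ : ℝ) (k : ℕ) : Ix K → ℝ :=
  fun l => (if l = Sum.inr 0 then 1 else 0) + κ₀ * ((if l = q then 1 else 0) - c₀ * hvec K k l)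

noncomputable def farRow (K : ℕ) : Ix K → ℝ := fun l => if l = Sum.inr 3 then 1 / 32 else 1 / 2

noncomputable def NN (K : ℕ) : Ix K × Bool → Ix K → ℝ
  | (q, false) => fun l => if l = q then -1 else 0
  | (Sum.inl p, true) => upRow K (Sum.inl p) (kst p.1 p.2) (C p.1 p.2) p.1
  | (Sum.inr a, true) => if a = 3 then farRow K else upRow K (Sum.inr a) (kw K a) (Wv K a) K

noncomputable def bb (K : ℕ) : Ix K × Bool → ℝ
  | (_, false) => 0
  | (Sum.inl p, true) => 1 + kst p.1 p.2 * (eta K * rr p.1 p.2)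
  | (Sum.inr a, true) => 1 + kw K a * (eta K * Wv K a)

noncomputable def cw (K : ℕ) (a : Fin 4) : ℝ :=
  if a = 0 then 4 else if a = 1 then 2 + 1 / (2 * Ww K) else if a = 2 then 2 else 1

noncomputable def cc (K : ℕ) : Ix K → ℝ
  | Sum.inl p => - g p.1 p.2
  | Sum.inr a => cw K a

/-- structured vector -/
noncomputable def SV (K : ℕ) (χ : Pat) (x : Fin 4 → Bool) (w : ℕ → Bool → ℝ) (e : Fin 4 → ℝ) :
    Ix K → ℝ
  | Sum.inl p => Y χ w p.1 p.2
  | Sum.inr a => (if x a then Wv K a * hh χ w K else 0) + e a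

theorem fin4 (a : Fin 4) : a = 0 ∨ a = 1 ∨ a = 2 ∨ a = 3 := by revert a; decide

theorem sum_pat (K : ℕ) (f : ℕ → Bool → ℝ) (F : ℕ → ℝ) (h0 : F 0 = 0)
    (hs : ∀ k, F (k + 1) = F k + f k false + f k true) :
    ∑ p : Fin K × Bool, f p.1 p.2 = F K := by
  rw [Fintype.sum_prod_type]
  simp only [Fintype.sum_bool]
  rw [Fin.sum_univ_eq_sum_range (fun i => f i true + f i false) K]
  induction K with
  | zero => simp [h0]
  | succ K ih => rw [Finset.sum_range_succ, ih, hs]; ring

theorem dot_single {κ : Type} [Fintype κ] [DecidableEq κ] (j : κ) (s : ℝ) (v : κ → ℝ) :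
    dot (fun l => if l = j then s else 0) v = s * v j := by
  unfold dot
  rw [Finset.sum_eq_single j]
  · simp
  · intro b _ hb; simp [hb]
  · intro h; exact absurd (Finset.mem_univ _) h

theorem dot_Ix (K : ℕ) (u v : Ix K → ℝ) :
    dot u v = ∑ p : Fin K × Bool, u (Sum.inl p) * v (Sum.inl p) +
      (u (Sum.inr 0) * v (Sum.inr 0) + u (Sum.inr 1) * v (Sum.inr 1) +
        u (Sum.inr 2) * v (Sum.inr 2) + u (Sum.inr 3) * v (Sum.inr 3)) := by
  unfold dot
  rw [Fintype.sum_sum_type, Fin.sum_univ_four]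

theorem dot_hvec (K k : ℕ) (hk : k ≤ K) (χ : Pat) (x : Fin 4 → Bool) (w : ℕ → Bool → ℝ)
    (e : Fin 4 → ℝ) : dot (hvec K k) (SV K χ x w e) = hh χ w k := by
  rw [dot_Ix]
  simp only [hvec, SV, zero_mul, add_zero]
  have h := sum_pat K (fun i b => (if i < k then g i b else 0) * Y χ w i b)
    (fun m => hh χ w (min m k)) (by simp [hh]) ?_
  · simpa [min_eq_right hk] using h
  intro m
  show hh χ w (min (m + 1) k) = hh χ w (min m k) + _ + _
  by_cases hm : m < k
  · rw [min_eq_left (by omega : m + 1 ≤ k), min_eq_left hm.le, hh_succ]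
    simp [hm]
  · rw [min_eq_right (by omega : k ≤ m + 1), min_eq_right (by omega : k ≤ m)]
    simp [hm]

theorem dot_upRow (K : ℕ) (q : Ix K) (κ₀ c₀ : ℝ) (k : ℕ) (hk : k ≤ K) (χ : Pat)
    (x : Fin 4 → Bool) (w : ℕ → Bool → ℝ) (e : Fin 4 → ℝ) :
    dot (upRow K q κ₀ c₀ k) (SV K χ x w e) =
      e 0 + κ₀ * (SV K χ x w e q - c₀ * hh χ w k) := by
  have e1 : upRow K q κ₀ c₀ k = (fun l => if l = Sum.inr 0 then (1:ℝ) else 0) +
      κ₀ • ((fun l => if l = q then (1:ℝ) else 0) - c₀ • hvec K k) := by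
    funext l; simp [upRow]
  rw [e1, add_dot, smul_dot, sub_dot, smul_dot, dot_hvec K k hk, dot_single, dot_single]
  simp [SV, Wv]

theorem kst_mul (i : ℕ) (b : Bool) : kst i b * (4 * cab i b) = 1 := by
  unfold kst
  have : 0 < cab i b := by unfold cab; have := lam_pos i; cases b <;> simp <;> positivity
  field_simp

theorem cab_eq (i : ℕ) (b : Bool) : cab i b = (if b then 6 else 20) * 8 ^ i := by
  unfold cab lam
  cases b <;> simp <;> field_simp <;> rw [← mul_pow] <;> norm_num

theorem cab_pos (i : ℕ) (b : Bool) : 0 < cab i b := by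
  rw [cab_eq]; cases b <;> simp <;> positivity

theorem C_eq (i : ℕ) (b : Bool) : C i b = if b then - cab i b else cab i b := by
  unfold C cab; cases b <;> simp

theorem abs_C (i : ℕ) (b : Bool) : |C i b| = cab i b := by
  rw [C_eq]; have := cab_pos i b; cases b <;> simp [abs_of_pos this]

theorem Ww_pos (K : ℕ) : 0 < Ww K := by unfold Ww; positivity

theorem Ww_ge (K : ℕ) : 8 ≤ Ww K := by
  unfold Ww; have : (1:ℝ) ≤ 8 ^ K := one_le_pow₀ (by norm_num); linarith

theorem kw_mul1 (K : ℕ) : kw K 1 * ikw K 1 = 1 := by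
  unfold kw ikw; have := Ww_pos K; simp; field_simp

theorem kw_mul2 (K : ℕ) : kw K 2 * ikw K 2 = 1 := by
  unfold kw ikw; have := Ww_pos K; simp; field_simp

theorem kw_zero (K : ℕ) : kw K 0 = 0 := by unfold kw ikw; simp

theorem kw_three (K : ℕ) : kw K 3 = 0 := by
  unfold kw ikw; simp

theorem ikw_one (K : ℕ) : ikw K 1 = 4 * Ww K := by unfold ikw; simp
theorem ikw_two (K : ℕ) : ikw K 2 = 400 * Ww K * 9 ^ K := by
  unfold ikw; simp
theorem Wv_zero (K : ℕ) : Wv K 0 = 0 := by unfold Wv; simp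
theorem Wv_one (K : ℕ) : Wv K 1 = Ww K := by unfold Wv; simp
theorem Wv_two (K : ℕ) : Wv K 2 = Ww K := by unfold Wv; simp
theorem Wv_three (K : ℕ) : Wv K 3 = 0 := by
  unfold Wv; simp

theorem dot_tf_inl (K : ℕ) (χ : Pat) (x : Fin 4 → Bool) (w : ℕ → Bool → ℝ) (e : Fin 4 → ℝ)
    (p : Fin K × Bool) (b : Bool) (hb : b = χ p.1 p.2) :
    dot (NN K (Sum.inl p, b)) (SV K χ x w e) =
      if χ p.1 p.2 then e 0 + kst p.1 p.2 * w p.1 p.2 else - w p.1 p.2 := by
  subst hb
  cases h : χ p.1 p.2 with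
  | false =>
    simp only [NN]
    rw [dot_single]
    simp [SV, Y, h]
  | true =>
    simp only [NN]
    rw [dot_upRow K _ _ _ _ p.1.isLt.le]
    simp [SV, Y, h]

theorem dot_tf_inr (K : ℕ) (χ : Pat) (x : Fin 4 → Bool) (hx : x 3 = false)
    (w : ℕ → Bool → ℝ) (e : Fin 4 → ℝ)
    (a : Fin 4) (b : Bool) (hb : b = x a) :
    dot (NN K (Sum.inr a, b)) (SV K χ x w e) =
      if x a then e 0 + kw K a * e a else - e a := by
  subst hb
  cases h : x a with
  | false =>
    simp only [NN]
    rw [dot_single]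
    simp [SV, h]
  | true =>
    have ha : a ≠ 3 := by rintro rfl; rw [hx] at h; exact absurd h (by simp)
    simp only [NN, ha, if_false]
    rw [dot_upRow K _ _ _ _ le_rfl]
    simp [SV, h]

/-- `other` rows -/
theorem dot_other_inl_true (K : ℕ) (χ : Pat) (x : Fin 4 → Bool) (w : ℕ → Bool → ℝ)
    (e : Fin 4 → ℝ) (p : Fin K × Bool) :
    dot (NN K (Sum.inl p, true)) (SV K χ x w e) =
      e 0 + kst p.1 p.2 * (Y χ w p.1 p.2 - C p.1 p.2 * hh χ w p.1) := by
  simp only [NN]
  rw [dot_upRow K _ _ _ _ p.1.isLt.le]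
  simp [SV]

theorem dot_other_false (K : ℕ) (q : Ix K) (v : Ix K → ℝ) :
    dot (NN K (q, false)) v = - v q := by
  have : NN K (q, false) = fun l => if l = q then (-1:ℝ) else 0 := by
    cases q <;> rfl
  rw [this, dot_single]; ring

theorem dot_other_inr_true (K : ℕ) (χ : Pat) (x : Fin 4 → Bool) (w : ℕ → Bool → ℝ)
    (e : Fin 4 → ℝ) (a : Fin 4) (ha : a ≠ 3) :
    dot (NN K (Sum.inr a, true)) (SV K χ x w e) =
      e 0 + kw K a * (SV K χ x w e (Sum.inr a) - Wv K a * hh χ w K) := by
  simp only [NN, ha, if_false]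
  rw [dot_upRow K _ _ _ _ le_rfl]

/-! ### states -/

def sS (K : ℕ) (χ : Pat) (x : Fin 4 → Bool) : Ix K → Bool
  | Sum.inl p => χ p.1 p.2
  | Sum.inr a => x a

def tfS (K : ℕ) (χ : Pat) (x : Fin 4 → Bool) (j : Ix K) : Ix K × Bool := (j, sS K χ x j)

noncomputable def scp (χ : Pat) (i : ℕ) (b : Bool) : ℝ := if χ i b then -(4 * cab i b) else 1
noncomputable def sca (K : ℕ) (x : Fin 4 → Bool) (a : Fin 4) : ℝ :=
  if x a then -(ikw K a) else 1

noncomputable def dS (K : ℕ) (χ : Pat) (x : Fin 4 → Bool) : Ix K → Ix K → ℝ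
  | Sum.inl p => SV K χ x (fun i b => scp χ p.1 p.2 * uni p.1 p.2 i b) (fun _ => 0)
  | Sum.inr a => if a = 0 then
      SV K χ x (fun i b => if χ i b then 4 * cab i b else 0)
        (fun a' => if a' = 0 then -1 else if x a' then ikw K a' else 0)
      else SV K χ x (fun _ _ => 0) (fun a' => if a' = a then sca K x a else 0)

noncomputable def wv (K : ℕ) (χ : Pat) : ℕ → Bool → ℝ :=
  fun i b => if χ i b then eta K * rr i b else 0

noncomputable def tS (K : ℕ) (χ : Pat) (x : Fin 4 → Bool) : Ix K → ℝ :=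
  SV K χ x (wv K χ) (fun a => if a = 0 then 1 else if x a then eta K * Wv K a else 0)

theorem uni_eq {K : ℕ} (p q : Fin K × Bool) :
    uni p.1 p.2 q.1 q.2 = if q = p then 1 else 0 := by
  unfold uni
  by_cases h : q = p
  · subst h; simp
  · rw [if_neg h, if_neg]
    rintro ⟨h1, h2⟩
    exact h (Prod.ext (Fin.ext h1) h2)

theorem dir_S (K : ℕ) (χ : Pat) (x : Fin 4 → Bool) (hx0 : x 0 = true) (hx3 : x 3 = false)
    (i j : Ix K) : dot (NN K (tfS K χ x i)) (dS K χ x j) = if i = j then -1 else 0 := by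
  have hik1 := kw_mul1 K
  have hik2 := kw_mul2 K
  rcases i with q | a
  · rcases j with p | a'
    · simp only [tfS, sS, dS]
      rw [dot_tf_inl K χ x _ _ q _ rfl]
      simp only [uni_eq]
      by_cases h : q = p
      · subst h
        have := kst_mul q.1 q.2
        cases hc : χ q.1 q.2 with
        | false => simp [scp, hc]
        | true =>
          simp [scp, hc]; linarith
      · have : (Sum.inl q : Ix K) ≠ Sum.inl p := fun e => h (Sum.inl_injective e)
        simp [h]
    · simp only [tfS, sS, dS]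
      by_cases h0 : a' = 0
      · simp only [h0, if_true]
        rw [dot_tf_inl K χ x _ _ q _ rfl]
        have := kst_mul q.1 q.2
        cases hc : χ q.1 q.2 with
        | false => simp
        | true => simp; linarith
      · simp only [h0, if_false]
        rw [dot_tf_inl K χ x _ _ q _ rfl]
        have : (0 : Fin 4) ≠ a' := fun e => h0 e.symm
        simp [this]
  · rcases j with p | a'
    · simp only [tfS, sS, dS]
      rw [dot_tf_inr K χ x hx3 _ _ a _ rfl]
      simp
    · simp only [tfS, sS, dS]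
      by_cases h0 : a' = 0
      · simp only [h0, if_true]
        rw [dot_tf_inr K χ x hx3 _ _ a _ rfl]
        rcases fin4 a with rfl | rfl | rfl | rfl
        · simp [hx0, kw_zero]
        · cases hc : x 1 with
          | false => simp
          | true => simp; linarith
        · cases hc : x 2 with
          | false => simp
          | true => simp; linarith
        · simp [hx3]
      · simp only [h0, if_false]
        rw [dot_tf_inr K χ x hx3 _ _ a _ rfl]
        have h0' : (0 : Fin 4) ≠ a' := fun e => h0 e.symm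
        by_cases hab : a = a'
        · subst hab
          rcases fin4 a with rfl | rfl | rfl | rfl
          · exact absurd rfl h0
          · cases hc : x 1 with
            | false => simp [sca, hc]
            | true => simp [sca, hc]; linarith
          · cases hc : x 2 with
            | false => simp [sca, hc]
            | true => simp [sca, hc]; linarith
          · simp [hx3, sca]
        · simp [h0', hab]

end Pool.H836R3.SE
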