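import Pool.Agent.H836R3.SE.Center

set_option autoImplicit false
set_option linter.unusedSectionVars false
set_option linter.unusedSimpArgs false

namespace Pool.H836R3.SE

theorem hh_smul (χ : Pat) (s : ℝ) (w : ℕ → Bool → ℝ) (k : ℕ) :
    hh χ (fun i b => s * w i b) k = s * hh χ w k := by
  induction k with
  | zero => simp [hh]
  | succ k ih => rw [hh_succ', hh_succ', ih]; ring

theorem Y_smul (χ : Pat) (s : ℝ) (w : ℕ → Bool → ℝ) (i : ℕ) (b : Bool) :
    Y χ (fun i b => s * w i b) i b = s * Y χ w i b := by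
  unfold Y
  rw [hh_smul]
  split_ifs <;> ring

theorem nsq_smul (χ : Pat) (s : ℝ) (w : ℕ → Bool → ℝ) (k : ℕ) :
    nsq χ (fun i b => s * w i b) k = s ^ 2 * nsq χ w k := by
  induction k with
  | zero => simp [nsq]
  | succ k ih => simp only [nsq, ih, Y_smul]; ring

theorem hh_zero (χ : Pat) (k : ℕ) : hh χ (fun _ _ => 0) k = 0 := by
  induction k with
  | zero => rfl
  | succ k ih => rw [hh_succ', ih]; ring

theorem Y_zero (χ : Pat) (i : ℕ) (b : Bool) : Y χ (fun _ _ => 0) i b = 0 := by
  unfold Y; rw [hh_zero]; simp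

theorem nsq_zero (χ : Pat) (k : ℕ) : nsq χ (fun _ _ => 0) k = 0 := by
  induction k with
  | zero => rfl
  | succ k ih => simp only [nsq, ih, Y_zero]; norm_num

theorem eta_pos (K : ℕ) : 0 < eta K := by unfold eta; positivity

theorem g_cab_false (i : ℕ) : g i false * cab i false = 5 := by
  unfold g cab; have := (lam_pos i).ne'; simp; field_simp; norm_num

theorem g_cab_true (i : ℕ) : g i true * cab i true = 3 := by
  unfold g cab; have := (lam_pos i).ne'; simp; field_simp; norm_num

theorem hhv_bound (K : ℕ) (χ : Pat) (k : ℕ) :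
    0 ≤ hh χ (wv K χ) k ∧ hh χ (wv K χ) k ≤ eta K * (9 ^ k - 1) := by
  have he := eta_pos K
  induction k with
  | zero => simp [hh]
  | succ k ih =>
    obtain ⟨h1, h2⟩ := ih
    have e5 := g_cab_false k
    have e3 := g_cab_true k
    rw [hh_succ']
    have hp : (1:ℝ) ≤ 9 ^ k := one_le_pow₀ (by norm_num)
    have w1 : g k false * wv K χ k false = if χ k false then 5 * eta K else 0 := by
      unfold wv rr
      cases χ k false <;> simp; rw [← e5]; ring
    have w2 : g k true * wv K χ k true = if χ k true then 3 * (eta K * 9 ^ k) else 0 := by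
      unfold wv rr
      cases χ k true <;> simp; rw [← e3]; ring
    rw [w1, w2, pow_succ]
    set H := hh χ (wv K χ) k
    have hE : eta K ≤ eta K * 9 ^ k := by nlinarith
    unfold al
    cases χ k false <;> cases χ k true <;> simp <;> constructor <;> nlinarith

theorem hhx_bound (χ : Pat) (k : ℕ) :
    |hh χ (fun i b => if χ i b then 4 * cab i b else 0) k| ≤ 4 * (9 ^ k - 1) := by
  induction k with
  | zero => simp [hh]
  | succ k ih =>
    have e5 := g_cab_false k
    have e3 := g_cab_true k
    rw [hh_succ']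
    have hp : (1:ℝ) ≤ 9 ^ k := one_le_pow₀ (by norm_num)
    have w1 : g k false * (if χ k false then 4 * cab k false else 0) =
        if χ k false then 20 else 0 := by
      cases χ k false <;> simp; linarith
    have w2 : g k true * (if χ k true then 4 * cab k true else 0) =
        if χ k true then 12 else 0 := by
      cases χ k true <;> simp; linarith
    rw [w1, w2, pow_succ]
    set H := hh χ (fun i b => if χ i b then 4 * cab i b else 0) k
    obtain ⟨h1, h2⟩ := abs_le.1 ih
    unfold al
    rw [abs_le]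
    cases χ k false <;> cases χ k true <;> simp <;> constructor <;> nlinarith

noncomputable def muK (K : ℕ) : ℝ := 1 / (16000 * 648 ^ K)
noncomputable def RK (K : ℕ) : ℝ := 4000 * 400 ^ K

theorem muK_pos (K : ℕ) : 0 < muK K := by unfold muK; positivity

theorem muK_eq (K : ℕ) : muK K * (400 * 9 ^ K) = eta K := by
  unfold muK eta
  have : (648:ℝ) ^ K = 72 ^ K * 9 ^ K := by rw [← mul_pow]; norm_num
  rw [this]; field_simp; norm_num

theorem muK_le (K : ℕ) : muK K ≤ eta K / 400 := by
  have := muK_eq K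
  have hp : (1:ℝ) ≤ 9 ^ K := one_le_pow₀ (by norm_num)
  have := muK_pos K
  nlinarith

theorem eta_le (K : ℕ) : eta K ≤ 1 / 40 := by
  unfold eta
  have : (1:ℝ) ≤ 72 ^ K := one_le_pow₀ (by norm_num)
  rw [div_le_div_iff₀ (by positivity) (by norm_num)]
  linarith

theorem muK_le_one (K : ℕ) : muK K ≤ 1 / 16000 := by
  have := muK_le K; have := eta_le K; linarith

theorem RK_ge (K : ℕ) : 4000 ≤ RK K := by
  unfold RK; have : (1:ℝ) ≤ 400 ^ K := one_le_pow₀ (by norm_num); linarith

theorem eta_72 (K : ℕ) : eta K * 72 ^ K = 1 / 40 := by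
  unfold eta; field_simp

theorem cab_le (i : ℕ) (b : Bool) : cab i b ≤ 20 * 8 ^ i := by
  rw [cab_eq]; have : (0:ℝ) < 8 ^ i := by positivity
  cases b <;> simp; linarith

theorem cab_ge (i : ℕ) (b : Bool) : 6 ≤ cab i b := by
  rw [cab_eq]; have : (1:ℝ) ≤ 8 ^ i := one_le_pow₀ (by norm_num)
  cases b <;> simp <;> linarith

theorem Yv_bound (K : ℕ) (χ : Pat) (i : ℕ) (b : Bool) :
    |Y χ (wv K χ) i b| ≤ 40 * (72 ^ i * eta K) := by
  obtain ⟨h1, h2⟩ := hhv_bound K χ i
  have he := eta_pos K
  have hc := cab_pos i b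
  have hc2 := cab_le i b
  have hp : (1:ℝ) ≤ 9 ^ i := one_le_pow₀ (by norm_num)
  have e72 : (72:ℝ) ^ i = 8 ^ i * 9 ^ i := by rw [← mul_pow]; norm_num
  unfold Y
  have hw : |wv K χ i b| ≤ cab i b * (9 ^ i * eta K) := by
    unfold wv rr
    cases χ i b
    · simp; positivity
    · cases b <;> simp
      · rw [abs_of_pos he, abs_of_pos hc]; nlinarith
      · rw [abs_of_pos he, abs_of_pos hc]; nlinarith
  have hh1 : |(if χ i b = true then C i b * hh χ (wv K χ) i else 0)| ≤
      cab i b * (9 ^ i * eta K) := by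
    cases χ i b
    · simp; positivity
    · simp only [if_true]
      rw [abs_mul, abs_C, abs_of_nonneg h1]
      have : hh χ (wv K χ) i ≤ 9 ^ i * eta K := by nlinarith
      exact mul_le_mul_of_nonneg_left this hc.le
  refine (abs_add_le _ _).trans ?_
  have : cab i b * (9 ^ i * eta K) ≤ 20 * 8 ^ i * (9 ^ i * eta K) := by gcongr
  rw [e72]; linarith

theorem SVv_inr_bound (K : ℕ) (χ : Pat) (x : Fin 4 → Bool) (hx3 : x 3 = false) (a : Fin 4)
    (ha : a ≠ 0) : 0 ≤ tS K χ x (Sum.inr a) ∧ tS K χ x (Sum.inr a) ≤ 1 / 5 := by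
  obtain ⟨h1, h2⟩ := hhv_bound K χ K
  have he := eta_pos K
  have hW := Ww_pos K
  have e72 : (72:ℝ) ^ K = 8 ^ K * 9 ^ K := by rw [← mul_pow]; norm_num
  have e1 := eta_72 K
  have hWv : Wv K a = Ww K ∨ Wv K a = 0 := by
    rcases fin4 a with rfl | rfl | rfl | rfl
    · exact absurd rfl ha
    · left; exact Wv_one K
    · left; exact Wv_two K
    · right; exact Wv_three K
  simp only [tS, SV, ha, if_false]
  cases x a
  · simp
  · simp only [if_true]
    rcases hWv with h | h
    · rw [h]
      constructor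
      · positivity
      · have : Ww K * hh χ (wv K χ) K + eta K * Ww K ≤ Ww K * (eta K * 9 ^ K) := by nlinarith
        have e2 : Ww K * (eta K * 9 ^ K) = 8 * (eta K * 72 ^ K) := by rw [e72]; unfold Ww; ring
        rw [e2, e1] at this
        linarith
    · rw [h]; simp

theorem tS_inr0 (K : ℕ) (χ : Pat) (x : Fin 4 → Bool) : tS K χ x (Sum.inr 0) = 1 := by
  simp [tS, SV, Wv_zero]

theorem tS_bound (K : ℕ) (χ : Pat) (x : Fin 4 → Bool) (hx3 : x 3 = false) (l : Ix K) :
    |tS K χ x l| ≤ 1 := by
  rcases l with p | a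
  · have h := Yv_bound K χ p.1 p.2
    have he := eta_pos K
    have h2 : (72:ℝ) ^ (p.1:ℕ) ≤ 72 ^ K := pow_le_pow_right₀ (by norm_num) p.1.isLt.le
    have e1 := eta_72 K
    show |Y χ (wv K χ) p.1 p.2| ≤ 1
    have : 72 ^ (p.1:ℕ) * eta K ≤ 72 ^ K * eta K := by gcongr
    nlinarith
  · by_cases ha : a = 0
    · subst ha; rw [tS_inr0]; simp
    · obtain ⟨h1, h2⟩ := SVv_inr_bound K χ x hx3 a ha
      rw [abs_of_nonneg h1]; linarith

theorem far_slack (K : ℕ) (χ : Pat) (x : Fin 4 → Bool) (hx3 : x 3 = false) :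
    dot (farRow K) (tS K χ x) ≤ 3 / 4 := by
  rw [dot_Ix]
  have he := eta_pos K
  have e1 := eta_72 K
  have hs : ∑ p : Fin K × Bool, farRow K (Sum.inl p) * tS K χ x (Sum.inl p) ≤
      ∑ p : Fin K × Bool, 20 * (72 ^ (p.1:ℕ) * eta K) := by
    refine Finset.sum_le_sum (fun p _ => ?_)
    have h := (abs_le.1 (Yv_bound K χ p.1 p.2)).2
    show (farRow K (Sum.inl p)) * Y χ (wv K χ) p.1 p.2 ≤ _
    simp [farRow]; linarith
  have hs2 : ∑ p : Fin K × Bool, 20 * (72 ^ (p.1:ℕ) * eta K) = 40 * (72 ^ K - 1) / 71 * eta K := by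
    refine sum_pat K (fun i _ => 20 * (72 ^ i * eta K)) (fun k => 40 * (72 ^ k - 1) / 71 * eta K)
      (by simp) ?_
    intro k
    simp only [pow_succ]; ring
  rw [hs2] at hs
  have h1 := (SVv_inr_bound K χ x hx3 1 (by decide)).2
  have h2 := (SVv_inr_bound K χ x hx3 2 (by decide)).2
  have h3 := (SVv_inr_bound K χ x hx3 3 (by decide)).2
  rw [tS_inr0]
  have f0 : farRow K (Sum.inr 0) = 1 / 2 := by simp [farRow]
  have f1 : farRow K (Sum.inr 1) = 1 / 2 := by simp [farRow]
  have f2 : farRow K (Sum.inr 2) = 1 / 2 := by simp [farRow]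
  have f3 : farRow K (Sum.inr 3) = 1 / 32 := by simp [farRow]
  rw [f0, f1, f2, f3]
  have h4 : tS K χ x (Sum.inr 3) = 0 := by simp [tS, SV, hx3]
  rw [h4]
  have : 40 * (72 ^ K - 1) / 71 * eta K ≤ 1 / 71 := by
    have : 40 * (72 ^ K - 1) / 71 * eta K = 40 / 71 * (eta K * 72 ^ K) - 40 / 71 * eta K := by ring
    rw [this, e1]; linarith
  linarith

theorem kst_cab (i : ℕ) (b : Bool) : kst i b * cab i b = 1 / 4 := by
  have := kst_mul i b; linarith

theorem slack_S (K : ℕ) (χ : Pat) (x : Fin 4 → Bool) (hx0 : x 0 = true) (hx3 : x 3 = false)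
    (q : Ix K × Bool) (hq : ∀ j, tfS K χ x j ≠ q) :
    dot (NN K q) (tS K χ x) + muK K ≤ bb K q := by
  have he := eta_pos K
  have hmu := muK_le K
  have hmu0 := muK_pos K
  have hmu1 := muK_le_one K
  have hW := Ww_pos K
  have hW8 := Ww_ge K
  have key : ∀ (i : ℕ) (b : Bool), cab i b * eta K ≤ eta K * rr i b + C i b * hh χ (wv K χ) i := by
    intro i b
    obtain ⟨h1, h2⟩ := hhv_bound K χ i
    have hc := cab_pos i b
    rw [C_eq]; unfold rr
    cases b <;> simp <;> nlinarith
  obtain ⟨j, b⟩ := q
  have hb : b = !(sS K χ x j) := by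
    have := hq j
    unfold tfS at this
    have h2 : sS K χ x j ≠ b := fun e => this (by rw [e])
    cases b <;> cases h : sS K χ x j <;> simp_all
  rcases j with p | a
  · simp only [sS] at hb
    cases hc : χ p.1 p.2 with
    | false =>
      rw [hc] at hb; simp only [Bool.not_false] at hb; subst hb
      unfold tS
      rw [dot_other_inl_true]
      simp only [bb]
      have hY : Y χ (wv K χ) p.1 p.2 = 0 := by unfold Y wv; simp [hc]
      rw [hY]
      have k1 := key p.1 p.2
      have k2 := kst_cab p.1 p.2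
      have k3 : 0 < kst p.1 p.2 := by unfold kst; have := cab_pos p.1 p.2; positivity
      have k4 := mul_le_mul_of_nonneg_left k1 k3.le
      have : kst p.1 p.2 * (cab p.1 p.2 * eta K) = 1 / 4 * eta K := by rw [← k2]; ring
      rw [this] at k4
      simp only [if_true]
      nlinarith
    | true =>
      rw [hc] at hb; simp only [Bool.not_true] at hb; subst hb
      rw [dot_other_false]
      show - Y χ (wv K χ) p.1 p.2 + muK K ≤ 0
      have k1 := key p.1 p.2
      have hY : Y χ (wv K χ) p.1 p.2 = eta K * rr p.1 p.2 + C p.1 p.2 * hh χ (wv K χ) p.1 := by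
        unfold Y; simp only [hc, if_true]; unfold wv; simp only [hc, if_true]; ring
      rw [hY]
      have := cab_ge p.1 p.2
      nlinarith
  · simp only [sS] at hb
    obtain ⟨h1, h2⟩ := hhv_bound K χ K
    cases hc : x a with
    | false =>
      rw [hc] at hb; simp only [Bool.not_false] at hb; subst hb
      rcases fin4 a with rfl | rfl | rfl | rfl
      · rw [hx0] at hc; exact absurd hc (by simp)
      · unfold tS
        rw [dot_other_inr_true _ _ _ _ _ _ (by decide)]
        simp only [bb, SV, hc, Wv_one]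
        have k1 := kw_mul1 K
        rw [ikw_one] at k1
        have k3 : 0 < kw K 1 := by unfold kw; rw [ikw_one]; positivity
        have : kw K 1 * (Ww K * hh χ (wv K χ) K) ≥ 0 := by positivity
        have : kw K 1 * (eta K * Ww K) = eta K / 4 := by
          have : kw K 1 * (eta K * Ww K) = (kw K 1 * (4 * Ww K)) * eta K / 4 := by ring
          rw [this, k1]; ring
        rw [this]
        simp
        nlinarith
      · unfold tS
        rw [dot_other_inr_true _ _ _ _ _ _ (by decide)]
        simp only [bb, SV, hc, Wv_two]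
        have k1 := kw_mul2 K
        rw [ikw_two] at k1
        have k3 : 0 < kw K 2 := by unfold kw; rw [ikw_two]; positivity
        have : kw K 2 * (Ww K * hh χ (wv K χ) K) ≥ 0 := by positivity
        have : kw K 2 * (eta K * Ww K) = muK K := by
          rw [← muK_eq]
          have : kw K 2 * (muK K * (400 * 9 ^ K) * Ww K) =
            (kw K 2 * (400 * Ww K * 9 ^ K)) * muK K := by ring
          rw [this, k1]; ring
        rw [this]
        simp
        nlinarith
      · have hN : NN K (Sum.inr 3, true) = farRow K := by simp [NN]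
        rw [hN]
        have := far_slack K χ x hx3
        simp only [bb, Wv_three]
        simp
        linarith
    | true =>
      rw [hc] at hb; simp only [Bool.not_true] at hb; subst hb
      rw [dot_other_false]
      simp only [bb]
      rcases fin4 a with rfl | rfl | rfl | rfl
      · rw [tS_inr0]; linarith
      · simp only [tS, SV, hc, if_true, Wv_one]
        simp
        have : 0 ≤ Ww K * hh χ (wv K χ) K := by positivity
        nlinarith
      · simp only [tS, SV, hc, if_true, Wv_two]
        simp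
        have : 0 ≤ Ww K * hh χ (wv K χ) K := by positivity
        nlinarith
      · rw [hx3] at hc; exact absurd hc (by simp)

end Pool.H836R3.SE
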