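import Pool.Agent.H836R3.SE.Center2

set_option autoImplicit false
set_option linter.unusedSectionVars false
set_option linter.unusedSimpArgs false

namespace Pool.H836R3.SE

theorem scp_abs (χ : Pat) (i : ℕ) (b : Bool) : 1 ≤ |scp χ i b| ∧ |scp χ i b| ≤ 80 * 8 ^ i := by
  have h1 := cab_ge i b
  have h2 := cab_le i b
  have h3 : (1:ℝ) ≤ 8 ^ i := one_le_pow₀ (by norm_num)
  unfold scp
  cases χ i b
  · simp; linarith
  · simp only [if_true, abs_neg]
    rw [abs_of_pos (by linarith)]
    constructor <;> linarith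

theorem pows (K : ℕ) : (8:ℝ) ^ K * 8 ^ K * 6 ^ K ≤ 400 ^ K ∧ (72:ℝ) ^ K ≤ 400 ^ K ∧
    (8:ℝ) ^ K ≤ 400 ^ K ∧ (1:ℝ) ≤ 8 ^ K ∧ (1:ℝ) ≤ 6 ^ K ∧ (1:ℝ) ≤ 9 ^ K ∧ (1:ℝ) ≤ 400 ^ K := by
  refine ⟨?_, ?_, ?_, ?_, ?_, ?_, ?_⟩
  · rw [← mul_pow, ← mul_pow]; exact pow_le_pow_left₀ (by norm_num) (by norm_num) K
  · exact pow_le_pow_left₀ (by norm_num) (by norm_num) K
  · exact pow_le_pow_left₀ (by norm_num) (by norm_num) K
  all_goals exact one_le_pow₀ (by norm_num)

theorem uni_abs (i0 : ℕ) (b0 : Bool) (i : ℕ) (b : Bool) : |uni i0 b0 i b| ≤ 1 := by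
  unfold uni; split_ifs <;> simp

theorem Yuni_bound (K : ℕ) (χ : Pat) (i0 : ℕ) (b0 : Bool) (i : ℕ) (hi : i ≤ K) (b : Bool) :
    |Y χ (uni i0 b0) i b| ≤ 20 * 8 ^ K * 6 ^ K + 1 := by
  unfold Y
  refine (abs_add_le _ _).trans (add_le_add ?_ (uni_abs _ _ _ _))
  cases χ i b
  · simp
  · simp only [if_true]
    rw [abs_mul, abs_C]
    have h1 := hh_uni_abs_le χ i0 b0 i
    have h2 := cab_le i b
    have h3 : (8:ℝ) ^ i ≤ 8 ^ K := pow_le_pow_right₀ (by norm_num) hi
    have h4 : (6:ℝ) ^ i ≤ 6 ^ K := pow_le_pow_right₀ (by norm_num) hi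
    have h5 := cab_pos i b
    exact mul_le_mul (by linarith) (h1.trans h4) (abs_nonneg _) (by positivity)

theorem Wv_cases (K : ℕ) (a : Fin 4) : 0 ≤ Wv K a ∧ Wv K a ≤ 8 * 8 ^ K := by
  have := Ww_pos K
  have e : Ww K = 8 * 8 ^ K := rfl
  rcases fin4 a with rfl | rfl | rfl | rfl
  · rw [Wv_zero]; exact ⟨le_rfl, by positivity⟩
  · rw [Wv_one]; exact ⟨this.le, e.le⟩
  · rw [Wv_two]; exact ⟨this.le, e.le⟩
  · rw [Wv_three]; exact ⟨le_rfl, by positivity⟩

theorem ikw_cases (K : ℕ) (a : Fin 4) : 0 ≤ ikw K a ∧ ikw K a ≤ 3200 * 72 ^ K := by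
  have hW := Ww_pos K
  have e : Ww K = 8 * 8 ^ K := rfl
  have e72 : (72:ℝ) ^ K = 8 ^ K * 9 ^ K := by rw [← mul_pow]; norm_num
  obtain ⟨-, -, -, h8, -, h9, -⟩ := pows K
  rcases fin4 a with rfl | rfl | rfl | rfl
  · simp [ikw]
  · rw [ikw_one, e72, e]; constructor
    · positivity
    · nlinarith
  · rw [ikw_two, e72, e]; constructor
    · positivity
    · nlinarith
  · have : ikw K 3 = 0 := by unfold ikw; simp
    rw [this]; constructor
    · exact le_rfl
    · positivity

theorem dS_bound (K : ℕ) (χ : Pat) (x : Fin 4 → Bool) (j l : Ix K) :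
    |dS K χ x j l| ≤ RK K := by
  obtain ⟨p1, p2, p3, p4, p5, p6, p7⟩ := pows K
  have hR : RK K = 4000 * 400 ^ K := rfl
  have e72 : (72:ℝ) ^ K = 8 ^ K * 9 ^ K := by rw [← mul_pow]; norm_num
  rcases j with p | a
  · have hsc := (scp_abs χ p.1 p.2).2
    have h8 : (8:ℝ) ^ (p.1:ℕ) ≤ 8 ^ K := pow_le_pow_right₀ (by norm_num) p.1.isLt.le
    rcases l with q | a'
    · simp only [dS, SV]
      rw [Y_smul, abs_mul]
      have h1 := Yuni_bound K χ p.1 p.2 q.1 q.1.isLt.le q.2
      have h2 : |scp χ p.1 p.2| * |Y χ (uni p.1 p.2) q.1 q.2| ≤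
          (80 * 8 ^ K) * (20 * 8 ^ K * 6 ^ K + 1) :=
        mul_le_mul (by linarith) h1 (abs_nonneg _) (by positivity)
      have h3 : (80 * 8 ^ K) * (20 * 8 ^ K * 6 ^ K + 1) = 1600 * ((8:ℝ) ^ K * 8 ^ K * 6 ^ K) +
          80 * 8 ^ K := by ring
      rw [h3] at h2
      rw [hR]; linarith
    · simp only [dS, SV]
      rw [hh_smul, add_zero]
      cases x a'
      · simp; rw [hR]; positivity
      · simp only [if_true]
        rw [abs_mul, abs_mul]
        obtain ⟨w1, w2⟩ := Wv_cases K a'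
        rw [abs_of_nonneg w1]
        have h1 := hh_uni_abs_le χ p.1 p.2 K
        have h2 : |scp χ p.1 p.2| * |hh χ (uni p.1 p.2) K| ≤ (80 * 8 ^ K) * 6 ^ K :=
          mul_le_mul (by linarith) h1 (abs_nonneg _) (by positivity)
        have h3 : Wv K a' * (|scp χ p.1 p.2| * |hh χ (uni p.1 p.2) K|) ≤
            (8 * 8 ^ K) * ((80 * 8 ^ K) * 6 ^ K) :=
          mul_le_mul w2 h2 (by positivity) (by positivity)
        have h4 : ((8:ℝ) * 8 ^ K) * ((80 * 8 ^ K) * 6 ^ K) = 640 * (8 ^ K * 8 ^ K * 6 ^ K) := by ring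
        rw [h4] at h3
        rw [hR]; linarith
  · simp only [dS]
    by_cases h0 : a = 0
    · simp only [h0, if_true]
      rcases l with q | a'
      · simp only [SV, Y]
        have hb := hhx_bound χ q.1
        have h9 : (1:ℝ) ≤ 9 ^ (q.1:ℕ) := one_le_pow₀ (by norm_num)
        have h8 : (8:ℝ) ^ (q.1:ℕ) ≤ 8 ^ K := pow_le_pow_right₀ (by norm_num) q.1.isLt.le
        have h99 : (9:ℝ) ^ (q.1:ℕ) ≤ 9 ^ K := pow_le_pow_right₀ (by norm_num) q.1.isLt.le
        cases χ q.1 q.2
        · simp; rw [hR]; positivity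
        · simp only [if_true]
          have hc := cab_pos q.1 q.2
          have hc2 := cab_le q.1 q.2
          refine (abs_add_le _ _).trans ?_
          rw [abs_mul, abs_C, abs_of_pos (by linarith : 0 < 4 * cab q.1 q.2)]
          have h1 : cab q.1 q.2 * |hh χ (fun i b => if χ i b then 4 * cab i b else 0) q.1| ≤
              cab q.1 q.2 * (4 * (9 ^ (q.1:ℕ) - 1)) := mul_le_mul_of_nonneg_left hb hc.le
          have h2 : cab q.1 q.2 * (4 * (9 ^ (q.1:ℕ) - 1)) + 4 * cab q.1 q.2 =
            4 * cab q.1 q.2 * 9 ^ (q.1:ℕ) := by ring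
          have h3 : 4 * cab q.1 q.2 * 9 ^ (q.1:ℕ) ≤ (4 * (20 * 8 ^ K)) * 9 ^ K :=
            mul_le_mul (by linarith) h99 (by positivity) (by positivity)
          have h4 : (4 * (20 * 8 ^ K)) * 9 ^ K = 80 * (72:ℝ) ^ K := by rw [e72]; ring
          rw [h4] at h3
          rw [hR]; linarith
      · simp only [SV]
        have hb := hhx_bound χ K
        obtain ⟨w1, w2⟩ := Wv_cases K a'
        obtain ⟨i1, i2⟩ := ikw_cases K a'
        have t1 : |if x a' = true then Wv K a' *
            hh χ (fun i b => if χ i b then 4 * cab i b else 0) K else 0| ≤ 32 * 72 ^ K := by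
          cases x a'
          · simp
          · simp only [if_true]
            rw [abs_mul, abs_of_nonneg w1]
            have := mul_le_mul w2 (hb.trans (by linarith : 4 * ((9:ℝ) ^ K - 1) ≤ 4 * 9 ^ K))
              (abs_nonneg _) (by positivity)
            refine this.trans (le_of_eq ?_)
            rw [e72]; ring
        have t2 : |if a' = 0 then (-1:ℝ) else if x a' = true then ikw K a' else 0| ≤
            3200 * 72 ^ K := by
          have : (1:ℝ) ≤ 72 ^ K := one_le_pow₀ (by norm_num)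
          split_ifs
          · simp; linarith
          · rw [abs_of_nonneg i1]; exact i2
          · simp
        refine (abs_add_le _ _).trans ?_
        rw [hR]; linarith
    · simp only [h0, if_false]
      rcases l with q | a'
      · simp only [SV, Y_zero]; simp; rw [hR]; positivity
      · simp only [SV, hh_zero, mul_zero, ite_self, zero_add]
        obtain ⟨i1, i2⟩ := ikw_cases K a
        have : |sca K x a| ≤ 3200 * 72 ^ K := by
          have : (1:ℝ) ≤ 72 ^ K := one_le_pow₀ (by norm_num)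
          unfold sca
          cases x a
          · simp; linarith
          · simp only [if_true, abs_neg]; rw [abs_of_nonneg i1]; exact i2
        split_ifs
        · rw [hR]; linarith
        · simp; rw [hR]; positivity

theorem vbase_S (K : ℕ) (χ : Pat) (x : Fin 4 → Bool) (hx0 : x 0 = true) (hx3 : x 3 = false) :
    VBase (NN K) (bb K) (RK K) (muK K) (tfS K χ x) (tS K χ x) (dS K χ x) := by
  refine ⟨?_, dir_S K χ x hx0 hx3, ?_, slack_S K χ x hx0 hx3, tS_bound K χ x hx3,
    fun j l => dS_bound K χ x j l⟩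
  · intro a b h
    exact (Prod.ext_iff.1 h).1
  · intro j
    rcases j with p | a
    · simp only [tfS, sS, tS]
      rw [dot_tf_inl K χ x _ _ p _ rfl]
      cases hc : χ p.1 p.2 with
      | false => simp [bb, wv, hc]
      | true => simp [bb, wv, hc]
    · simp only [tfS, sS, tS]
      rw [dot_tf_inr K χ x hx3 _ _ a _ rfl]
      cases hc : x a with
      | false =>
        have : a ≠ 0 := by rintro rfl; rw [hx0] at hc; exact absurd hc (by simp)
        simp [bb, hc, this]
      | true =>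
        rcases fin4 a with rfl | rfl | rfl | rfl
        · simp [bb, kw_zero]
        · simp [bb, hc]
        · simp [bb, hc]
        · rw [hx3] at hc; exact absurd hc (by simp)

/-- the start vertex -/
theorem vbase_0 (K : ℕ) :
    VBase (NN K) (bb K) (RK K) (muK K) (fun j => (j, false)) 0
      (fun j l => if l = j then 1 else 0) := by
  have hR := RK_ge K
  have hmu := muK_le_one K
  have he := eta_pos K
  refine ⟨?_, ?_, ?_, ?_, ?_, ?_⟩
  · intro a b h
    exact (Prod.ext_iff.1 h).1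
  · intro i j
    rw [dot_other_false]
    by_cases h : i = j
    · simp [h]
    · simp [h]
  · intro j
    rw [dot_zero]; simp [bb]
  · intro q hq
    obtain ⟨j, b⟩ := q
    have hb : b = true := by
      cases b
      · exact absurd rfl (hq j)
      · rfl
    subst hb
    rw [dot_zero]
    rcases j with p | a
    · simp only [bb]
      have h1 : 0 ≤ kst p.1 p.2 * (eta K * rr p.1 p.2) := by
        unfold kst rr; have := cab_pos p.1 p.2
        split_ifs <;> positivity
      linarith
    · simp only [bb]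
      have h1 : 0 ≤ kw K a * (eta K * Wv K a) := by
        have := (ikw_cases K a).1
        have := (Wv_cases K a).1
        unfold kw; positivity
      linarith
  · intro l; simp
  · intro j l
    split_ifs
    · simp; linarith
    · simp; linarith

theorem kst_g (i k : ℕ) (b b' : Bool) : |kst i b * (C i b * g k b')| ≤ 1 / 8 := by
  rw [abs_mul, abs_mul, abs_C, ← mul_assoc]
  have k3 : 0 < kst i b := by unfold kst; have := cab_pos i b; positivity
  rw [abs_of_pos k3, kst_cab, abs_of_pos (g_pos _ _)]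
  have := g_le k b'
  linarith

theorem hvec_abs (K k : ℕ) (l : Ix K) : 0 ≤ hvec K k l ∧ hvec K k l ≤ 1 / 2 := by
  rcases l with p | a
  · simp only [hvec]
    have := g_pos p.1 p.2
    have := g_le p.1 p.2
    split_ifs
    · constructor <;> linarith
    · constructor <;> norm_num
  · simp only [hvec]; constructor <;> norm_num

theorem kw_bd (K : ℕ) (a : Fin 4) : 0 ≤ kw K a ∧ kw K a ≤ 1 / 32 ∧ kw K a * Wv K a ≤ 1 / 4 := by
  have hW := Ww_ge K
  obtain ⟨-, -, -, h8, -, h9, -⟩ := pows K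
  rcases fin4 a with rfl | rfl | rfl | rfl
  · rw [kw_zero]; norm_num
  · have h1 := kw_mul1 K
    rw [ikw_one] at h1
    rw [Wv_one]
    have h2 : 0 ≤ kw K 1 := by unfold kw; rw [ikw_one]; positivity
    refine ⟨h2, ?_, ?_⟩
    · nlinarith
    · linarith
  · have h1 := kw_mul2 K
    rw [ikw_two] at h1
    rw [Wv_two]
    have h2 : 0 ≤ kw K 2 := by unfold kw; rw [ikw_two]; positivity
    have h3 : kw K 2 * (4 * Ww K) ≤ kw K 2 * (400 * Ww K * 9 ^ K) := by
      apply mul_le_mul_of_nonneg_left _ h2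
      nlinarith
    rw [h1] at h3
    refine ⟨h2, ?_, ?_⟩
    · nlinarith
    · linarith
  · rw [kw_three]; norm_num

/-- explicit bounds of the entries of an upper row -/
theorem upRow_bound (K : ℕ) (q l : Ix K) (κ₀ c₀ : ℝ) (k : ℕ) (hκ : 0 ≤ κ₀) (hκ2 : κ₀ ≤ 1 / 24)
    (hc : |κ₀ * c₀| ≤ 1 / 4) (hl : l ≠ Sum.inr 0) :
    |upRow K q κ₀ c₀ k l| ≤ 1 / 6 := by
  obtain ⟨h1, h2⟩ := hvec_abs K k l
  unfold upRow
  simp only [hl, if_false, zero_add]
  have e : κ₀ * ((if l = q then 1 else 0) - c₀ * hvec K k l) =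
      κ₀ * (if l = q then 1 else 0) - (κ₀ * c₀) * hvec K k l := by ring
  rw [e]
  refine (abs_sub _ _).trans ?_
  have t1 : |κ₀ * (if l = q then (1:ℝ) else 0)| ≤ 1 / 24 := by
    split_ifs
    · rw [mul_one, abs_of_nonneg hκ]; exact hκ2
    · simp
  have t2 : |κ₀ * c₀ * hvec K k l| ≤ 1 / 4 * (1 / 2) := by
    rw [abs_mul, abs_of_nonneg h1]
    exact mul_le_mul hc h2 h1 (by norm_num)
  linarith

theorem upRow_zero (K : ℕ) (q : Ix K) (κ₀ c₀ : ℝ) (k : ℕ) (hq : q ≠ Sum.inr 0) :
    upRow K q κ₀ c₀ k (Sum.inr 0) = 1 := by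
  unfold upRow
  simp [hvec, hq.symm]

/-- the rows other than far: `ξ`-entry is 1 (upper) and the others are small -/
theorem NN_up (K : ℕ) (q : Ix K) (hq : q ≠ Sum.inr 3) :
    NN K (q, true) (Sum.inr 0) = 1 ∧ ∀ l, l ≠ Sum.inr 0 → |NN K (q, true) l| ≤ 1 / 6 := by
  rcases q with p | a
  · have k3 : 0 < kst p.1 p.2 := by unfold kst; have := cab_pos p.1 p.2; positivity
    have k4 := kst_cab p.1 p.2
    have k5 := cab_ge p.1 p.2
    refine ⟨?_, fun l hl => ?_⟩
    · simp only [NN]; exact upRow_zero _ _ _ _ _ (by simp)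
    · simp only [NN]
      refine upRow_bound K _ l _ _ _ k3.le (by nlinarith) ?_ hl
      rw [abs_mul, abs_C, abs_of_pos k3, k4]
  · have ha : a ≠ 3 := fun e => hq (by rw [e])
    obtain ⟨h1, h2, h3⟩ := kw_bd K a
    obtain ⟨h4, -⟩ := Wv_cases K a
    refine ⟨?_, fun l hl => ?_⟩
    · simp only [NN, ha, if_false]
      by_cases h0 : a = 0
      · subst h0; simp [upRow, kw_zero]
      · exact upRow_zero _ _ _ _ _ (by intro e; exact h0 (Sum.inr_injective e))
    · simp only [NN, ha, if_false]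
      refine upRow_bound K _ l _ _ _ h1 (by linarith) ?_ hl
      rw [abs_of_nonneg (by positivity)]; exact h3

theorem NN_bound (K : ℕ) (q : Ix K × Bool) (l : Ix K) : |NN K q l| ≤ 1 := by
  obtain ⟨j, b⟩ := q
  cases b
  · have : NN K (j, false) = fun l => if l = j then (-1:ℝ) else 0 := by cases j <;> rfl
    rw [this]; simp only; split_ifs <;> simp
  · by_cases h3 : j = Sum.inr 3
    · subst h3
      have : NN K (Sum.inr 3, true) = farRow K := by simp [NN]
      rw [this]; unfold farRow; split_ifs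
      · rw [abs_of_pos] <;> norm_num
      · rw [abs_of_pos] <;> norm_num
    · obtain ⟨h1, h2⟩ := NN_up K j h3
      by_cases hl : l = Sum.inr 0
      · rw [hl, h1]; simp
      · exact (h2 l hl).trans (by norm_num)

theorem bb_bound (K : ℕ) (q : Ix K × Bool) : 0 ≤ bb K q ∧ bb K q ≤ 2 := by
  have he := eta_pos K
  have h72 := eta_72 K
  obtain ⟨j, b⟩ := q
  cases b
  · simp [bb]
  · rcases j with p | a
    · simp only [bb]
      have k3 : 0 < kst p.1 p.2 := by unfold kst; have := cab_pos p.1 p.2; positivity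
      have k4 := kst_cab p.1 p.2
      have h1 : 0 ≤ kst p.1 p.2 * (eta K * rr p.1 p.2) := by
        unfold rr; have := cab_pos p.1 p.2
        split_ifs <;> positivity
      have h2 : kst p.1 p.2 * (eta K * rr p.1 p.2) ≤ 1 / 4 * (eta K * 72 ^ K) := by
        have h9 : (9:ℝ) ^ (p.1:ℕ) ≤ 72 ^ K :=
          (pow_le_pow_left₀ (by norm_num) (by norm_num) _).trans
            (pow_le_pow_right₀ (by norm_num) p.1.isLt.le)
        have h10 : (1:ℝ) ≤ 72 ^ K := one_le_pow₀ (by norm_num)
        unfold rr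
        rw [← k4]
        split_ifs
        · have : kst p.1 p.2 * (eta K * (cab p.1 p.2 * 9 ^ (p.1:ℕ))) =
              kst p.1 p.2 * cab p.1 p.2 * (eta K * 9 ^ (p.1:ℕ)) := by ring
          rw [this, k4]; gcongr
        · have : kst p.1 p.2 * (eta K * cab p.1 p.2) =
              kst p.1 p.2 * cab p.1 p.2 * (eta K * 1) := by ring
          rw [this, k4]; gcongr
      rw [h72] at h2
      constructor <;> linarith
    · simp only [bb]
      obtain ⟨h1, h2, h3⟩ := kw_bd K a
      obtain ⟨h4, -⟩ := Wv_cases K a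
      have h5 := eta_le K
      have h6 : kw K a * (eta K * Wv K a) = eta K * (kw K a * Wv K a) := by ring
      have h7 : 0 ≤ kw K a * Wv K a := by positivity
      rw [h6]
      constructor <;> nlinarith

theorem cc_bound (K : ℕ) (l : Ix K) : |cc K l| ≤ 4 := by
  rcases l with p | a
  · simp only [cc, abs_neg]
    rw [abs_of_pos (g_pos _ _)]
    have := g_le p.1 p.2; linarith
  · simp only [cc, cw]
    have hW := Ww_ge K
    have : 1 / (2 * Ww K) ≤ 1 := by
      rw [div_le_one (by positivity)]; linarith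
    have h0 : 0 < 1 / (2 * Ww K) := by positivity
    split_ifs
    · simp
    · rw [abs_of_pos (by linarith)]; linarith
    · simp; norm_num
    · simp

end Pool.H836R3.SE
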