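import Pool.Agent.H836R3.SE.Center3

set_option autoImplicit false
set_option linter.unusedSectionVars false
set_option linter.unusedSimpArgs false

namespace Pool.H836R3.SE

theorem dot_cc (K : ℕ) (χ : Pat) (x : Fin 4 → Bool) (w : ℕ → Bool → ℝ) (e : Fin 4 → ℝ) :
    dot (cc K) (SV K χ x w e) = - hh χ w K + (4 * e 0 +
      (2 + 1 / (2 * Ww K)) * SV K χ x w e (Sum.inr 1) + 2 * SV K χ x w e (Sum.inr 2) + e 3) := by
  rw [dot_Ix]
  have h1 : ∑ p : Fin K × Bool, cc K (Sum.inl p) * SV K χ x w e (Sum.inl p) = - hh χ w K := by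
    refine sum_pat K (fun i b => - g i b * Y χ w i b) (fun k => - hh χ w k) (by simp [hh]) ?_
    intro k
    simp only [hh_succ]; ring
  rw [h1]
  simp [cc, cw, SV, Wv_zero, Wv_three]

theorem dot_self_SV (K : ℕ) (χ : Pat) (x : Fin 4 → Bool) (w : ℕ → Bool → ℝ) (e : Fin 4 → ℝ) :
    dot (SV K χ x w e) (SV K χ x w e) = nsq χ w K + ((e 0) ^ 2 +
      (SV K χ x w e (Sum.inr 1)) ^ 2 + (SV K χ x w e (Sum.inr 2)) ^ 2 + (e 3) ^ 2) := by
  rw [dot_Ix]
  have h1 : ∑ p : Fin K × Bool, SV K χ x w e (Sum.inl p) * SV K χ x w e (Sum.inl p) =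
      nsq χ w K := by
    refine sum_pat K (fun i b => Y χ w i b * Y χ w i b) (fun k => nsq χ w k) (by simp [nsq]) ?_
    intro k
    simp only [nsq]; ring
  rw [h1]
  have h0 : SV K χ x w e (Sum.inr 0) = e 0 := by simp [SV, Wv_zero]
  have h3 : SV K χ x w e (Sum.inr 3) = e 3 := by simp [SV, Wv_three]
  rw [h0, h3]; ring

def X1 : Fin 4 → Bool := fun a => decide (a = 0)
def X2 : Fin 4 → Bool := fun a => decide (a = 0 ∨ a = 1)
def X3 : Fin 4 → Bool := fun a => decide (a ≠ 3)

/-- all-lower pattern -/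
def χ0 : Pat := fun _ _ => false

theorem muK_le_lam (K : ℕ) : muK K ≤ lam K := by
  have h := muK_le K
  unfold lam
  have e1 := eta_72 K
  have h9 : (1:ℝ) ≤ 9 ^ K := one_le_pow₀ (by norm_num)
  have e72 : (72:ℝ) ^ K = 8 ^ K * 9 ^ K := by rw [← mul_pow]; norm_num
  have he := eta_pos K
  have h8 : (0:ℝ) < 8 ^ K := by positivity
  have : eta K * 8 ^ K ≤ 1 / 40 := by
    rw [e72] at e1
    have : eta K * 8 ^ K ≤ eta K * (8 ^ K * 9 ^ K) := by
      apply mul_le_mul_of_nonneg_left _ he.le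
      nlinarith
    linarith
  rw [one_div, inv_pow, ← one_div]
  rw [le_div_iff₀ h8]
  nlinarith

theorem muK_le_mg (K : ℕ) : muK K ≤ mg K := by
  unfold muK mg lam
  rw [← pow_mul, mul_comm K 2, pow_mul, one_div, one_div, inv_pow, inv_pow]
  have h1 : ((8:ℝ) ^ 2) ^ K ≤ 16000 * 648 ^ K := by
    have : ((8:ℝ) ^ 2) ^ K ≤ 648 ^ K := pow_le_pow_left₀ (by norm_num) (by norm_num) K
    have : (0:ℝ) < 648 ^ K := by positivity
    linarith
  exact inv_anti₀ (by positivity) h1

theorem nsq_uni_false (K i0 : ℕ) (b0 : Bool) (hi : i0 < K) :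
    nsq χ0 (uni i0 b0) K = 1 ∧ hh χ0 (uni i0 b0) K = g i0 b0 := by
  induction K with
  | zero => omega
  | succ k ih =>
    rcases Nat.lt_succ_iff_lt_or_eq.1 hi with h | h
    · obtain ⟨h1, h2⟩ := ih h
      rw [nsq_uni_succ _ _ _ _ h, hh_uni_succ _ _ _ _ h, h1, h2]
      constructor
      · simp [om, χ0]
      · simp [al, χ0]
    · subst h
      exact ⟨nsq_uni_self _ _ _, hh_uni_self _ _ _⟩

theorem g_ge_mu (K i : ℕ) (b : Bool) (hi : i < K) : muK K ≤ g i b := by
  have h1 := muK_le_lam K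
  have h2 := g_ge i b
  have h3 : lam K ≤ lam (i + 1) := lam_anti hi
  linarith

theorem mu_W (K : ℕ) : muK K ≤ 1 / Ww K := by
  have h1 := muK_le_lam K
  have h2 : 1 / Ww K = lam K / 8 := by
    unfold Ww lam; rw [one_div_pow]; field_simp
  have h3 := muK_le K
  have e1 := eta_72 K
  have h9 : (1:ℝ) ≤ 9 ^ K := one_le_pow₀ (by norm_num)
  have e72 : (72:ℝ) ^ K = 8 ^ K * 9 ^ K := by rw [← mul_pow]; norm_num
  have he := eta_pos K
  have hW := Ww_pos K
  rw [le_div_iff₀ hW]
  have : eta K * 8 ^ K ≤ 1 / 40 := by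
    rw [e72] at e1
    have h8 : (0:ℝ) < 8 ^ K := by positivity
    have : eta K * 8 ^ K ≤ eta K * (8 ^ K * 9 ^ K) := by
      apply mul_le_mul_of_nonneg_left _ he.le
      nlinarith
    linarith
  unfold Ww
  have h8 : (0:ℝ) < 8 ^ K := by positivity
  nlinarith

/-- gain/margin property at a state for a chosen direction -/
def GoodStep (K : ℕ) (δ : Ix K → Ix K → ℝ) (js : Ix K) : Prop :=
  muK K ≤ dot (cc K) (δ js) ∧ ∀ j, j ≠ js → dot (cc K) (δ j) ≤ - muK K ∨
    (dot (cc K) (δ j)) ^ 2 * dot (δ js) (δ js) + muK K ≤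
      (dot (cc K) (δ js)) ^ 2 * dot (δ j) (δ j)

theorem good0 (K : ℕ) : GoodStep K (fun j l => if l = j then 1 else 0) (Sum.inr 0) := by
  have hmu := muK_le_one K
  have hW := Ww_ge K
  have hW2 : 1 / (2 * Ww K) ≤ 1 := by
    rw [div_le_one (by positivity)]; linarith
  have h0 : 0 < 1 / (2 * Ww K) := by positivity
  have hg : ∀ j : Ix K, dot (cc K) (fun l => if l = j then 1 else 0) = cc K j := by
    intro j; rw [dot_comm, dot_single]; ring
  have hn : ∀ j : Ix K, dot (fun l => if l = j then (1:ℝ) else 0)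
      (fun l => if l = j then (1:ℝ) else 0) = 1 := by
    intro j; rw [dot_single]; simp
  refine ⟨?_, ?_⟩
  · rw [hg]; simp [cc, cw]; linarith
  · intro j hj
    rw [hg, hg, hn, hn]
    rcases j with p | a
    · left; simp only [cc]
      have := g_ge_mu K p.1 p.2 p.1.isLt
      linarith
    · right
      simp only [cc]
      have hc0 : cw K 0 = 4 := by simp [cw]
      rw [hc0]
      rcases fin4 a with rfl | rfl | rfl | rfl
      · exact absurd rfl hj
      · simp only [cw]; simp only [one_ne_zero, if_false, if_true]; nlinarith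
      · have : cw K 2 = 2 := by simp [cw]
        rw [this]; linarith
      · have : cw K 3 = 1 := by simp [cw]
        rw [this]; linarith

/-- gains of `inl` directions -/
theorem gain_inl (K : ℕ) (χ : Pat) (x : Fin 4 → Bool) (p : Fin K × Bool) :
    dot (cc K) (dS K χ x (Sum.inl p)) = scp χ p.1 p.2 * Dd χ K p.1 p.2 *
      (-1 + (if x 1 then (2 + 1 / (2 * Ww K)) * Ww K else 0) + (if x 2 then 2 * Ww K else 0)) := by
  simp only [dS]
  rw [dot_cc, hh_smul]
  simp only [SV, hh_smul, Wv_one, Wv_two, Dd]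
  cases x 1 <;> cases x 2 <;> simp <;> ring

theorem norm_inl (K : ℕ) (χ : Pat) (x : Fin 4 → Bool) (p : Fin K × Bool) :
    dot (dS K χ x (Sum.inl p)) (dS K χ x (Sum.inl p)) = (scp χ p.1 p.2) ^ 2 * (Ll χ K p.1 p.2 +
      ((if x 1 then (Ww K) ^ 2 else 0) + (if x 2 then (Ww K) ^ 2 else 0)) *
        (Dd χ K p.1 p.2) ^ 2) := by
  simp only [dS]
  rw [dot_self_SV, nsq_smul]
  simp only [SV, hh_smul, Wv_one, Wv_two, Dd, Ll]
  cases x 1 <;> cases x 2 <;> simp <;> ring

theorem gain_exit (K : ℕ) (χ : Pat) (x : Fin 4 → Bool) :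
    dot (cc K) (dS K χ x (Sum.inr 0)) =
      (hh χ (fun i b => if χ i b then 4 * cab i b else 0) K) *
      (-1 + (if x 1 then (2 + 1 / (2 * Ww K)) * Ww K else 0) + (if x 2 then 2 * Ww K else 0)) - 4 +
      (if x 1 then (2 + 1 / (2 * Ww K)) * ikw K 1 else 0) + (if x 2 then 2 * ikw K 2 else 0) +
      (if x 3 then ikw K 3 else 0) := by
  simp only [dS, if_true]
  rw [dot_cc]
  simp only [SV, Wv_one, Wv_two]
  cases x 1 <;> cases x 2 <;> simp <;> ring

theorem gain_sw (K : ℕ) (χ : Pat) (x : Fin 4 → Bool) (a : Fin 4) (ha : a ≠ 0) :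
    dot (cc K) (dS K χ x (Sum.inr a)) = cw K a * sca K x a := by
  simp only [dS, ha, if_false]
  rw [dot_cc]
  simp only [SV, hh_zero]
  rcases fin4 a with rfl | rfl | rfl | rfl
  · exact absurd rfl ha
  · simp [cw]
  · simp [cw]
  · simp [cw]

theorem norm_sw (K : ℕ) (χ : Pat) (x : Fin 4 → Bool) (a : Fin 4) (ha : a ≠ 0) :
    dot (dS K χ x (Sum.inr a)) (dS K χ x (Sum.inr a)) = (sca K x a) ^ 2 := by
  simp only [dS, ha, if_false]
  rw [dot_self_SV]
  simp only [SV, hh_zero, nsq_zero]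
  rcases fin4 a with rfl | rfl | rfl | rfl
  · exact absurd rfl ha
  · simp
  · simp
  · simp

theorem good1 (K : ℕ) : GoodStep K (dS K χ0 X1) (Sum.inr 1) := by
  have hmu := muK_le_one K
  have hmu0 := muK_pos K
  have hW := Ww_ge K
  have hWp := Ww_pos K
  have hW2 : 1 / (2 * Ww K) ≤ 1 := by
    rw [div_le_one (by positivity)]; linarith
  have h0 : 0 < 1 / (2 * Ww K) := by positivity
  have x1 : X1 1 = false := by decide
  have x2 : X1 2 = false := by decide
  have x3 : X1 3 = false := by decide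
  have hg1 : dot (cc K) (dS K χ0 X1 (Sum.inr 1)) = 2 + 1 / (2 * Ww K) := by
    rw [gain_sw _ _ _ _ (by decide)]; simp [sca, x1, cw]
  have hn1 : dot (dS K χ0 X1 (Sum.inr 1)) (dS K χ0 X1 (Sum.inr 1)) = 1 := by
    rw [norm_sw _ _ _ _ (by decide)]; simp [sca, x1]
  refine ⟨by rw [hg1]; linarith, ?_⟩
  intro j hj
  rw [hg1, hn1]
  rcases j with p | a
  · left
    rw [gain_inl]
    obtain ⟨h1, h2⟩ := nsq_uni_false K p.1 p.2 p.1.isLt
    have h3 : Dd χ0 K p.1 p.2 = g p.1 p.2 := h2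
    have h4 : scp χ0 p.1 p.2 = 1 := by simp [scp, χ0]
    rw [h3, h4]
    have := g_ge_mu K p.1 p.2 p.1.isLt
    simp [x1, x2]; linarith
  · rcases fin4 a with rfl | rfl | rfl | rfl
    · left
      rw [gain_exit]
      have : (fun (i : ℕ) (b : Bool) => if χ0 i b = true then 4 * cab i b else 0) =
          fun _ _ => (0:ℝ) := by funext i b; simp [χ0]
      rw [this, hh_zero]
      simp [x1, x2, x3]; linarith
    · exact absurd rfl hj
    · right
      rw [gain_sw _ _ _ _ (by decide), norm_sw _ _ _ _ (by decide)]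
      have := mu_W K
      have e1 : (2 + 1 / (2 * Ww K)) ^ 2 = 4 + 2 * (1 / Ww K) + (1 / (2 * Ww K)) ^ 2 := by
        field_simp; ring
      rw [e1]
      simp only [sca, x2, cw]
      have : 0 < (1 / (2 * Ww K)) ^ 2 := by positivity
      simp
      simp at *
      nlinarith
    · right
      rw [gain_sw _ _ _ _ (by decide), norm_sw _ _ _ _ (by decide)]
      have c3 : cw K 3 = 1 := by simp [cw]
      rw [c3]
      simp only [sca, x3]
      have : 0 < (1 / (2 * Ww K)) ^ 2 := by positivity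
      have e2 : 4 ≤ (2 + 1 / (2 * Ww K)) ^ 2 := by nlinarith
      simp only [Bool.false_eq_true, if_false]
      linarith

theorem good2 (K : ℕ) : GoodStep K (dS K χ0 X2) (Sum.inr 2) := by
  have hmu := muK_le_one K
  have hmu0 := muK_pos K
  have hW := Ww_ge K
  have hWp := Ww_pos K
  have hW2 : 1 / (2 * Ww K) ≤ 1 := by
    rw [div_le_one (by positivity)]; linarith
  have h0 : 0 < 1 / (2 * Ww K) := by positivity
  have x1 : X2 1 = true := by decide
  have x2 : X2 2 = false := by decide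
  have x3 : X2 3 = false := by decide
  have c2 : cw K 2 = 2 := by simp [cw]
  have c3 : cw K 3 = 1 := by simp [cw]
  have hg1 : dot (cc K) (dS K χ0 X2 (Sum.inr 2)) = 2 := by
    rw [gain_sw _ _ _ _ (by decide), c2]; simp [sca, x2]
  have hn1 : dot (dS K χ0 X2 (Sum.inr 2)) (dS K χ0 X2 (Sum.inr 2)) = 1 := by
    rw [norm_sw _ _ _ _ (by decide)]; simp [sca, x2]
  have eW : (2 + 1 / (2 * Ww K)) * Ww K = 2 * Ww K + 1 / 2 := by field_simp
  refine ⟨by rw [hg1]; linarith, ?_⟩
  intro j hj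
  rw [hg1, hn1]
  rcases j with p | a
  · right
    rw [gain_inl, norm_inl]
    obtain ⟨h1, h2⟩ := nsq_uni_false K p.1 p.2 p.1.isLt
    have h3 : Dd χ0 K p.1 p.2 = g p.1 p.2 := h2
    have h5 : Ll χ0 K p.1 p.2 = 1 := h1
    have h4 : scp χ0 p.1 p.2 = 1 := by simp [scp, χ0]
    rw [h3, h4, h5]
    simp only [x1, x2, if_true]
    rw [eW]
    set G := g p.1 p.2
    have : 0 ≤ G ^ 2 := sq_nonneg _
    simp
    nlinarith
  · rcases fin4 a with rfl | rfl | rfl | rfl
    · right
      rw [gain_exit]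
      have : (fun (i : ℕ) (b : Bool) => if χ0 i b = true then 4 * cab i b else 0) =
          fun _ _ => (0:ℝ) := by funext i b; simp [χ0]
      rw [this, hh_zero]
      have hns : dot (dS K χ0 X2 (Sum.inr 0)) (dS K χ0 X2 (Sum.inr 0)) =
          1 + (4 * Ww K) ^ 2 := by
        simp only [dS, if_true]
        rw [this, dot_self_SV]
        simp only [SV, hh_zero, nsq_zero]
        simp [x1, x2, x3, ikw_one]
      rw [hns, ikw_one]
      simp only [x1, x2, x3, if_true]
      have : (2 + 1 / (2 * Ww K)) * (4 * Ww K) = 8 * Ww K + 2 := by field_simp; ring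
      rw [this]
      simp
      nlinarith
    · left
      rw [gain_sw _ _ _ _ (by decide)]
      simp only [sca, x1, ikw_one, if_true]
      have e8 : (2 + 1 / (2 * Ww K)) * (4 * Ww K) = 8 * Ww K + 2 := by field_simp; ring
      have c1 : cw K 1 = 2 + 1 / (2 * Ww K) := by simp [cw]
      rw [c1]
      linarith
    · exact absurd rfl hj
    · right
      rw [gain_sw _ _ _ _ (by decide), norm_sw _ _ _ _ (by decide)]
      rw [c3]
      simp only [sca, x3]
      simp
      linarith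

theorem sg_scp (χ : Pat) (i : ℕ) (b : Bool) : scp χ i b = sg χ i b * |scp χ i b| := by
  have := cab_pos i b
  unfold scp sg
  cases χ i b
  · simp
  · simp only [if_true, abs_neg]
    rw [abs_of_pos (by linarith)]; ring

end Pool.H836R3.SE
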