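import Pool.Agent.H836R3.SE.Center4

set_option autoImplicit false
set_option linter.unusedSectionVars false
set_option linter.unusedSimpArgs false

namespace Pool.H836R3.SE

theorem good3 (K : ℕ) (χ χ' : Pat) (h : StepP K 1 χ χ') :
    ∃ p : Fin K × Bool, χ' = flip χ p.1 p.2 ∧ GoodStep K (dS K χ X3) (Sum.inl p) := by
  obtain ⟨i, b, hi, he, hg, ho, hm⟩ := h
  refine ⟨(⟨i, hi⟩, b), he, ?_⟩
  have hmu := muK_le_one K
  have hmu0 := muK_pos K
  have hmul := muK_le_lam K
  have hmum := muK_le_mg K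
  have hW := Ww_ge K
  have hWp := Ww_pos K
  have hW2 : 1 / (2 * Ww K) ≤ 1 := by
    rw [div_le_one (by positivity)]; linarith
  have h0 : 0 < 1 / (2 * Ww K) := by positivity
  have x1 : X3 1 = true := by decide
  have x2 : X3 2 = true := by decide
  have x3 : X3 3 = false := by decide
  have c2 : cw K 2 = 2 := by simp [cw]
  have c3 : cw K 3 = 1 := by simp [cw]
  have eW : (2 + 1 / (2 * Ww K)) * Ww K = 2 * Ww K + 1 / 2 := by field_simp
  have hgain : ∀ p : Fin K × Bool, dot (cc K) (dS K χ X3 (Sum.inl p)) =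
      scp χ p.1 p.2 * Dd χ K p.1 p.2 * (4 * Ww K - 1 / 2) := by
    intro p
    rw [gain_inl]
    simp only [x1, x2, if_true]
    rw [eW]; ring
  have hnorm : ∀ p : Fin K × Bool, dot (dS K χ X3 (Sum.inl p)) (dS K χ X3 (Sum.inl p)) =
      (scp χ p.1 p.2) ^ 2 * (Ll χ K p.1 p.2 + 2 * (Ww K) ^ 2 * (Dd χ K p.1 p.2) ^ 2) := by
    intro p
    rw [norm_inl]
    simp only [x1, x2, if_true]
    ring
  have hsc := (scp_abs χ i b).1
  have hsg := sg_scp χ i b
  have hDabs : lam K ≤ |Dd χ K i b| := hh_uni_abs_ge χ i b K hi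
  have hlam := lam_pos K
  have hL1 : 1 ≤ Ll χ K i b := nsq_uni_ge_one χ i b K hi
  have hpos : 0 < sg χ i b * Dd χ K i b := by linarith
  have hsgD : sg χ i b * Dd χ K i b = |Dd χ K i b| := by
    have h1 : |sg χ i b * Dd χ K i b| = |Dd χ K i b| := by
      rw [abs_mul]
      have : |sg χ i b| = 1 := by unfold sg; split_ifs <;> simp
      rw [this, one_mul]
    rw [← h1, abs_of_pos hpos]
  set D := Dd χ K i b with hD
  set L := Ll χ K i b with hL
  set S := scp χ i b with hS
  have hS2 : 1 ≤ S ^ 2 := by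
    rw [← sq_abs]; nlinarith
  have hW64 : (Ww K) ^ 2 * mg K = 64 := by
    unfold Ww mg lam
    rw [one_div_pow]; field_simp; norm_num
  have hWD : 64 ≤ (Ww K) ^ 2 * D ^ 2 := by
    have : mg K ≤ D ^ 2 := by
      rw [← sq_abs]; unfold mg; nlinarith
    have : (Ww K) ^ 2 * mg K ≤ (Ww K) ^ 2 * D ^ 2 := by gcongr
    linarith
  have hLW : 64 * L ≤ (Ww K) ^ 2 * D ^ 2 := by
    have : (Ww K) ^ 2 * (mg K * L) ≤ (Ww K) ^ 2 * D ^ 2 := by gcongr
    nlinarith
  have h4W : 31 / 2 * (Ww K) ^ 2 ≤ (4 * Ww K - 1 / 2) ^ 2 := by nlinarith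
  refine ⟨?_, ?_⟩
  · rw [hgain]
    show muK K ≤ S * D * (4 * Ww K - 1 / 2)
    have e1 : S * D = |S| * |D| := by
      rw [← hsgD]
      calc S * D = (sg χ i b * |S|) * D := by rw [← hsg]
        _ = _ := by ring
    rw [e1]
    have : lam K ≤ |S| * |D| := by nlinarith [abs_nonneg D]
    nlinarith
  · intro j hj
    rw [hgain, hnorm]
    show _ ∨ _ * (S ^ 2 * (L + 2 * (Ww K) ^ 2 * D ^ 2)) + muK K ≤ (S * D * (4 * Ww K - 1 / 2)) ^ 2 * _
    rcases j with q | a
    · have hne : (q.1 : ℕ) ≠ i ∨ q.2 ≠ b := by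
        by_contra hcon
        push Not at hcon
        apply hj
        have : q = (⟨i, hi⟩, b) := Prod.ext (Fin.ext hcon.1) hcon.2
        rw [this]
      rw [hgain, hnorm]
      have hscq := (scp_abs χ q.1 q.2).1
      have hsgq := sg_scp χ q.1 q.2
      have hDq : lam K ≤ |Dd χ K q.1 q.2| := hh_uni_abs_ge χ q.1 q.2 K q.1.isLt
      rcases ho q.1 q.2 q.1.isLt hne with h1 | h1
      · left
        rw [one_mul] at h1
        have hsgDq : sg χ q.1 q.2 * Dd χ K q.1 q.2 = - |Dd χ K q.1 q.2| := by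
          have h2 : |sg χ q.1 q.2 * Dd χ K q.1 q.2| = |Dd χ K q.1 q.2| := by
            rw [abs_mul]
            have : |sg χ q.1 q.2| = 1 := by unfold sg; split_ifs <;> simp
            rw [this, one_mul]
          rw [← h2, abs_of_neg h1, neg_neg]
        have e1 : scp χ q.1 q.2 * Dd χ K q.1 q.2 =
            - (|scp χ q.1 q.2| * |Dd χ K q.1 q.2|) := by
          calc scp χ q.1 q.2 * Dd χ K q.1 q.2 =
              (sg χ q.1 q.2 * |scp χ q.1 q.2|) * Dd χ K q.1 q.2 := by rw [← hsgq]
            _ = |scp χ q.1 q.2| * (sg χ q.1 q.2 * Dd χ K q.1 q.2) := by ring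
            _ = _ := by rw [hsgDq]; ring
        rw [e1]
        have : lam K ≤ |scp χ q.1 q.2| * |Dd χ K q.1 q.2| := by
          nlinarith [abs_nonneg (Dd χ K q.1 q.2)]
        nlinarith
      · right
        set Sq := scp χ q.1 q.2
        set Dq := Dd χ K q.1 q.2
        set Lq := Ll χ K q.1 q.2
        have hSq2 : 1 ≤ Sq ^ 2 := by rw [← sq_abs]; nlinarith
        have hf : 1 ≤ Sq ^ 2 * S ^ 2 * (4 * Ww K - 1 / 2) ^ 2 := by
          have h2 : 1 ≤ Sq ^ 2 * S ^ 2 := by nlinarith
          have h3 : 1 ≤ (4 * Ww K - 1 / 2) ^ 2 := by nlinarith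
          nlinarith
        have e1 : (S * D * (4 * Ww K - 1 / 2)) ^ 2 * (Sq ^ 2 * (Lq + 2 * Ww K ^ 2 * Dq ^ 2)) -
            (Sq * Dq * (4 * Ww K - 1 / 2)) ^ 2 * (S ^ 2 * (L + 2 * Ww K ^ 2 * D ^ 2)) =
            Sq ^ 2 * S ^ 2 * (4 * Ww K - 1 / 2) ^ 2 * (D ^ 2 * Lq - Dq ^ 2 * L) := by ring
        have h4 : muK K ≤ D ^ 2 * Lq - Dq ^ 2 * L := by linarith
        have h5 : muK K ≤ Sq ^ 2 * S ^ 2 * (4 * Ww K - 1 / 2) ^ 2 * (D ^ 2 * Lq - Dq ^ 2 * L) := by
          nlinarith
        linarith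
    · rcases fin4 a with rfl | rfl | rfl | rfl
      · right
        -- exit
        have hgx := gain_exit K χ X3
        simp only [x1, x2, x3, if_true] at hgx
        set H := hh χ (fun i b => if χ i b then 4 * cab i b else 0) K with hH
        have hHb : |H| ≤ 4 * (9 ^ K - 1) := hhx_bound χ K
        have h9 : (1:ℝ) ≤ 9 ^ K := one_le_pow₀ (by norm_num)
        rw [eW, ikw_one, ikw_two] at hgx
        have e8 : (2 + 1 / (2 * Ww K)) * (4 * Ww K) = 8 * Ww K + 2 := by field_simp; ring
        rw [e8] at hgx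
        set Z := Ww K * 9 ^ K with hZ
        have hZW : Ww K ≤ Z := by nlinarith
        have hgabs : |dot (cc K) (dS K χ X3 (Sum.inr 0))| ≤ 836 * Z := by
          rw [hgx]
          have t1 : |H * (-1 + (2 * Ww K + 1 / 2) + 2 * Ww K)| ≤ 16 * Z := by
            rw [abs_mul, abs_of_pos (by linarith : 0 < -1 + (2 * Ww K + 1 / 2) + 2 * Ww K)]
            have : |H| * (-1 + (2 * Ww K + 1 / 2) + 2 * Ww K) ≤ (4 * 9 ^ K) * (4 * Ww K) :=
              mul_le_mul (by linarith) (by linarith) (by linarith) (by positivity)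
            rw [hZ]; linarith
          have t2 := abs_le.1 t1
          simp only [Bool.false_eq_true, if_false, add_zero]
          rw [abs_le]
          have e3 : 2 * (400 * Ww K * 9 ^ K) = 800 * Z := by rw [hZ]; ring
          rw [e3]
          constructor
          · linarith [t2.1]
          · linarith [t2.2]
        have hnx : (396 * Z) ^ 2 ≤ dot (dS K χ X3 (Sum.inr 0)) (dS K χ X3 (Sum.inr 0)) := by
          simp only [dS, if_true]
          rw [dot_self_SV]
          have e2 : SV K χ X3 (fun i b => if χ i b = true then 4 * cab i b else 0)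
              (fun a' => if a' = 0 then -1 else if X3 a' = true then ikw K a' else 0)
              (Sum.inr 2) = Ww K * H + 400 * Z := by
            simp only [SV, x2, if_true, Wv_two, ikw_two]
            rw [hZ, hH]; simp; ring
          have hn0 : 0 ≤ nsq χ (fun i b => if χ i b = true then 4 * cab i b else 0) K := by
            have : ∀ k, 0 ≤ nsq χ (fun i b => if χ i b = true then 4 * cab i b else 0) k := by
              intro k
              induction k with
              | zero => exact le_rfl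
              | succ k ih => simp only [nsq]; positivity
            exact this K
          rw [e2]
          have h7 : 396 * Z ≤ Ww K * H + 400 * Z := by
            have := (abs_le.1 hHb).1
            have : Ww K * (-(4 * (9 ^ K - 1))) ≤ Ww K * H := by gcongr
            rw [hZ]; nlinarith
          have h8 : (396 * Z) ^ 2 ≤ (Ww K * H + 400 * Z) ^ 2 :=
            pow_le_pow_left₀ (by positivity) h7 2
          have q1 := sq_nonneg ((fun a' => if a' = 0 then (-1:ℝ) else
            if X3 a' = true then ikw K a' else 0) 0)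
          have q2 := sq_nonneg (SV K χ X3 (fun i b => if χ i b = true then 4 * cab i b else 0)
              (fun a' => if a' = 0 then -1 else if X3 a' = true then ikw K a' else 0)
              (Sum.inr 1))
          have q3 := sq_nonneg ((fun a' => if a' = 0 then (-1:ℝ) else
            if X3 a' = true then ikw K a' else 0) 3)
          linarith
        set gx := dot (cc K) (dS K χ X3 (Sum.inr 0))
        set nx := dot (dS K χ X3 (Sum.inr 0)) (dS K χ X3 (Sum.inr 0))
        have hgx2 : gx ^ 2 ≤ (836 * Z) ^ 2 := by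
          rw [← sq_abs]; exact pow_le_pow_left₀ (abs_nonneg _) hgabs 2
        set V := (Ww K) ^ 2 * D ^ 2 with hV
        have a1 : L + 2 * Ww K ^ 2 * D ^ 2 ≤ 129 / 64 * V := by rw [hV] at *; linarith
        have a2 : gx ^ 2 * (S ^ 2 * (L + 2 * Ww K ^ 2 * D ^ 2)) ≤
            (836 * Z) ^ 2 * (S ^ 2 * (129 / 64 * V)) := by
          have : 0 ≤ L + 2 * Ww K ^ 2 * D ^ 2 := by positivity
          gcongr
        have a3 : 31 / 2 * (S ^ 2 * V) ≤ (S * D * (4 * Ww K - 1 / 2)) ^ 2 := by
          have : (S * D * (4 * Ww K - 1 / 2)) ^ 2 = S ^ 2 * D ^ 2 * (4 * Ww K - 1 / 2) ^ 2 := by ring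
          rw [this]
          have : 31 / 2 * (S ^ 2 * V) = S ^ 2 * D ^ 2 * (31 / 2 * Ww K ^ 2) := by rw [hV]; ring
          rw [this]
          gcongr
        have hV0 : 0 ≤ V := by positivity
        have a4 : 31 / 2 * (S ^ 2 * V) * (396 * Z) ^ 2 ≤
            (S * D * (4 * Ww K - 1 / 2)) ^ 2 * nx := by
          apply mul_le_mul a3 hnx (by positivity) (by positivity)
        have a5 : muK K ≤ S ^ 2 * V * Z ^ 2 := by
          have z1 : 1 ≤ Z := by linarith
          have : 1 ≤ S ^ 2 * V := by nlinarith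
          have z2 : 1 ≤ Z ^ 2 := by nlinarith
          have z3 : 1 ≤ S ^ 2 * V * Z ^ 2 := one_le_mul_of_one_le_of_one_le this z2
          linarith
        have e1 : (836 * Z) ^ 2 * (S ^ 2 * (129 / 64 * V)) =
            (836 ^ 2 * 129 / 64) * (S ^ 2 * V * Z ^ 2) := by ring
        have e2 : 31 / 2 * (S ^ 2 * V) * (396 * Z) ^ 2 =
            (31 / 2 * 396 ^ 2) * (S ^ 2 * V * Z ^ 2) := by ring
        rw [e1] at a2
        rw [e2] at a4
        have a6 : 0 ≤ S ^ 2 * V * Z ^ 2 := by positivity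
        linarith
      · left
        rw [gain_sw _ _ _ _ (by decide)]
        simp only [sca, x1, ikw_one, if_true]
        have c1 : cw K 1 = 2 + 1 / (2 * Ww K) := by simp [cw]
        have e8 : (2 + 1 / (2 * Ww K)) * (4 * Ww K) = 8 * Ww K + 2 := by field_simp; ring
        rw [c1]
        linarith
      · left
        rw [gain_sw _ _ _ _ (by decide), c2]
        simp only [sca, x2, ikw_two, if_true]
        have h9 : (1:ℝ) ≤ 9 ^ K := one_le_pow₀ (by norm_num)
        nlinarith
      · right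
        rw [gain_sw _ _ _ _ (by decide), norm_sw _ _ _ _ (by decide), c3]
        simp only [sca, x3]
        set V := (Ww K) ^ 2 * D ^ 2 with hV
        have a3 : 31 / 2 * (S ^ 2 * V) ≤ (S * D * (4 * Ww K - 1 / 2)) ^ 2 := by
          have : (S * D * (4 * Ww K - 1 / 2)) ^ 2 = S ^ 2 * D ^ 2 * (4 * Ww K - 1 / 2) ^ 2 := by ring
          rw [this]
          have : 31 / 2 * (S ^ 2 * V) = S ^ 2 * D ^ 2 * (31 / 2 * Ww K ^ 2) := by rw [hV]; ring
          rw [this]
          gcongr
        have a1 : L + 2 * Ww K ^ 2 * D ^ 2 ≤ 129 / 64 * V := by rw [hV] at *; linarith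
        have a6 : 1 ≤ S ^ 2 * V := by nlinarith
        have a7 : S ^ 2 * (L + 2 * Ww K ^ 2 * D ^ 2) ≤ S ^ 2 * (129 / 64 * V) := by gcongr
        simp
        nlinarith

end Pool.H836R3.SE
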