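import Mathlib

set_option autoImplicit false
set_option linter.unusedSectionVars false

namespace Pool.H836R3.SE

open MeasureTheory ProbabilityTheory

variable {ι κ : Type} [Fintype ι] [Fintype κ] [DecidableEq ι] [DecidableEq κ]

/-- The Euclidean inner product of two vectors indexed by `κ`. -/
def dot (u v : κ → ℝ) : ℝ := ∑ j, u j * v j

/-- `x` lies in the polyhedron `{x : N x ≤ b}`. -/
def Feas (N : ι → κ → ℝ) (b : ι → ℝ) (x : κ → ℝ) : Prop := ∀ i, dot (N i) x ≤ b i

/-- The set of constraints that are tight at `x`. -/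
noncomputable def tightSet (N : ι → κ → ℝ) (b : ι → ℝ) (x : κ → ℝ) : Finset ι :=
  Finset.univ.filter (fun i => dot (N i) x = b i)

/-- `x` is a vertex of `{x : N x ≤ b}`: it is feasible and the tight constraint normals span. -/
def IsVertex (N : ι → κ → ℝ) (b : ι → ℝ) (x : κ → ℝ) : Prop :=
  Feas N b x ∧ ∀ y : κ → ℝ, (∀ i ∈ tightSet N b x, dot (N i) y = 0) → y = 0

/-- Neighbouring vertices: their sets of tight constraints differ in exactly one constraint. -/
def Neighbor (N : ι → κ → ℝ) (b : ι → ℝ) (v u : κ → ℝ) : Prop :=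
  IsVertex N b v ∧ IsVertex N b u ∧ (tightSet N b v \ tightSet N b u).card = 1 ∧
    (tightSet N b u \ tightSet N b v).card = 1

/-- The slope `c^T (u - v) / ‖u - v‖₂`. -/
noncomputable def slope (c v u : κ → ℝ) : ℝ :=
  dot c (u - v) / Real.sqrt (dot (u - v) (u - v))

/-- One step of the steepest-edge `c`-monotone path: from `v` go to a neighbour `u` with
`c^T (u - v) > 0` that maximises the slope. -/
def SEStep (N : ι → κ → ℝ) (b : ι → ℝ) (c v u : κ → ℝ) : Prop :=
  Neighbor N b v u ∧ 0 < dot c (u - v) ∧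
    ∀ w, Neighbor N b v w → 0 < dot c (w - v) → slope c v w ≤ slope c v u

/-- `v` is a vertex maximising `z^T x` over the polyhedron, and it is the only maximiser. -/
def IsStart (N : ι → κ → ℝ) (b : ι → ℝ) (z v : κ → ℝ) : Prop :=
  IsVertex N b v ∧ ∀ y, Feas N b y → y ≠ v → dot z y < dot z v

/-- There is a steepest-edge path with `L` steps from the vertex maximising `z^T x`. -/
def HasPath (N : ι → κ → ℝ) (b : ι → ℝ) (c z : κ → ℝ) (L : ℕ) : Prop :=
  ∃ v : ℕ → κ → ℝ, IsStart N b z (v 0) ∧ ∀ i < L, SEStep N b c (v i) (v (i + 1))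

/-- The number of steps of the steepest-edge path: the supremum of the `L` for which there is
a steepest-edge path with `L` steps from the vertex maximising `z` (`0` if there is no such
vertex). -/
noncomputable def pathLen (A : ι → κ → ℝ) (z c : κ → ℝ) : ℕ∞ :=
  ⨆ (L : ℕ) (_ : HasPath A (fun _ => 1) c z L), (L : ℕ∞)

/-- The shadow of `{x : A x ≤ 1}`: its orthogonal projection onto the span of `z` and `c`. -/
noncomputable def shadow (A : ι → κ → ℝ) (z c : κ → ℝ) : Set (EuclideanSpace ℝ κ) :=
  (fun x : κ → ℝ => (Submodule.span ℝ {WithLp.toLp 2 z, WithLp.toLp 2 c}).starProjection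
    (WithLp.toLp 2 x)) '' {x : κ → ℝ | Feas A (fun _ => 1) x}

/-- The number of vertices of the shadow. -/
noncomputable def shadowCard (A : ι → κ → ℝ) (z c : κ → ℝ) : ℕ∞ :=
  (Set.extremePoints ℝ (shadow A z c)).encard

/-- The law of a `σ`-Gaussian perturbation of the matrix `Abar`: independent entries
`N(Abar i j, σ²)`. -/
noncomputable def lawA {m n : ℕ} (Abar : Fin m → Fin n → ℝ) (σ : ℝ) :
    Measure (Fin m → Fin n → ℝ) :=
  Measure.pi fun i => Measure.pi fun j => gaussianReal (Abar i j) (Real.toNNReal (σ ^ 2))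

/-- The law of a `σ`-Gaussian perturbation of the vector `cbar`. -/
noncomputable def lawc {n : ℕ} (cbar : Fin n → ℝ) (σ : ℝ) : Measure (Fin n → ℝ) :=
  Measure.pi fun j => gaussianReal (cbar j) (Real.toNNReal (σ ^ 2))

/-- The joint law of the independent pair `(A, c)`. -/
noncomputable def law {m n : ℕ} (Abar : Fin m → Fin n → ℝ) (cbar : Fin n → ℝ) (σ : ℝ) :
    Measure ((Fin m → Fin n → ℝ) × (Fin n → ℝ)) :=
  (lawA Abar σ).prod (lawc cbar σ)

/-- Length-indexed chains of a relation. -/
inductive PathN {α : Type} (r : α → α → Prop) : ℕ → α → α → Prop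
  | nil (a : α) : PathN r 0 a a
  | cons {n : ℕ} {a b c : α} : r a b → PathN r n b c → PathN r (n + 1) a c

theorem PathN.append {α : Type} {r : α → α → Prop} {m n : ℕ} {a b c : α}
    (h : PathN r m a b) (h' : PathN r n b c) : PathN r (m + n) a c := by
  induction h with
  | nil a => simpa using h'
  | cons h1 _ ih =>
    have := PathN.cons h1 (ih h')
    convert this using 1
    omega

theorem PathN.single {α : Type} {r : α → α → Prop} {a b : α} (h : r a b) : PathN r 1 a b :=
  PathN.cons h (PathN.nil b)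

theorem PathN.map {α β : Type} {r : α → α → Prop} {r' : β → β → Prop} (f : α → β)
    (hf : ∀ a b, r a b → r' (f a) (f b)) {n : ℕ} {a b : α} (h : PathN r n a b) :
    PathN r' n (f a) (f b) := by
  induction h with
  | nil a => exact PathN.nil _
  | cons h1 _ ih => exact PathN.cons (hf _ _ h1) ih

theorem PathN.seq {α : Type} {r : α → α → Prop} {n : ℕ} {a b : α} (h : PathN r n a b) :
    ∃ v : ℕ → α, v 0 = a ∧ ∀ i < n, r (v i) (v (i + 1)) := by
  induction h with
  | nil a => exact ⟨fun _ => a, rfl, fun i hi => absurd hi (by omega)⟩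
  | @cons n a b c h1 _ ih =>
    obtain ⟨v, hv0, hv⟩ := ih
    refine ⟨fun i => if i = 0 then a else v (i - 1), by simp, ?_⟩
    intro i hi
    rcases Nat.eq_zero_or_pos i with h0 | h0
    · subst h0
      simpa [hv0] using h1
    · have h2 := hv (i - 1) (by omega)
      have e1 : i - 1 + 1 = i := by omega
      have e2 : i ≠ 0 := by omega
      rw [e1] at h2
      simpa [e2] using h2

/-! ### algebra of `dot` -/

theorem dot_add (u v w : κ → ℝ) : dot u (v + w) = dot u v + dot u w := by
  simp [dot, mul_add, Finset.sum_add_distrib]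

theorem dot_sub (u v w : κ → ℝ) : dot u (v - w) = dot u v - dot u w := by
  simp [dot, mul_sub, Finset.sum_sub_distrib]

theorem sub_dot (u v w : κ → ℝ) : dot (u - v) w = dot u w - dot v w := by
  simp [dot, sub_mul, Finset.sum_sub_distrib]

theorem add_dot (u v w : κ → ℝ) : dot (u + v) w = dot u w + dot v w := by
  simp [dot, add_mul, Finset.sum_add_distrib]

theorem dot_smul (r : ℝ) (u v : κ → ℝ) : dot u (r • v) = r * dot u v := by
  simp [dot, Finset.mul_sum]
  exact Finset.sum_congr rfl (fun _ _ => by ring)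

theorem smul_dot (r : ℝ) (u v : κ → ℝ) : dot (r • u) v = r * dot u v := by
  simp [dot, Finset.mul_sum]
  exact Finset.sum_congr rfl (fun _ _ => by ring)

theorem dot_neg (u v : κ → ℝ) : dot u (-v) = - dot u v := by
  simp [dot]

theorem dot_zero (u : κ → ℝ) : dot u 0 = 0 := by simp [dot]

theorem dot_comm (u v : κ → ℝ) : dot u v = dot v u := by
  simp [dot, mul_comm]

theorem dot_self_nonneg (u : κ → ℝ) : 0 ≤ dot u u :=
  Finset.sum_nonneg (fun _ _ => mul_self_nonneg _)

theorem dot_self_pos {u : κ → ℝ} (h : u ≠ 0) : 0 < dot u u := by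
  obtain ⟨j, hj⟩ := Function.ne_iff.1 h
  have : 0 < u j * u j := mul_self_pos.2 hj
  exact lt_of_lt_of_le this (Finset.single_le_sum (f := fun j => u j * u j)
    (fun _ _ => mul_self_nonneg _) (Finset.mem_univ j))

theorem abs_dot_le (u v : κ → ℝ) (a b : ℝ) (hu : ∀ j, |u j| ≤ a) (hv : ∀ j, |v j| ≤ b) :
    |dot u v| ≤ Fintype.card κ * (a * b) := by
  unfold dot
  refine (Finset.abs_sum_le_sum_abs _ _).trans ?_
  have : ∀ j ∈ Finset.univ, |u j * v j| ≤ a * b := fun j _ => by
    rw [abs_mul]
    exact mul_le_mul (hu j) (hv j) (abs_nonneg _) ((abs_nonneg _).trans (hu j))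
  refine (Finset.sum_le_card_nsmul _ _ _ this).trans ?_
  simp

end Pool.H836R3.SE
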