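import Pool.Agent.H836R3.SE.Transfer

set_option autoImplicit false
set_option linter.unusedSectionVars false
set_option linter.unusedSimpArgs false

namespace Pool.H836R3.SE

variable {ι κ ι' κ' : Type} [Fintype ι] [Fintype κ] [DecidableEq ι] [DecidableEq κ]
  [Fintype ι'] [Fintype κ'] [DecidableEq ι'] [DecidableEq κ']

/-- reindexed matrix -/
def reA (f : ι' ≃ ι) (e : κ' ≃ κ) (A : ι' → κ' → ℝ) (q : ι) (l : κ) : ℝ := A (f.symm q) (e.symm l)

theorem dot_re (e : κ' ≃ κ) (u : κ' → ℝ) (v : κ → ℝ) : dot (u ∘ e.symm) v = dot u (v ∘ e) := by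
  unfold dot
  rw [← Equiv.sum_comp e]
  simp

theorem re_surj (e : κ' ≃ κ) (x : κ' → ℝ) : ∃ t : κ → ℝ, x = t ∘ e :=
  ⟨x ∘ e.symm, by funext l; simp⟩

variable {A : ι' → κ' → ℝ} {c z : κ' → ℝ} (f : ι' ≃ ι) (e : κ' ≃ κ)

theorem re_dot (i : ι') (v : κ → ℝ) : dot (A i) (v ∘ e) = dot (reA f e A (f i)) v := by
  rw [← dot_re]
  congr 1
  funext l
  simp [reA]

theorem re_feas (v : κ → ℝ) :
    Feas A (fun _ => 1) (v ∘ e) ↔ Feas (reA f e A) (fun _ => 1) v := by
  unfold Feas
  constructor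
  · intro h q
    have := h (f.symm q)
    rw [re_dot f e] at this
    simpa using this
  · intro h i
    rw [re_dot f e]; exact h _

theorem re_tight (v : κ → ℝ) :
    tightSet (reA f e A) (fun _ => 1) v =
      (tightSet A (fun _ => 1) (v ∘ e)).map f.toEmbedding := by
  ext q
  simp only [tightSet, Finset.mem_filter, Finset.mem_univ, true_and, Finset.mem_map,
    Equiv.coe_toEmbedding]
  constructor
  · intro h
    exact ⟨f.symm q, by rw [re_dot f e]; simpa using h, by simp⟩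
  · rintro ⟨i, hi, rfl⟩
    rw [re_dot f e] at hi; exact hi

theorem re_vertex (v : κ → ℝ) :
    IsVertex A (fun _ => 1) (v ∘ e) ↔ IsVertex (reA f e A) (fun _ => 1) v := by
  unfold IsVertex
  rw [re_feas f e, re_tight f e]
  refine and_congr_right (fun _ => ?_)
  constructor
  · intro h y hy
    have := h (y ∘ e) (fun i hi => by
      rw [re_dot f e]
      exact hy (f i) (by simpa using hi))
    funext l
    have := congrFun this (e.symm l)
    simpa using this
  · intro h y hy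
    obtain ⟨t, rfl⟩ := re_surj e y
    have := h t (fun q hq => by
      rw [Finset.mem_map] at hq
      obtain ⟨i, hi, rfl⟩ := hq
      have := hy i hi
      rw [re_dot f e] at this
      exact this)
    rw [this]; rfl

theorem re_neighbor (u v : κ → ℝ) :
    Neighbor A (fun _ => 1) (u ∘ e) (v ∘ e) ↔
      Neighbor (reA f e A) (fun _ => 1) u v := by
  unfold Neighbor
  rw [re_vertex f e, re_vertex f e, re_tight f e, re_tight f e, ← Finset.map_sdiff,
    ← Finset.map_sdiff, Finset.card_map, Finset.card_map]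

theorem re_slope (u v : κ → ℝ) :
    slope (c ∘ e.symm) u v = slope c (u ∘ e) (v ∘ e) := by
  unfold slope
  have h1 : v ∘ e - u ∘ e = (v - u) ∘ e := rfl
  have h2 : dot ((v - u) ∘ e) ((v - u) ∘ e) = dot (v - u) (v - u) := by
    rw [← dot_re]
    congr 1
    funext l; simp
  rw [h1, h2, dot_re]

theorem re_step (u v : κ → ℝ)
    (h : SEStep (reA f e A) (fun _ => 1) (c ∘ e.symm) u v) :
    SEStep A (fun _ => 1) c (u ∘ e) (v ∘ e) := by
  obtain ⟨h1, h2, h3⟩ := h
  refine ⟨(re_neighbor f e _ _).2 h1, ?_, ?_⟩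
  · have h1 : v ∘ e - u ∘ e = (v - u) ∘ e := rfl
    rw [h1, ← dot_re]; exact h2
  · intro x hx hpos
    obtain ⟨s, rfl⟩ := re_surj e x
    have h4 := h3 s ((re_neighbor f e _ _).1 hx) (by
      have h1 : s ∘ e - u ∘ e = (s - u) ∘ e := rfl
      rw [h1, ← dot_re] at hpos; exact hpos)
    rw [re_slope e, re_slope e] at h4
    exact h4

theorem re_start (v : κ → ℝ)
    (h : IsStart (reA f e A) (fun _ => 1) (z ∘ e.symm) v) :
    IsStart A (fun _ => 1) z (v ∘ e) := by
  obtain ⟨h1, h2⟩ := h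
  refine ⟨(re_vertex f e _).2 h1, ?_⟩
  intro y hy hne
  obtain ⟨s, rfl⟩ := re_surj e y
  have h3 := h2 s ((re_feas f e _).1 hy) (fun e' => hne (by rw [e']))
  rw [dot_re, dot_re] at h3
  exact h3

theorem re_path (L : ℕ) (h : HasPath (reA f e A) (fun _ => 1) (c ∘ e.symm) (z ∘ e.symm) L) :
    HasPath A (fun _ => 1) c z L := by
  obtain ⟨v, h1, h2⟩ := h
  exact ⟨fun i => v i ∘ e, re_start f e _ h1, fun i hi => re_step f e _ _ (h2 i hi)⟩

theorem lt_pathLen (A : ι → κ → ℝ) (z c : κ → ℝ) (x L : ℕ) (hx : x < L)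
    (h : HasPath A (fun _ => 1) c z L) : (x : ℕ∞) < pathLen A z c := by
  unfold pathLen
  have h1 : (L : ℕ∞) ≤ ⨆ (L : ℕ) (_ : HasPath A (fun _ => 1) c z L), (L : ℕ∞) :=
    le_iSup₂ (f := fun (L : ℕ) (_ : HasPath A (fun _ => 1) c z L) => (L : ℕ∞)) L h
  exact lt_of_lt_of_le (by exact_mod_cast hx) h1

end Pool.H836R3.SE
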