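import Pool.Agent.H836R3.SE.Outer
import Pool.Agent.H836R3.SE.Reindex

set_option autoImplicit false
set_option linter.unusedSectionVars false
set_option linter.unusedSimpArgs false

namespace Pool.H836R3.SE

noncomputable def nn (K : ℕ) : ℝ := (Fintype.card (Ix K) : ℝ)
noncomputable def oo (K : ℕ) : Ix K → ℝ := fun _ => 1 / (4 * nn K)
noncomputable def ww (K : ℕ) (q : Ix K × Bool) : ℝ := bb K q - dot (NN K q) (oo K)
noncomputable def Ast (K : ℕ) (q : Ix K × Bool) (l : Ix K) : ℝ :=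
  NN K q l / (ww K q * (10 * nn K ^ 2))
noncomputable def cst (K : ℕ) (l : Ix K) : ℝ := cc K l / (10 * nn K)

theorem nn_eq (K : ℕ) : nn K = 2 * K + 4 := by
  unfold nn; rw [card_Ix]; push_cast; ring

theorem nn_ge (K : ℕ) : 4 ≤ nn K := by
  rw [nn_eq]; have : (0:ℝ) ≤ K := Nat.cast_nonneg K; linarith

theorem ww_bound (K : ℕ) (q : Ix K × Bool) : 1 / (4 * nn K) ≤ ww K q ∧ ww K q ≤ 3 := by
  have hn := nn_ge K
  have h4 : 1 / (4 * nn K) ≤ 1 / 16 := by
    apply one_div_le_one_div_of_le (by norm_num); linarith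
  have h40 : 0 < 1 / (4 * nn K) := by positivity
  obtain ⟨j, b⟩ := q
  cases b with
  | false =>
    unfold ww
    rw [dot_other_false]
    simp only [bb, oo]
    constructor <;> linarith
  | true =>
    unfold ww
    have h1 := abs_dot_le (NN K (j, true)) (oo K) 1 (1 / (4 * nn K)) (NN_bound K _)
      (fun l => by unfold oo; rw [abs_of_pos h40])
    have h2 : (Fintype.card (Ix K) : ℝ) * (1 * (1 / (4 * nn K))) = 1 / 4 := by
      show nn K * (1 * (1 / (4 * nn K))) = 1 / 4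
      field_simp
    rw [h2] at h1
    obtain ⟨h3, h5⟩ := abs_le.1 h1
    have h6 := bb_true_ge K j
    have h7 := (bb_bound K (j, true)).2
    constructor <;> linarith

theorem ww_pos (K : ℕ) (q : Ix K × Bool) : 0 < ww K q := by
  have hn := nn_ge K
  have := (ww_bound K q).1
  have : 0 < 1 / (4 * nn K) := by positivity
  linarith

theorem Ast_bound (K : ℕ) (q : Ix K × Bool) (l : Ix K) : |Ast K q l| ≤ 2 / (5 * nn K) := by
  have hn := nn_ge K
  have hw := ww_pos K q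
  have hw1 := (ww_bound K q).1
  unfold Ast
  rw [abs_div, abs_of_pos (by positivity : 0 < ww K q * (10 * nn K ^ 2)),
    div_le_div_iff₀ (by positivity) (by positivity)]
  have h1 := NN_bound K q l
  have h2 : 1 / (4 * nn K) * (10 * nn K ^ 2) ≤ ww K q * (10 * nn K ^ 2) := by gcongr
  have h3 : 1 / (4 * nn K) * (10 * nn K ^ 2) = 5 / 2 * nn K := by field_simp; norm_num
  rw [h3] at h2
  calc |NN K q l| * (5 * nn K) ≤ 1 * (5 * nn K) := by gcongr
    _ ≤ 2 * (ww K q * (10 * nn K ^ 2)) := by linarith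

theorem cst_bound (K : ℕ) (l : Ix K) : |cst K l| ≤ 2 / (5 * nn K) := by
  have hn := nn_ge K
  unfold cst
  rw [abs_div, abs_of_pos (by positivity : 0 < 10 * nn K),
    div_le_div_iff₀ (by positivity) (by positivity)]
  have := cc_bound K l
  nlinarith

theorem frob (K : ℕ) : ∑ q, ∑ l, Ast K q l ^ 2 + ∑ l, cst K l ^ 2 ≤ 1 := by
  have hn := nn_ge K
  have h1 : ∀ q l, Ast K q l ^ 2 ≤ 4 / (25 * nn K ^ 2) := by
    intro q l
    rw [← sq_abs]
    have := pow_le_pow_left₀ (abs_nonneg _) (Ast_bound K q l) 2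
    refine this.trans (le_of_eq ?_)
    field_simp; norm_num
  have h2 : ∀ l, cst K l ^ 2 ≤ 4 / (25 * nn K ^ 2) := by
    intro l
    rw [← sq_abs]
    have := pow_le_pow_left₀ (abs_nonneg _) (cst_bound K l) 2
    refine this.trans (le_of_eq ?_)
    field_simp; norm_num
  have h3 : ∑ q, ∑ l, Ast K q l ^ 2 ≤ ∑ q : Ix K × Bool, ∑ l : Ix K, 4 / (25 * nn K ^ 2) :=
    Finset.sum_le_sum (fun q _ => Finset.sum_le_sum (fun l _ => h1 q l))
  have h4 : ∑ l, cst K l ^ 2 ≤ ∑ l : Ix K, 4 / (25 * nn K ^ 2) :=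
    Finset.sum_le_sum (fun l _ => h2 l)
  have h5 : ∑ l : Ix K, 4 / (25 * nn K ^ 2) = 4 / (25 * nn K) := by
    rw [Finset.sum_const, Finset.card_univ, nsmul_eq_mul]
    show nn K * (4 / (25 * nn K ^ 2)) = _
    field_simp
  have h6 : ∑ q : Ix K × Bool, ∑ l : Ix K, 4 / (25 * nn K ^ 2) = 8 / 25 := by
    rw [h5, Finset.sum_const, Finset.card_univ, nsmul_eq_mul, Fintype.card_prod, Nat.cast_mul]
    show nn K * (Fintype.card Bool : ℝ) * (4 / (25 * nn K)) = _
    simp only [Fintype.card_bool]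
    push_cast
    field_simp; norm_num
  rw [h6] at h3
  rw [h5] at h4
  have : 4 / (25 * nn K) ≤ 4 / 25 := by
    apply div_le_div_of_nonneg_left <;> linarith
  linarith

/-- closeness of the transformed data -/
theorem close_data (K : ℕ) (A : Ix K × Bool → Ix K → ℝ) (c : Ix K → ℝ) (δ : ℝ) (hδ : 0 ≤ δ)
    (hA : ∀ q l, |A q l - Ast K q l| ≤ δ) (hc : ∀ l, |c l - cst K l| ≤ δ) :
    (∀ q l, |NA A (10 * nn K ^ 2) (ww K) q l - NN K q l| ≤ 30 * nn K ^ 2 * δ) ∧
    (∀ q, |bA A (10 * nn K ^ 2) (ww K) (oo K) q - bb K q| ≤ 30 * nn K ^ 2 * δ) ∧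
    (∀ l, |((10 * nn K) • c) l - cc K l| ≤ 30 * nn K ^ 2 * δ) := by
  have hn := nn_ge K
  have h1 : ∀ q l, |NA A (10 * nn K ^ 2) (ww K) q l - NN K q l| ≤ 30 * nn K ^ 2 * δ := by
    intro q l
    have hw := ww_pos K q
    have e1 : NA A (10 * nn K ^ 2) (ww K) q l - NN K q l =
        (ww K q * (10 * nn K ^ 2)) * (A q l - Ast K q l) := by
      unfold NA Ast; field_simp
    rw [e1, abs_mul, abs_of_pos (by positivity)]
    have h3 := (ww_bound K q).2
    calc ww K q * (10 * nn K ^ 2) * |A q l - Ast K q l| ≤ 3 * (10 * nn K ^ 2) * δ := by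
          gcongr; exact hA q l
      _ = 30 * nn K ^ 2 * δ := by ring
  refine ⟨h1, ?_, ?_⟩
  · intro q
    have e1 : bA A (10 * nn K ^ 2) (ww K) (oo K) q - bb K q =
        dot (fun l => NA A (10 * nn K ^ 2) (ww K) q l - NN K q l) (oo K) := by
      have : (fun l => NA A (10 * nn K ^ 2) (ww K) q l - NN K q l) =
        NA A (10 * nn K ^ 2) (ww K) q - NN K q := rfl
      rw [this, sub_dot]
      unfold bA ww; ring
    rw [e1]
    have h2 := abs_dot_le (fun l => NA A (10 * nn K ^ 2) (ww K) q l - NN K q l) (oo K)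
      (30 * nn K ^ 2 * δ) (1 / (4 * nn K)) (h1 q)
      (fun l => by unfold oo; rw [abs_of_pos (by positivity)])
    refine h2.trans ?_
    have : (Fintype.card (Ix K) : ℝ) * (30 * nn K ^ 2 * δ * (1 / (4 * nn K))) =
        (30 * nn K ^ 2 * δ) / 4 := by
      show nn K * (30 * nn K ^ 2 * δ * (1 / (4 * nn K))) = _
      field_simp
    rw [this]
    have : 0 ≤ 30 * nn K ^ 2 * δ := by positivity
    linarith
  · intro l
    have e1 : ((10 * nn K) • c) l - cc K l = (10 * nn K) * (c l - cst K l) := by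
      simp only [Pi.smul_apply, smul_eq_mul, cst]; field_simp
    rw [e1, abs_mul, abs_of_pos (by positivity)]
    calc 10 * nn K * |c l - cst K l| ≤ 10 * nn K * δ := by gcongr; exact hc l
      _ ≤ 30 * nn K ^ 2 * δ := mul_le_mul_of_nonneg_right (by nlinarith) hδ

section fin
variable {m n : ℕ} (K : ℕ) (f : Fin m ≃ Ix K × Bool) (e : Fin n ≃ Ix K)

theorem det_path (A : Fin m → Fin n → ℝ) (c : Fin n → ℝ) (δ : ℝ) (hδ : 0 ≤ δ)
    (hA : ∀ i j, |A i j - Ast K (f i) (e j)| ≤ δ) (hc : ∀ j, |c j - cst K (e j)| ≤ δ)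
    (hsm : 18000 * (nn K ^ 8 * RK K ^ 5 * δ) ≤ muK K) :
    ((2 ^ K : ℕ) : ℕ∞) < pathLen A (zc K ∘ e) c := by
  have hn := nn_ge K
  obtain ⟨h1, h2, h3⟩ := close_data K (reA f e A) (c ∘ e.symm) δ hδ
    (fun q l => by simpa [reA] using hA (f.symm q) (e.symm l))
    (fun l => by simpa using hc (e.symm l))
  obtain ⟨L, hL, hP⟩ := center_path K (by positivity) h1 h2 h3 (by
    refine le_trans (le_of_eq ?_) hsm
    show 600 * (nn K ^ 6 * RK K ^ 5 * (30 * nn K ^ 2 * δ)) = _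
    ring)
  refine lt_pathLen A _ c (2 ^ K) L hL ?_
  apply re_path f e
  have hz : (zc K ∘ e) ∘ e.symm = zc K := by funext l; simp
  rw [hz]
  exact phi_path (by positivity) (ww_pos K) (10 * nn K) (by positivity) L hP

theorem det_shadow (hK : 0 < K) (A : Fin m → Fin n → ℝ) (c : Fin n → ℝ) (δ : ℝ) (hδ : 0 ≤ δ)
    (hA : ∀ i j, |A i j - Ast K (f i) (e j)| ≤ δ) (hc : ∀ j, |c j - cst K (e j)| ≤ δ)
    (hsm : 3 * 10 ^ 8 * (nn K ^ 8 * δ) ≤ 1) :
    shadowCard A (zc K ∘ e) c ≤ Fintype.card (Ix K) := by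
  have hn := nn_ge K
  obtain ⟨h1, h2, h3⟩ := close_data K (reA f e A) (c ∘ e.symm) δ hδ
    (fun q l => by simpa [reA] using hA (f.symm q) (e.symm l))
    (fun l => by simpa using hc (e.symm l))
  have hΛ : 0 < 10 * nn K ^ 2 := by positivity
  have hΛc : 0 < 10 * nn K := by positivity
  have hw := ww_pos K
  unfold shadowCard
  apply encard_extreme
  let U : Submodule ℝ (EuclideanSpace ℝ (Fin n)) :=
    Submodule.span ℝ {WithLp.toLp 2 (zc K ∘ e), WithLp.toLp 2 c}
  let T0 : (Ix K → ℝ) →ₗ[ℝ] EuclideanSpace ℝ (Fin n) :=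
    (U.starProjection : EuclideanSpace ℝ (Fin n) →ₗ[ℝ] EuclideanSpace ℝ (Fin n)) ∘ₗ
      ((WithLp.linearEquiv 2 ℝ (Fin n → ℝ)).symm : (Fin n → ℝ) →ₗ[ℝ] EuclideanSpace ℝ (Fin n)) ∘ₗ
      (LinearMap.funLeft ℝ ℝ e)
  have hT0 : ∀ x, T0 x = U.starProjection (WithLp.toLp 2 (x ∘ e)) := fun x => rfl
  set Λ : ℝ := 10 * nn K ^ 2 with hΛd
  have hker : ∀ u, dot (zc K) u = 0 → dot ((10 * nn K) • (c ∘ e.symm)) u = 0 →
      (Λ • T0) u = 0 := by
    intro u g1 g2
    rw [smul_dot] at g2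
    have g3 : dot (c ∘ e.symm) u = 0 := (mul_eq_zero.1 g2).resolve_left hΛc.ne'
    rw [dot_re] at g3
    have g1' : dot (zc K ∘ e) (u ∘ e) = 0 := by
      rw [← dot_re]
      have hz : (zc K ∘ e) ∘ e.symm = zc K := by funext l; simp
      rw [hz]; exact g1
    have : T0 u = 0 := by
      rw [hT0, Submodule.starProjection_apply_eq_zero_iff, Submodule.mem_orthogonal]
      intro v hv
      refine Submodule.span_induction
        (p := fun v _ => inner ℝ v (WithLp.toLp 2 (u ∘ e)) = 0) ?_ ?_ ?_ ?_ hv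
      · intro x hx
        rcases hx with rfl | hx
        · rw [EuclideanSpace.inner_toLp_toLp]
          simpa [dotProduct, dot, mul_comm] using g1'
        · rw [Set.mem_singleton_iff] at hx
          subst hx
          rw [EuclideanSpace.inner_toLp_toLp]
          simpa [dotProduct, dot, mul_comm] using g3
      · simp
      · intro x y _ _ hx hy
        rw [inner_add_left, hx, hy, add_zero]
      · intro r x _ hx
        rw [inner_smul_left, hx, mul_zero]
    rw [LinearMap.smul_apply, this, smul_zero]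
  obtain ⟨G, hG⟩ := outer_hull K hK (by positivity) h1 h2 h3 (by
    refine le_trans (le_of_eq ?_) hsm
    show 10 ^ 7 * (nn K ^ 6 * (30 * nn K ^ 2 * δ)) = _
    ring) (Λ • T0) hker (- (Λ • T0 (oo K)))
  refine ⟨G, ?_⟩
  rw [← hG]
  unfold shadow
  ext y
  constructor
  · rintro ⟨x, hx, rfl⟩
    obtain ⟨s, rfl⟩ := re_surj e x
    obtain ⟨t, rfl⟩ := phi_surj (o := oo K) hΛ s
    refine ⟨t, (phi_feas hw t).1 ((re_feas f e _).1 hx), ?_⟩
    show (Λ • T0) t + -(Λ • T0 (oo K)) = T0 (phi Λ (oo K) t)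
    rw [phi, map_smul, map_sub, LinearMap.smul_apply, smul_sub]
    abel
  · rintro ⟨t, ht, rfl⟩
    refine ⟨phi Λ (oo K) t ∘ e, (re_feas f e _).2 ((phi_feas hw t).2 ht), ?_⟩
    show T0 (phi Λ (oo K) t) = (Λ • T0) t + -(Λ • T0 (oo K))
    rw [phi, map_smul, map_sub, LinearMap.smul_apply, smul_sub]
    abel

end fin

end Pool.H836R3.SE
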