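import Pool.Agent.H836R3.SE.Defs

set_option autoImplicit false
set_option linter.unusedSectionVars false
set_option linter.unusedSimpArgs false

namespace Pool.H836R3.SE

open MeasureTheory ProbabilityTheory

instance {m n : ℕ} (Abar : Fin m → Fin n → ℝ) (σ : ℝ) : IsProbabilityMeasure (lawA Abar σ) := by
  unfold lawA; infer_instance

instance {n : ℕ} (cbar : Fin n → ℝ) (σ : ℝ) : IsProbabilityMeasure (lawc cbar σ) := by
  unfold lawc; infer_instance

theorem g_low (μ σ δ : ℝ) (hσ : 0 < σ) (hσ1 : σ ≤ 1) (hδ : 0 ≤ δ) (hδσ : δ ≤ σ) :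
    ENNReal.ofReal (δ / 3) ≤
      gaussianReal μ (Real.toNNReal (σ ^ 2)) (Set.Icc (μ - δ) (μ + δ)) := by
  have hv : Real.toNNReal (σ ^ 2) ≠ 0 := by
    rw [Ne, Real.toNNReal_eq_zero]; push Not; positivity
  have hvc : ((Real.toNNReal (σ ^ 2) : NNReal) : ℝ) = σ ^ 2 := Real.coe_toNNReal _ (by positivity)
  rw [gaussianReal_apply _ hv]
  have h1 : ∫⁻ _ in Set.Icc (μ - δ) (μ + δ), ENNReal.ofReal (1 / 6) ≤
      ∫⁻ x in Set.Icc (μ - δ) (μ + δ), gaussianPDF μ (Real.toNNReal (σ ^ 2)) x := by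
    refine setLIntegral_mono' measurableSet_Icc (fun x hx => ?_)
    refine ENNReal.ofReal_le_ofReal ?_
    rw [gaussianPDFReal, hvc]
    have e1 : 1 / 3 ≤ (√(2 * Real.pi * σ ^ 2))⁻¹ := by
      rw [one_div]
      apply inv_anti₀
      · have := Real.pi_pos; positivity
      · rw [show (3:ℝ) = √9 by rw [show (9:ℝ) = 3 ^ 2 by norm_num]; simp]
        apply Real.sqrt_le_sqrt
        have h4 := Real.pi_le_four
        have h0 := Real.pi_pos
        have : σ ^ 2 ≤ 1 := pow_le_one₀ hσ.le hσ1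
        nlinarith
    have e2 : 1 / 2 ≤ Real.exp (-(x - μ) ^ 2 / (2 * σ ^ 2)) := by
      have h3 : (x - μ) ^ 2 / (2 * σ ^ 2) ≤ 1 / 2 := by
        rw [div_le_div_iff₀ (by positivity) (by norm_num)]
        have h5 : |x - μ| ≤ σ := by
          rw [abs_le]; constructor <;> linarith [hx.1, hx.2]
        have h6 : (x - μ) ^ 2 ≤ σ ^ 2 := by
          rw [← sq_abs]; exact pow_le_pow_left₀ (abs_nonneg _) h5 2
        linarith
      have h7 := Real.add_one_le_exp (-(x - μ) ^ 2 / (2 * σ ^ 2))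
      have h8 : -(x - μ) ^ 2 / (2 * σ ^ 2) = -((x - μ) ^ 2 / (2 * σ ^ 2)) := by ring
      rw [h8] at h7 ⊢
      linarith
    calc (1:ℝ) / 6 = 1 / 3 * (1 / 2) := by norm_num
      _ ≤ _ := by gcongr
  refine le_trans (le_of_eq ?_) h1
  rw [setLIntegral_const, Real.volume_Icc, ← ENNReal.ofReal_mul (by norm_num)]
  congr 1; ring

theorem g_up (μ σ τ : ℝ) (hσ : 0 < σ) (hτ : 0 ≤ τ) :
    gaussianReal μ (Real.toNNReal (σ ^ 2)) {x | ¬ |x - μ| ≤ τ} ≤
      ENNReal.ofReal (2 * Real.exp (-(τ ^ 2 / (2 * σ ^ 2)))) := by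
  set v := Real.toNNReal (σ ^ 2) with hv
  have hvc : (v : ℝ) = σ ^ 2 := Real.coe_toNNReal _ (by positivity)
  have hsub : {x : ℝ | ¬ |x - μ| ≤ τ} ⊆ {x | μ + τ ≤ id x} ∪ {x | id x ≤ μ - τ} := by
    intro x hx
    simp only [Set.mem_ofPred_eq, not_le] at hx
    rcases lt_abs.1 hx with h | h
    · left; show μ + τ ≤ x; linarith
    · right; show x ≤ μ - τ; linarith
  refine (measure_mono hsub).trans ((measure_union_le _ _).trans ?_)
  have hmgf : mgf id (gaussianReal μ v) = fun t ↦ Real.exp (μ * t + v * t ^ 2 / 2) :=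
    mgf_id_gaussianReal
  have h1 : (gaussianReal μ v).real {x | μ + τ ≤ id x} ≤ Real.exp (-(τ ^ 2 / (2 * σ ^ 2))) := by
    refine (measure_ge_le_exp_mul_mgf (X := id) (t := τ / σ ^ 2) (μ + τ) (by positivity)
      (integrable_exp_mul_gaussianReal _)).trans (le_of_eq ?_)
    rw [hmgf]
    simp only
    rw [hvc, ← Real.exp_add]
    congr 1
    field_simp; ring
  have h2 : (gaussianReal μ v).real {x | id x ≤ μ - τ} ≤ Real.exp (-(τ ^ 2 / (2 * σ ^ 2))) := by
    refine (measure_le_le_exp_mul_mgf (X := id) (t := -(τ / σ ^ 2)) (μ - τ)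
      (by have : 0 ≤ τ / σ ^ 2 := by positivity
          linarith)
      (integrable_exp_mul_gaussianReal _)).trans (le_of_eq ?_)
    rw [hmgf]
    simp only
    rw [hvc, ← Real.exp_add]
    congr 1
    field_simp; ring
  have h3 : ∀ S, (gaussianReal μ v).real S ≤ Real.exp (-(τ ^ 2 / (2 * σ ^ 2))) →
      gaussianReal μ v S ≤ ENNReal.ofReal (Real.exp (-(τ ^ 2 / (2 * σ ^ 2)))) := by
    intro S hS
    rw [← ENNReal.ofReal_toReal (measure_ne_top (gaussianReal μ v) S)]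
    exact ENNReal.ofReal_le_ofReal hS
  refine (add_le_add (h3 _ h1) (h3 _ h2)).trans (le_of_eq ?_)
  rw [← ENNReal.ofReal_add (Real.exp_pos _).le (Real.exp_pos _).le]
  congr 1; ring

variable {m n : ℕ} (Abar : Fin m → Fin n → ℝ) (cbar : Fin n → ℝ) (σ : ℝ)

/-- closeness event -/
def box (r : ℝ) : Set ((Fin m → Fin n → ℝ) × (Fin n → ℝ)) :=
  {ω | (∀ i j, |ω.1 i j - Abar i j| ≤ r) ∧ ∀ j, |ω.2 j - cbar j| ≤ r}

theorem prob_low (δ : ℝ) (hσ : 0 < σ) (hσ1 : σ ≤ 1) (hδ : 0 ≤ δ) (hδσ : δ ≤ σ) :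
    ENNReal.ofReal (δ / 3) ^ (m * n + n) ≤ law Abar cbar σ (box Abar cbar δ) := by
  have hbox : box Abar cbar δ =
      (Set.pi Set.univ fun i => Set.pi Set.univ fun j =>
        Set.Icc (Abar i j - δ) (Abar i j + δ)) ×ˢ
      (Set.pi Set.univ fun j => Set.Icc (cbar j - δ) (cbar j + δ)) := by
    ext ω
    simp only [box, Set.mem_ofPred_eq, Set.mem_prod, Set.mem_pi, Set.mem_univ, true_imp_iff,
      Set.mem_Icc, abs_le]
    refine and_congr ?_ ?_
    · refine forall_congr' (fun i => forall_congr' (fun j => ?_))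
      constructor <;> rintro ⟨h1, h2⟩ <;> constructor <;> linarith
    · refine forall_congr' (fun j => ?_)
      constructor <;> rintro ⟨h1, h2⟩ <;> constructor <;> linarith
  rw [hbox, law, Measure.prod_prod, lawA, lawc, Measure.pi_pi, Measure.pi_pi, pow_add]
  simp only [Measure.pi_pi]
  have hA : ENNReal.ofReal (δ / 3) ^ (m * n) ≤ ∏ i, ∏ j,
      gaussianReal (Abar i j) (Real.toNNReal (σ ^ 2)) (Set.Icc (Abar i j - δ) (Abar i j + δ)) := by
    have : ENNReal.ofReal (δ / 3) ^ (m * n) = ∏ _i : Fin m, ∏ _j : Fin n,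
        ENNReal.ofReal (δ / 3) := by
      simp [Finset.prod_const, ← pow_mul, mul_comm]
    rw [this]
    exact Finset.prod_le_prod' (fun i _ => Finset.prod_le_prod' (fun j _ =>
      g_low _ _ _ hσ hσ1 hδ hδσ))
  have hc : ENNReal.ofReal (δ / 3) ^ n ≤ ∏ j,
      gaussianReal (cbar j) (Real.toNNReal (σ ^ 2)) (Set.Icc (cbar j - δ) (cbar j + δ)) := by
    have : ENNReal.ofReal (δ / 3) ^ n = ∏ _j : Fin n, ENNReal.ofReal (δ / 3) := by
      simp [Finset.prod_const]
    rw [this]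
    exact Finset.prod_le_prod' (fun j _ => g_low _ _ _ hσ hσ1 hδ hδσ)
  exact mul_le_mul' hA hc

theorem prob_up (τ : ℝ) (hσ : 0 < σ) (hτ : 0 ≤ τ) :
    law Abar cbar σ (box Abar cbar τ)ᶜ ≤
      ((m * n + n : ℕ) : ENNReal) * ENNReal.ofReal (2 * Real.exp (-(τ ^ 2 / (2 * σ ^ 2)))) := by
  set p := ENNReal.ofReal (2 * Real.exp (-(τ ^ 2 / (2 * σ ^ 2)))) with hp
  have hsub : (box Abar cbar τ)ᶜ ⊆
      (⋃ i : Fin m, ⋃ j : Fin n, (fun ω : (Fin m → Fin n → ℝ) × (Fin n → ℝ) => ω.1 i j) ⁻¹'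
        {x | ¬ |x - Abar i j| ≤ τ}) ∪
      (⋃ j : Fin n, (fun ω : (Fin m → Fin n → ℝ) × (Fin n → ℝ) => ω.2 j) ⁻¹'
        {x | ¬ |x - cbar j| ≤ τ}) := by
    intro ω hω
    by_contra hcon
    apply hω
    simp only [Set.mem_union, Set.mem_iUnion, Set.mem_preimage, Set.mem_ofPred_eq, not_or,
      not_exists, not_not] at hcon
    exact ⟨hcon.1, hcon.2⟩
  have hmeas : ∀ c : ℝ, MeasurableSet {x : ℝ | ¬ |x - c| ≤ τ} := by
    intro c
    have h : IsClosed {x : ℝ | |x - c| ≤ τ} :=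
      isClosed_le (continuous_abs.comp (continuous_id.sub continuous_const)) continuous_const
    exact h.measurableSet.compl
  have hA : ∀ i j, law Abar cbar σ ((fun ω : (Fin m → Fin n → ℝ) × (Fin n → ℝ) => ω.1 i j) ⁻¹'
        {x | ¬ |x - Abar i j| ≤ τ}) ≤ p := by
    intro i j
    have mp : MeasurePreserving (fun ω : (Fin m → Fin n → ℝ) × (Fin n → ℝ) => ω.1 i j)
        (law Abar cbar σ) (gaussianReal (Abar i j) (Real.toNNReal (σ ^ 2))) := by
      have a1 : MeasurePreserving Prod.fst (law Abar cbar σ) (lawA Abar σ) :=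
        measurePreserving_fst
      have a2 : MeasurePreserving (Function.eval i) (lawA Abar σ)
          (Measure.pi fun j => gaussianReal (Abar i j) (Real.toNNReal (σ ^ 2))) :=
        measurePreserving_eval _ i
      have a3 : MeasurePreserving (Function.eval j)
          (Measure.pi fun j => gaussianReal (Abar i j) (Real.toNNReal (σ ^ 2)))
          (gaussianReal (Abar i j) (Real.toNNReal (σ ^ 2))) :=
        measurePreserving_eval _ j
      exact a3.comp (a2.comp a1)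
    rw [mp.measure_preimage (hmeas _).nullMeasurableSet]
    exact g_up _ _ _ hσ hτ
  have hc : ∀ j, law Abar cbar σ ((fun ω : (Fin m → Fin n → ℝ) × (Fin n → ℝ) => ω.2 j) ⁻¹'
        {x | ¬ |x - cbar j| ≤ τ}) ≤ p := by
    intro j
    have mp : MeasurePreserving (fun ω : (Fin m → Fin n → ℝ) × (Fin n → ℝ) => ω.2 j)
        (law Abar cbar σ) (gaussianReal (cbar j) (Real.toNNReal (σ ^ 2))) := by
      have a1 : MeasurePreserving Prod.snd (law Abar cbar σ) (lawc cbar σ) :=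
        measurePreserving_snd
      have a2 : MeasurePreserving (Function.eval j) (lawc cbar σ)
          (gaussianReal (cbar j) (Real.toNNReal (σ ^ 2))) :=
        measurePreserving_eval _ j
      exact a2.comp a1
    rw [mp.measure_preimage (hmeas _).nullMeasurableSet]
    exact g_up _ _ _ hσ hτ
  refine (measure_mono hsub).trans ((measure_union_le _ _).trans ?_)
  have t1 : law Abar cbar σ (⋃ i : Fin m, ⋃ j : Fin n,
      (fun ω : (Fin m → Fin n → ℝ) × (Fin n → ℝ) => ω.1 i j) ⁻¹'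
        {x | ¬ |x - Abar i j| ≤ τ}) ≤ ((m * n : ℕ) : ENNReal) * p := by
    refine (measure_iUnion_fintype_le _ _).trans ?_
    refine (Finset.sum_le_sum (fun i _ => (measure_iUnion_fintype_le _ _).trans
      (Finset.sum_le_sum (fun j _ => hA i j)))).trans ?_
    simp [mul_assoc]
  have t2 : law Abar cbar σ (⋃ j : Fin n,
      (fun ω : (Fin m → Fin n → ℝ) × (Fin n → ℝ) => ω.2 j) ⁻¹'
        {x | ¬ |x - cbar j| ≤ τ}) ≤ (n : ENNReal) * p := by
    refine (measure_iUnion_fintype_le _ _).trans ?_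
    refine (Finset.sum_le_sum (fun j _ => hc j)).trans ?_
    simp
  refine (add_le_add t1 t2).trans (le_of_eq ?_)
  push_cast
  ring

end Pool.H836R3.SE
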