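import Pool.Agent.H836R3.SE.Det
import Pool.Agent.H836R3.SE.Prob

set_option autoImplicit false
set_option linter.unusedSectionVars false
set_option linter.unusedSimpArgs false

namespace Pool.H836R3.SE

open MeasureTheory ProbabilityTheory Filter Asymptotics

theorem eval_aeval (x₀ : MvPolynomial (Fin 3) ℝ) (F : Fin 3 → Polynomial ℝ) (t : ℝ) :
    (MvPolynomial.aeval F x₀).eval t = MvPolynomial.eval (fun i => (F i).eval t) x₀ := by
  induction x₀ using MvPolynomial.induction_on with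
  | C a => simp
  | add p q hp hq => simp [hp, hq]
  | mul_X p i hp => simp [hp]

theorem poly_lt (q : Polynomial ℝ) : ∀ᶠ K : ℕ in atTop, q.eval (K : ℝ) < 2 ^ K := by
  have h : (fun K : ℕ => q.eval (K : ℝ)) =o[atTop] fun K : ℕ => (2:ℝ) ^ K := by
    have e : (fun K : ℕ => q.eval (K : ℝ)) =
        fun K : ℕ => ∑ i ∈ Finset.range (q.natDegree + 1), q.coeff i * (K : ℝ) ^ i := by
      funext K; rw [Polynomial.eval_eq_sum_range]
    rw [e]
    have h0 : ∀ i ∈ Finset.range (q.natDegree + 1),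
        (fun K : ℕ => q.coeff i * (K : ℝ) ^ i) =o[atTop] fun K : ℕ => (2:ℝ) ^ K := fun i _ =>
      (isLittleO_pow_const_const_pow_of_one_lt (R := ℝ) i
        (by norm_num : (1:ℝ) < 2)).const_mul_left _
    exact IsLittleO.fun_sum h0
  have h2 := h.bound (show (0:ℝ) < 1 / 2 by norm_num)
  filter_upwards [h2] with K hK
  rw [Real.norm_eq_abs, Real.norm_eq_abs, abs_of_pos (by positivity : (0:ℝ) < 2 ^ K)] at hK
  have := (abs_le.1 hK).2
  have : (0:ℝ) < 2 ^ K := by positivity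
  linarith

theorem nat_lt (K : ℕ) (hK : 4 ≤ K) : 2 * K + 4 ≤ 2 ^ K := by
  induction K, hK using Nat.le_induction with
  | base => norm_num
  | succ k hk ih => rw [pow_succ]; omega

/-- size of `δ` -/
theorem delta_small (K : ℕ) :
    18000 * (nn K ^ 8 * RK K ^ 5 * (1 / 2) ^ (64 * (2 * K + 4))) ≤ muK K := by
  have hn : nn K = ((2 * K + 4 : ℕ) : ℝ) := by rw [nn_eq]; push_cast; ring
  have h1 : nn K ≤ 2 ^ (2 * K + 4) := by
    rw [hn]; exact_mod_cast (Nat.lt_two_pow_self (n := 2 * K + 4)).le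
  have h2 : nn K ^ 8 ≤ 2 ^ (8 * (2 * K + 4)) := by
    have h0 : 0 ≤ nn K := by have := nn_ge K; linarith
    calc nn K ^ 8 ≤ (2 ^ (2 * K + 4)) ^ 8 := pow_le_pow_left₀ h0 h1 8
      _ = _ := by rw [← pow_mul]; congr 1; ring
  have h3 : RK K ^ 5 ≤ 2 ^ (60 + 45 * K) := by
    unfold RK
    have : (400:ℝ) ^ K ≤ (2 ^ 9) ^ K := pow_le_pow_left₀ (by norm_num) (by norm_num) K
    calc (4000 * (400:ℝ) ^ K) ^ 5 ≤ (2 ^ 12 * (2 ^ 9) ^ K) ^ 5 := by
          gcongr; norm_num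
      _ = _ := by rw [← pow_mul, ← pow_add, ← pow_mul]; congr 1; ring
  have h4 : (1:ℝ) / 2 ^ (14 + 10 * K) ≤ muK K := by
    unfold muK
    have : (648:ℝ) ^ K ≤ (2 ^ 10) ^ K := pow_le_pow_left₀ (by norm_num) (by norm_num) K
    apply one_div_le_one_div_of_le (by positivity)
    calc (16000:ℝ) * 648 ^ K ≤ 2 ^ 14 * (2 ^ 10) ^ K := by gcongr; norm_num
      _ = _ := by rw [← pow_mul, ← pow_add]
  refine le_trans ?_ h4
  have hR : 0 ≤ RK K := by have := RK_ge K; linarith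
  have hn0 : 0 ≤ nn K := by have := nn_ge K; linarith
  calc 18000 * (nn K ^ 8 * RK K ^ 5 * (1 / 2) ^ (64 * (2 * K + 4)))
      ≤ 2 ^ 15 * (2 ^ (8 * (2 * K + 4)) * 2 ^ (60 + 45 * K) * (1 / 2) ^ (64 * (2 * K + 4))) := by
        gcongr; norm_num
    _ = 2 ^ (15 + 8 * (2 * K + 4) + (60 + 45 * K)) / 2 ^ (64 * (2 * K + 4)) := by
        rw [one_div_pow, pow_add, pow_add]; ring
    _ ≤ 1 / 2 ^ (14 + 10 * K) := by
        rw [div_le_div_iff₀ (by positivity) (by positivity), ← pow_add, one_mul]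
        exact pow_le_pow_right₀ (by norm_num) (by omega)

/-- main probability comparison -/
theorem compare (α : ℝ) (K n : ℕ) (hn : n = 2 * K + 4)
    (hbig : 18 * 10 ^ 16 * (206 + |α|) ≤ (n : ℝ)) :
    α * ((2 * n * n + n : ℕ) : ℝ) *
        (2 * Real.exp (-((1 / (3 * 10 ^ 8 * (n:ℝ) ^ 8)) ^ 2 / (2 * (1 / (n:ℝ) ^ 10) ^ 2)))) <
      (((1 / 2 : ℝ) ^ (64 * n)) / 3) ^ (2 * n * n + n) := by
  have hn4 : (4:ℝ) ≤ n := by rw [hn]; push_cast; have : (0:ℝ) ≤ K := Nat.cast_nonneg K; linarith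
  have hnpos : (0:ℝ) < n := by linarith
  have hexp : (1 / (3 * 10 ^ 8 * (n:ℝ) ^ 8)) ^ 2 / (2 * (1 / (n:ℝ) ^ 10) ^ 2) =
      (n:ℝ) ^ 4 / (18 * 10 ^ 16) := by
    field_simp; ring
  rw [hexp]
  -- lower bound of the right-hand side
  have hr : Real.exp (-(198 * (n:ℝ) ^ 3)) ≤ (((1 / 2 : ℝ) ^ (64 * n)) / 3) ^ (2 * n * n + n) := by
    have h1 : (1 / 2 : ℝ) ^ (64 * n + 2) ≤ ((1 / 2 : ℝ) ^ (64 * n)) / 3 := by
      rw [pow_add]
      have : (0:ℝ) < (1 / 2) ^ (64 * n) := by positivity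
      linarith
    have h2 : Real.exp (-1) ≤ 1 / 2 := by
      rw [Real.exp_neg, ← one_div]
      apply one_div_le_one_div_of_le (by norm_num)
      have := Real.add_one_le_exp (1:ℝ)
      linarith
    calc Real.exp (-(198 * (n:ℝ) ^ 3)) ≤ (Real.exp (-1)) ^ ((64 * n + 2) * (2 * n * n + n)) := by
          rw [← Real.exp_nat_mul]
          apply Real.exp_le_exp.2
          push_cast
          have a1 : (64 * (n:ℝ) + 2) ≤ 66 * n := by linarith
          have a2 : 2 * (n:ℝ) * n + n ≤ 3 * (n * n) := by nlinarith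
          have a3 : (64 * (n:ℝ) + 2) * (2 * n * n + n) ≤ 66 * n * (3 * (n * n)) := by
            apply mul_le_mul a1 a2 (by positivity) (by positivity)
          nlinarith
      _ ≤ (1 / 2) ^ ((64 * n + 2) * (2 * n * n + n)) :=
          pow_le_pow_left₀ (Real.exp_pos _).le h2 _
      _ = ((1 / 2 : ℝ) ^ (64 * n + 2)) ^ (2 * n * n + n) := by rw [← pow_mul]
      _ ≤ _ := pow_le_pow_left₀ (by positivity) h1 _
  refine lt_of_lt_of_le ?_ hr
  -- upper bound of the left-hand side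
  have hα : α ≤ Real.exp |α| := by
    have := Real.add_one_le_exp |α|
    have := le_abs_self α
    linarith
  have hN : ((2 * n * n + n : ℕ) : ℝ) * 2 ≤ Real.exp (6 * (n:ℝ) ^ 2) := by
    have := Real.add_one_le_exp (6 * (n:ℝ) ^ 2)
    push_cast
    nlinarith
  have hl : α * ((2 * n * n + n : ℕ) : ℝ) * (2 * Real.exp (-((n:ℝ) ^ 4 / (18 * 10 ^ 16)))) ≤
      Real.exp (|α| + 6 * (n:ℝ) ^ 2 + -((n:ℝ) ^ 4 / (18 * 10 ^ 16))) := by
    rw [Real.exp_add, Real.exp_add]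
    have e : α * ((2 * n * n + n : ℕ) : ℝ) * (2 * Real.exp (-((n:ℝ) ^ 4 / (18 * 10 ^ 16)))) =
      α * (((2 * n * n + n : ℕ) : ℝ) * 2) * Real.exp (-((n:ℝ) ^ 4 / (18 * 10 ^ 16))) := by ring
    rw [e]
    apply mul_le_mul_of_nonneg_right _ (Real.exp_pos _).le
    have h0 : 0 ≤ ((2 * n * n + n : ℕ) : ℝ) * 2 := by positivity
    calc α * (((2 * n * n + n : ℕ) : ℝ) * 2) ≤ Real.exp |α| * (((2 * n * n + n : ℕ) : ℝ) * 2) :=
          mul_le_mul_of_nonneg_right hα h0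
      _ ≤ Real.exp |α| * Real.exp (6 * (n:ℝ) ^ 2) :=
          mul_le_mul_of_nonneg_left hN (Real.exp_pos _).le
  refine lt_of_le_of_lt hl (Real.exp_lt_exp.2 ?_)
  have h5 : (206 + |α|) * (n:ℝ) ^ 3 ≤ (n:ℝ) ^ 4 / (18 * 10 ^ 16) := by
    rw [le_div_iff₀ (by norm_num)]
    have : (18 * 10 ^ 16 * (206 + |α|)) * (n:ℝ) ^ 3 ≤ n * (n:ℝ) ^ 3 := by gcongr
    calc (206 + |α|) * (n:ℝ) ^ 3 * (18 * 10 ^ 16) = (18 * 10 ^ 16 * (206 + |α|)) * (n:ℝ) ^ 3 := by
          ring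
      _ ≤ n * (n:ℝ) ^ 3 := this
      _ = (n:ℝ) ^ 4 := by ring
  have h6 : (1:ℝ) ≤ (n:ℝ) ^ 3 := one_le_pow₀ (by linarith)
  have h7 : (n:ℝ) ^ 2 ≤ (n:ℝ) ^ 3 := pow_le_pow_right₀ (by linarith) (by norm_num)
  have h8 : |α| ≤ |α| * (n:ℝ) ^ 3 := le_mul_of_one_le_right (abs_nonneg _) h6
  nlinarith

theorem exists_K (α : ℝ) (x₀ : MvPolynomial (Fin 3) ℝ) : ∃ K : ℕ, 4 ≤ K ∧
    18 * 10 ^ 16 * (206 + |α|) ≤ ((2 * K + 4 : ℕ) : ℝ) ∧
    MvPolynomial.eval ![((2 * (2 * K + 4) : ℕ) : ℝ), ((2 * K + 4 : ℕ) : ℝ),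
      1 / (1 / ((2 * K + 4 : ℕ) : ℝ) ^ 10)] x₀ < ((2 ^ K : ℕ) : ℝ) := by
  let F : Fin 3 → Polynomial ℝ := ![2 * (2 * Polynomial.X + 4), 2 * Polynomial.X + 4,
    (2 * Polynomial.X + 4) ^ 10]
  have h1 := poly_lt (MvPolynomial.aeval F x₀)
  have h2 : ∀ᶠ K : ℕ in atTop, 4 ≤ K := eventually_ge_atTop 4
  have h3 : ∀ᶠ K : ℕ in atTop, 18 * 10 ^ 16 * (206 + |α|) ≤ (K : ℝ) :=
    tendsto_natCast_atTop_atTop.eventually_ge_atTop _
  obtain ⟨K, k1, k2, k3⟩ := (h1.and (h2.and h3)).exists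
  refine ⟨K, k2, ?_, ?_⟩
  · push_cast
    have : (0:ℝ) ≤ K := Nat.cast_nonneg K
    linarith
  · rw [eval_aeval] at k1
    push_cast
    convert k1 using 3
    funext i
    fin_cases i <;> simp [F]

theorem main_result (α : ℝ) (x₀ : MvPolynomial (Fin 3) ℝ) :
    ∃ (m n : ℕ) (σ : ℝ) (Abar : Fin m → Fin n → ℝ) (cbar z : Fin n → ℝ) (x : ℕ),
      0 < σ ∧ ∑ i, ∑ j, Abar i j ^ 2 + ∑ j, cbar j ^ 2 ≤ 1 ∧
      MvPolynomial.eval ![(m : ℝ), (n : ℝ), 1 / σ] x₀ < x ∧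
      ENNReal.ofReal α * law Abar cbar σ {ω | (x : ℕ∞) < shadowCard ω.1 z ω.2} <
        law Abar cbar σ {ω | (x : ℕ∞) < pathLen ω.1 z ω.2} := by
  obtain ⟨K, hK4, hbig, hx⟩ := exists_K α x₀
  set n : ℕ := 2 * K + 4 with hn
  have hcard : Fintype.card (Ix K) = n := card_Ix K
  have hcard2 : Fintype.card (Ix K × Bool) = 2 * n := by
    rw [Fintype.card_prod, hcard, Fintype.card_bool]; ring
  let e : Fin n ≃ Ix K := (Fintype.equivFinOfCardEq hcard).symm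
  let f : Fin (2 * n) ≃ Ix K × Bool := (Fintype.equivFinOfCardEq hcard2).symm
  have hnn : nn K = (n : ℝ) := by unfold nn; rw [hcard]
  have hn4 : (4:ℝ) ≤ n := by rw [hn]; push_cast; have : (0:ℝ) ≤ K := Nat.cast_nonneg K; linarith
  have hnpos : (0:ℝ) < n := by linarith
  set σ : ℝ := 1 / (n : ℝ) ^ 10 with hσ
  set Abar : Fin (2 * n) → Fin n → ℝ := fun i j => Ast K (f i) (e j) with hAbar
  set cbar : Fin n → ℝ := fun j => cst K (e j) with hcbar
  have hσ0 : 0 < σ := by positivity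
  have hσ1 : σ ≤ 1 := by
    rw [hσ, div_le_one (by positivity)]
    exact one_le_pow₀ (by linarith)
  set δ : ℝ := (1 / 2) ^ (64 * n) with hδ
  set τ : ℝ := 1 / (3 * 10 ^ 8 * (n:ℝ) ^ 8) with hτ
  have hδσ : δ ≤ σ := by
    rw [hδ, hσ, one_div_pow]
    apply one_div_le_one_div_of_le (by positivity)
    have h1 : (n:ℝ) ≤ 2 ^ n := by exact_mod_cast (Nat.lt_two_pow_self (n := n)).le
    calc (n:ℝ) ^ 10 ≤ (2 ^ n) ^ 10 := pow_le_pow_left₀ hnpos.le h1 10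
      _ = 2 ^ (n * 10) := by rw [← pow_mul]
      _ ≤ 2 ^ (64 * n) := pow_le_pow_right₀ (by norm_num) (by omega)
  refine ⟨2 * n, n, σ, Abar, cbar, zc K ∘ e, 2 ^ K, hσ0, ?_, hx, ?_⟩
  · have h1 : ∑ i, ∑ j, Abar i j ^ 2 = ∑ q, ∑ l, Ast K q l ^ 2 := by
      rw [← Equiv.sum_comp f]
      refine Finset.sum_congr rfl (fun i _ => ?_)
      rw [← Equiv.sum_comp e]
    have h2 : ∑ j, cbar j ^ 2 = ∑ l, cst K l ^ 2 := by
      rw [← Equiv.sum_comp e]
    rw [h1, h2]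
    exact frob K
  · have hlow := prob_low Abar cbar σ δ hσ0 hσ1 (by positivity) hδσ
    have hup := prob_up Abar cbar σ τ hσ0 (by positivity)
    have hpath : box Abar cbar δ ⊆ {ω | ((2 ^ K : ℕ) : ℕ∞) < pathLen ω.1 (zc K ∘ e) ω.2} := by
      intro ω hω
      exact det_path K f e ω.1 ω.2 δ (by positivity) hω.1 hω.2 (delta_small K)
    have hshadow : {ω : (Fin (2 * n) → Fin n → ℝ) × (Fin n → ℝ) |
        ((2 ^ K : ℕ) : ℕ∞) < shadowCard ω.1 (zc K ∘ e) ω.2} ⊆ (box Abar cbar τ)ᶜ := by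
      intro ω hω hbox
      have h1 := det_shadow K f e (by omega) ω.1 ω.2 τ (by positivity) hbox.1 hbox.2 (by
        rw [hnn, hτ]; field_simp; exact le_rfl)
      have h2 : ((2 ^ K : ℕ) : ℕ∞) < (Fintype.card (Ix K) : ℕ∞) := lt_of_lt_of_le hω h1
      rw [hcard] at h2
      have h3 : 2 ^ K < n := by exact_mod_cast h2
      have h4 := nat_lt K hK4
      omega
    have hcmp := compare α K n hn hbig
    calc ENNReal.ofReal α * law Abar cbar σ {ω | ((2 ^ K : ℕ) : ℕ∞) < shadowCard ω.1 (zc K ∘ e) ω.2}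
        ≤ ENNReal.ofReal α * (((2 * n * n + n : ℕ) : ENNReal) *
            ENNReal.ofReal (2 * Real.exp (-(τ ^ 2 / (2 * σ ^ 2))))) := by
          gcongr
          exact (measure_mono hshadow).trans hup
      _ = ENNReal.ofReal (α * ((2 * n * n + n : ℕ) : ℝ) *
            (2 * Real.exp (-(τ ^ 2 / (2 * σ ^ 2))))) := by
          rw [← ENNReal.ofReal_natCast, ← ENNReal.ofReal_mul (Nat.cast_nonneg _),
            ← ENNReal.ofReal_mul' (by positivity)]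
          congr 1; ring
      _ < ENNReal.ofReal ((δ / 3) ^ (2 * n * n + n)) := by
          rw [ENNReal.ofReal_lt_ofReal_iff (by positivity)]
          exact hcmp
      _ = ENNReal.ofReal (δ / 3) ^ (2 * n * n + n) := by
          rw [ENNReal.ofReal_pow (by positivity)]
      _ ≤ law Abar cbar σ (box Abar cbar δ) := hlow
      _ ≤ _ := measure_mono hpath

end Pool.H836R3.SE
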