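import Pool.Agent.H836R3.SE.Defs

set_option autoImplicit false
set_option linter.unusedSectionVars false
set_option linter.unusedSimpArgs false

namespace Pool.H836R3.SE

/-- pattern of a vertex: `χ i b = true` iff coordinate `(i,b)` is at its upper facet -/
abbrev Pat := ℕ → Bool → Bool

/-- the power `(1/8)^i` -/
noncomputable def lam (i : ℕ) : ℝ := (1 / 8) ^ i

theorem lam_pos (i : ℕ) : 0 < lam i := by unfold lam; positivity
theorem lam_succ (i : ℕ) : lam (i + 1) = lam i / 8 := by unfold lam; rw [pow_succ]; ring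
theorem lam_le_one (i : ℕ) : lam i ≤ 1 := pow_le_one₀ (by norm_num) (by norm_num)
theorem lam_anti {i j : ℕ} (h : i ≤ j) : lam j ≤ lam i :=
  pow_le_pow_of_le_one (by norm_num) (by norm_num) h

/-- objective coefficients of the gadget coordinates -/
noncomputable def g (i : ℕ) (b : Bool) : ℝ := if b then lam i / 2 else lam i / 4

/-- absolute value of the coupling -/
noncomputable def cab (i : ℕ) (b : Bool) : ℝ := if b then 6 / lam i else 20 / lam i

/-- coupling -/
noncomputable def C (i : ℕ) (b : Bool) : ℝ := if b then -(6 / lam i) else 20 / lam i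

noncomputable def hh (χ : Pat) (w : ℕ → Bool → ℝ) : ℕ → ℝ
  | 0 => 0
  | i + 1 => hh χ w i
      + g i false * ((if χ i false then C i false * hh χ w i else 0) + w i false)
      + g i true * ((if χ i true then C i true * hh χ w i else 0) + w i true)

noncomputable def Y (χ : Pat) (w : ℕ → Bool → ℝ) (i : ℕ) (b : Bool) : ℝ :=
  (if χ i b then C i b * hh χ w i else 0) + w i b

theorem hh_succ (χ : Pat) (w : ℕ → Bool → ℝ) (i : ℕ) :
    hh χ w (i + 1) = hh χ w i + g i false * Y χ w i false + g i true * Y χ w i true := rfl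

/-- multiplier -/
noncomputable def al (χ : Pat) (i : ℕ) : ℝ :=
  1 + (if χ i false then 5 else 0) - (if χ i true then 3 else 0)

/-- squared coupling -/
noncomputable def om (χ : Pat) (i : ℕ) : ℝ :=
  (if χ i false then (20 / lam i) ^ 2 else 0) + (if χ i true then (6 / lam i) ^ 2 else 0)

theorem hh_succ' (χ : Pat) (w : ℕ → Bool → ℝ) (i : ℕ) :
    hh χ w (i + 1) = al χ i * hh χ w i + g i false * w i false + g i true * w i true := by
  have hl := (lam_pos i).ne'
  rw [hh_succ]
  unfold Y al g C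
  cases χ i false <;> cases χ i true <;> simp <;> (try field_simp) <;> ring

/-- unit input at coordinate `(i0,b0)` -/
noncomputable def uni (i0 : ℕ) (b0 : Bool) : ℕ → Bool → ℝ :=
  fun i b => if i = i0 ∧ b = b0 then 1 else 0

theorem hh_uni_le (χ : Pat) (i0 : ℕ) (b0 : Bool) (k : ℕ) (hk : k ≤ i0) :
    hh χ (uni i0 b0) k = 0 := by
  induction k with
  | zero => rfl
  | succ k ih =>
    rw [hh_succ', ih (by omega)]
    have : k ≠ i0 := by omega
    simp [uni, this]

theorem hh_uni_self (χ : Pat) (i0 : ℕ) (b0 : Bool) :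
    hh χ (uni i0 b0) (i0 + 1) = g i0 b0 := by
  rw [hh_succ', hh_uni_le χ i0 b0 i0 le_rfl]
  cases b0 <;> simp [uni]

theorem hh_uni_succ (χ : Pat) (i0 : ℕ) (b0 : Bool) (k : ℕ) (hk : i0 < k) :
    hh χ (uni i0 b0) (k + 1) = al χ k * hh χ (uni i0 b0) k := by
  rw [hh_succ']
  have : k ≠ i0 := by omega
  simp [uni, this]

/-- squared length of the first `k` stages -/
noncomputable def nsq (χ : Pat) (w : ℕ → Bool → ℝ) : ℕ → ℝ
  | 0 => 0
  | i + 1 => nsq χ w i + (Y χ w i false) ^ 2 + (Y χ w i true) ^ 2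

theorem nsq_uni_le (χ : Pat) (i0 : ℕ) (b0 : Bool) (k : ℕ) (hk : k ≤ i0) :
    nsq χ (uni i0 b0) k = 0 := by
  induction k with
  | zero => rfl
  | succ k ih =>
    have h1 : k ≠ i0 := by omega
    simp only [nsq, ih (by omega), Y, hh_uni_le χ i0 b0 k (by omega)]
    simp [uni, h1]

theorem nsq_uni_self (χ : Pat) (i0 : ℕ) (b0 : Bool) :
    nsq χ (uni i0 b0) (i0 + 1) = 1 := by
  simp only [nsq, nsq_uni_le χ i0 b0 i0 le_rfl, Y, hh_uni_le χ i0 b0 i0 le_rfl]
  cases b0 <;> simp [uni]

theorem nsq_uni_succ (χ : Pat) (i0 : ℕ) (b0 : Bool) (k : ℕ) (hk : i0 < k) :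
    nsq χ (uni i0 b0) (k + 1) =
      nsq χ (uni i0 b0) k + om χ k * (hh χ (uni i0 b0) k) ^ 2 := by
  have h1 : k ≠ i0 := by omega
  simp only [nsq, Y, om, C]
  have u1 : uni i0 b0 k false = 0 := by simp [uni, h1]
  have u2 : uni i0 b0 k true = 0 := by simp [uni, h1]
  rw [u1, u2]
  cases χ k false <;> cases χ k true <;> simp <;> ring

theorem nsq_uni_ge_one (χ : Pat) (i0 : ℕ) (b0 : Bool) (k : ℕ) (hk : i0 < k) :
    1 ≤ nsq χ (uni i0 b0) k := by
  induction k with
  | zero => omega
  | succ k ih =>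
    rcases Nat.lt_succ_iff_lt_or_eq.1 hk with h | h
    · rw [nsq_uni_succ χ i0 b0 k h]
      have : 0 ≤ om χ k := by unfold om; positivity
      have := ih h
      nlinarith [mul_nonneg ‹0 ≤ om χ k› (sq_nonneg (hh χ (uni i0 b0) k))]
    · subst h; rw [nsq_uni_self]

theorem al_cases (χ : Pat) (i : ℕ) : 1 ≤ |al χ i| ∧ |al χ i| ≤ 6 ∧ 1 ≤ (al χ i) ^ 2 := by
  unfold al
  cases χ i false <;> cases χ i true <;> norm_num [abs_of_pos, abs_of_neg]

theorem g_pos (i : ℕ) (b : Bool) : 0 < g i b := by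
  unfold g; have := lam_pos i; cases b <;> simp <;> linarith

theorem g_ge (i : ℕ) (b : Bool) : lam (i + 1) ≤ g i b := by
  unfold g; have := lam_pos i; rw [lam_succ]; cases b <;> simp <;> linarith

theorem g_le (i : ℕ) (b : Bool) : g i b ≤ 1 / 2 := by
  unfold g; have := lam_pos i; have := lam_le_one i; cases b <;> simp <;> linarith

theorem hh_uni_abs_ge (χ : Pat) (i0 : ℕ) (b0 : Bool) (k : ℕ) (hk : i0 < k) :
    lam k ≤ |hh χ (uni i0 b0) k| := by
  induction k with
  | zero => omega
  | succ k ih =>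
    rcases Nat.lt_succ_iff_lt_or_eq.1 hk with h | h
    · rw [hh_uni_succ χ i0 b0 k h, abs_mul]
      have h1 := (al_cases χ k).1
      have h2 := ih h
      have h3 := lam_pos k
      rw [lam_succ]
      nlinarith [abs_nonneg (hh χ (uni i0 b0) k)]
    · subst h; rw [hh_uni_self, abs_of_pos (g_pos _ _)]; exact g_ge _ _

theorem hh_uni_abs_le (χ : Pat) (i0 : ℕ) (b0 : Bool) (k : ℕ) :
    |hh χ (uni i0 b0) k| ≤ 6 ^ k := by
  induction k with
  | zero => simp [hh]
  | succ k ih =>
    rcases lt_trichotomy i0 k with h | h | h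
    · rw [hh_uni_succ χ i0 b0 k h, abs_mul, pow_succ, mul_comm]
      have h1 := (al_cases χ k).2.1
      gcongr
    · subst h; rw [hh_uni_self, abs_of_pos (g_pos _ _)]
      have := g_le i0 b0
      have : (1:ℝ) ≤ 6 ^ (i0 + 1) := one_le_pow₀ (by norm_num)
      linarith
    · rw [hh_uni_le χ i0 b0 _ (by omega)]; simp

/-- sign of the edge: `+1` when leaving the lower facet -/
noncomputable def sg (χ : Pat) (i : ℕ) (b : Bool) : ℝ := if χ i b then -1 else 1

theorem sg_sq (χ : Pat) (i : ℕ) (b : Bool) : sg χ i b * sg χ i b = 1 := by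
  unfold sg; cases χ i b <;> simp

/-- `D²` etc. -/
noncomputable def Dd (χ : Pat) (k i : ℕ) (b : Bool) : ℝ := hh χ (uni i b) k
noncomputable def Ll (χ : Pat) (k i : ℕ) (b : Bool) : ℝ := nsq χ (uni i b) k

/-- flip coordinate `(i,b)` -/
def flip (χ : Pat) (i : ℕ) (b : Bool) : Pat :=
  fun i' b' => if i' = i ∧ b' = b then !(χ i b) else χ i' b'

/-- margin -/
noncomputable def mg (k : ℕ) : ℝ := (lam k) ^ 2

theorem mg_pos (k : ℕ) : 0 < mg k := by unfold mg; have := lam_pos k; positivity
theorem mg_succ (k : ℕ) : mg (k + 1) = mg k / 64 := by unfold mg; rw [lam_succ]; ring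

/-- A steepest-edge step (for the objective `s * h`) on the first `k` stages, with margins. -/
def StepP (k : ℕ) (s : ℝ) (χ χ' : Pat) : Prop :=
  ∃ i b, i < k ∧ χ' = flip χ i b ∧ 0 < s * (sg χ i b * Dd χ k i b) ∧
    (∀ i' b', i' < k → (i' ≠ i ∨ b' ≠ b) → s * (sg χ i' b' * Dd χ k i' b') < 0 ∨
      (Dd χ k i' b') ^ 2 * Ll χ k i b + mg k ≤ (Dd χ k i b) ^ 2 * Ll χ k i' b') ∧
    mg k * Ll χ k i b ≤ (Dd χ k i b) ^ 2

theorem StepP.preserve {k : ℕ} {s : ℝ} {χ χ' : Pat} (h : StepP k s χ χ') (i : ℕ) (hi : k ≤ i) :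
    χ' i = χ i := by
  obtain ⟨i0, b0, h0, rfl, -⟩ := h
  funext b
  have : i ≠ i0 := by omega
  simp [flip, this]

/-- lifting of one step to the next stage -/
theorem StepP.lift {k : ℕ} {s s' : ℝ} {χ χ' : Pat} (h : StepP k s χ χ')
    (hs : 0 < s' * al χ k * s) (hss : s * s = 1)
    (hf : s' * sg χ k false < 0 ∨ (1 / 16 + 1 / 64) * (mg k + om χ k * mg k ^ 2) ≤
        (al χ k) ^ 2 * mg k)
    (hf' : s' * sg χ k false < 0 ∨ (1 / 16 + 1 / 64) * om χ k * mg k ≤ (al χ k) ^ 2)
    (ht : s' * sg χ k true < 0 ∨ (χ k false = false ∧ χ k true = false))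
    (hm : (1 + om χ k * mg k) ≤ 64 * (al χ k) ^ 2) :
    StepP (k + 1) s' χ χ' := by
  obtain ⟨i, b, hi, he, hg, ho, hmg⟩ := h
  have hD : ∀ i' b', i' < k → Dd χ (k + 1) i' b' = al χ k * Dd χ k i' b' := by
    intro i' b' h'
    exact hh_uni_succ χ i' b' k h'
  have hL : ∀ i' b', i' < k → Ll χ (k + 1) i' b' = Ll χ k i' b' + om χ k * (Dd χ k i' b') ^ 2 := by
    intro i' b' h'
    exact nsq_uni_succ χ i' b' k h'
  have hL1 : 1 ≤ Ll χ k i b := nsq_uni_ge_one χ i b k hi
  have hom : 0 ≤ om χ k := by unfold om; positivity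
  have hal := (al_cases χ k).2.2
  have hmp := mg_pos k
  have hD2 : 0 < (Dd χ k i b) ^ 2 := by nlinarith
  refine ⟨i, b, by omega, he, ?_, ?_, ?_⟩
  · rw [hD i b hi]
    have : s' * (sg χ i b * (al χ k * Dd χ k i b)) =
        (s' * al χ k * s) * (s * (sg χ i b * Dd χ k i b)) * 1 := by
      have : s' * (sg χ i b * (al χ k * Dd χ k i b)) =
        s' * al χ k * (s * s) * (sg χ i b * Dd χ k i b) := by rw [hss]; ring
      rw [this]; ring
    rw [this]
    positivity
  · intro i' b' hi' hne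
    rcases Nat.lt_succ_iff_lt_or_eq.1 hi' with h1 | h1
    · rcases ho i' b' h1 hne with h2 | h2
      · left
        rw [hD i' b' h1]
        have : s' * (sg χ i' b' * (al χ k * Dd χ k i' b')) =
            (s' * al χ k * s) * (s * (sg χ i' b' * Dd χ k i' b')) := by
          have : s' * (sg χ i' b' * (al χ k * Dd χ k i' b')) =
            s' * al χ k * (s * s) * (sg χ i' b' * Dd χ k i' b') := by rw [hss]; ring
          rw [this]; ring
        rw [this]
        exact mul_neg_of_pos_of_neg hs h2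
      · right
        rw [hD i' b' h1, hD i b hi, hL i b hi, hL i' b' h1, mg_succ]
        have e : (al χ k * Dd χ k i b) ^ 2 * (Ll χ k i' b' + om χ k * Dd χ k i' b' ^ 2) -
            (al χ k * Dd χ k i' b') ^ 2 * (Ll χ k i b + om χ k * Dd χ k i b ^ 2) =
            (al χ k) ^ 2 * ((Dd χ k i b) ^ 2 * Ll χ k i' b' - (Dd χ k i' b') ^ 2 * Ll χ k i b) := by
          ring
        nlinarith
    · subst h1
      have hDn : Dd χ (i' + 1) i' b' = g i' b' := hh_uni_self χ i' b'
      have hLn : Ll χ (i' + 1) i' b' = 1 := nsq_uni_self χ i' b'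
      rw [hDn, hLn, hD i b hi, hL i b hi, mg_succ]
      have hgp := g_pos i' b'
      cases b' with
      | false =>
        have hg4 : (g i' false) ^ 2 = mg i' / 16 := by unfold g mg; simp; ring
        rcases hf with h2 | h2
        · left
          rw [← mul_assoc]
          exact mul_neg_of_neg_of_pos h2 hgp
        · rcases hf' with h3 | h3
          · left
            rw [← mul_assoc]
            exact mul_neg_of_neg_of_pos h3 hgp
          right
          rw [hg4]
          -- (mg/16)(L + om D²) + mg/64 ≤ al² D²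
          have hq : (1 / 16 + 1 / 64) * (mg i' * Ll χ i' i b + om χ i' * mg i' *
              (Dd χ i' i b) ^ 2) ≤ (al χ i') ^ 2 * (Dd χ i' i b) ^ 2 := by
            set D2 := (Dd χ i' i b) ^ 2
            set L := Ll χ i' i b
            have h4 : (1 / 16 + 1 / 64) * (1 + om χ i' * mg i') ≤ (al χ i') ^ 2 := by
              have : (1 / 16 + 1 / 64) * (mg i' + om χ i' * mg i' ^ 2) =
                  ((1 / 16 + 1 / 64) * (1 + om χ i' * mg i')) * mg i' := by ring
              rw [this] at h2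
              exact le_of_mul_le_mul_right h2 hmp
            have h5 : mg i' * L ≤ D2 := hmg
            have h6 : (1 / 16 + 1 / 64) * (mg i' * L + om χ i' * mg i' * D2) ≤
                (1 / 16 + 1 / 64) * (1 + om χ i' * mg i') * D2 := by nlinarith
            exact h6.trans (mul_le_mul_of_nonneg_right h4 hD2.le)
          have h7 : mg i' / 64 ≤ 1 / 64 * (mg i' * Ll χ i' i b) := by nlinarith
          have h8 : 0 ≤ om χ i' * mg i' * (Dd χ i' i b) ^ 2 := by positivity
          nlinarith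
      | true =>
        rcases ht with h2 | ⟨h2, h3⟩
        · left
          rw [← mul_assoc]
          exact mul_neg_of_neg_of_pos h2 hgp
        · right
          have hg4 : (g i' true) ^ 2 = mg i' / 4 := by unfold g mg; simp; ring
          have ho0 : om χ i' = 0 := by unfold om; simp [h2, h3]
          have ha1 : al χ i' = 1 := by unfold al; simp [h2, h3]
          rw [hg4, ho0, ha1]
          nlinarith
  · rw [hD i b hi, hL i b hi, mg_succ]
    set D2 := (Dd χ k i b) ^ 2 with hD2d
    have e : (al χ k * Dd χ k i b) ^ 2 = (al χ k) ^ 2 * D2 := by rw [hD2d]; ring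
    rw [e]
    have h5 : mg k * Ll χ k i b ≤ D2 := hmg
    have : mg k / 64 * (Ll χ k i b + om χ k * D2) ≤ 1 / 64 * ((1 + om χ k * mg k) * D2) := by
      nlinarith
    nlinarith

end Pool.H836R3.SE
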