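import Pool.Agent.H836R3.SE.Gadget

set_option autoImplicit false
set_option linter.unusedSectionVars false
set_option linter.unusedSimpArgs false

namespace Pool.H836R3.SE

theorem PathN.liftStep {k : ℕ} {s s' : ℝ} {L : ℕ} {χ χ' : Pat}
    (p : Bool → Bool)
    (hl : ∀ a b : Pat, a k = p → StepP k s a b → StepP (k + 1) s' a b)
    (h : PathN (StepP k s) L χ χ') (hp : χ k = p) :
    PathN (StepP (k + 1) s') L χ χ' := by
  induction h with
  | nil a => exact PathN.nil _
  | cons h1 _ ih =>
    exact PathN.cons (hl _ _ hp h1) (ih ((h1.preserve k le_rfl).trans hp))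

theorem om_mg (χ : Pat) (k : ℕ) :
    om χ k * mg k = (if χ k false then 400 else 0) + (if χ k true then 36 else 0) := by
  have hl := (lam_pos k).ne'
  unfold om mg
  cases χ k false <;> cases χ k true <;> simp <;> (try field_simp) <;> norm_num

theorem lift_ff {k : ℕ} {χ χ' : Pat} (h1 : χ k false = false) (h2 : χ k true = false)
    (h : StepP k 1 χ χ') : StepP (k + 1) 1 χ χ' := by
  have ho := om_mg χ k
  rw [h1, h2] at ho
  have hm := mg_pos k
  have ha : al χ k = 1 := by unfold al; simp [h1, h2]
  have ho0 : om χ k = 0 := by unfold om; simp [h1, h2]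
  refine h.lift (by rw [ha]; norm_num) (by norm_num) (Or.inr ?_) (Or.inr ?_)
    (Or.inr ⟨h1, h2⟩) ?_
  · rw [ha, ho0]; nlinarith
  · rw [ha, ho0]; norm_num
  · rw [ha, ho0]; norm_num

theorem lift_ft {k : ℕ} {χ χ' : Pat} (h1 : χ k false = false) (h2 : χ k true = true)
    (h : StepP k (-1) χ χ') : StepP (k + 1) 1 χ χ' := by
  have ho := om_mg χ k
  rw [h1, h2] at ho
  simp at ho
  have hm := mg_pos k
  have ha : al χ k = -2 := by unfold al; simp [h1, h2]; norm_num
  refine h.lift (by rw [ha]; norm_num) (by norm_num) (Or.inr ?_) (Or.inr ?_) (Or.inl ?_) ?_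
  · rw [ha]
    have : om χ k * mg k ^ 2 = 36 * mg k := by rw [← ho]; ring
    rw [this]; nlinarith
  · rw [ha]
    have : (1 / 16 + 1 / 64) * om χ k * mg k = (1 / 16 + 1 / 64) * 36 := by rw [← ho]; ring
    rw [this]; norm_num
  · simp [sg, h2]
  · rw [ha, ho]; norm_num

theorem lift_tt {k : ℕ} {χ χ' : Pat} (h1 : χ k false = true) (h2 : χ k true = true)
    (h : StepP k 1 χ χ') : StepP (k + 1) 1 χ χ' := by
  have ho := om_mg χ k
  rw [h1, h2] at ho
  simp at ho
  have ha : al χ k = 3 := by unfold al; simp [h1, h2]; norm_num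
  refine h.lift (by rw [ha]; norm_num) (by norm_num) (Or.inl ?_) (Or.inl ?_) (Or.inl ?_) ?_
  · simp [sg, h1]
  · simp [sg, h1]
  · simp [sg, h2]
  · rw [ha, ho]; norm_num

theorem lift_tf {k : ℕ} {χ χ' : Pat} (h1 : χ k false = true) (h2 : χ k true = false)
    (h : StepP k (-1) χ χ') : StepP (k + 1) (-1) χ χ' := by
  have ho := om_mg χ k
  rw [h1, h2] at ho
  simp at ho
  have hm := mg_pos k
  have ha : al χ k = 6 := by unfold al; simp [h1, h2]; norm_num
  refine h.lift (by rw [ha]; norm_num) (by norm_num) (Or.inr ?_) (Or.inr ?_) (Or.inl ?_) ?_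
  · rw [ha]
    have : om χ k * mg k ^ 2 = 400 * mg k := by rw [← ho]; ring
    rw [this]; nlinarith
  · rw [ha]
    have : (1 / 16 + 1 / 64) * om χ k * mg k = (1 / 16 + 1 / 64) * 400 := by rw [← ho]; ring
    rw [this]; norm_num
  · simp [sg, h2]
  · rw [ha, ho]; norm_num

theorem Dd_pos {χ : Pat} {k : ℕ} (h : ∀ i < k, 0 < al χ i) (i0 : ℕ) (b0 : Bool) (hi : i0 < k) :
    0 < Dd χ k i0 b0 := by
  unfold Dd
  induction k with
  | zero => omega
  | succ k ih =>
    rcases Nat.lt_succ_iff_lt_or_eq.1 hi with h1 | h1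
    · rw [hh_uni_succ χ i0 b0 k h1]
      exact mul_pos (h k (by omega)) (ih (fun i hi => h i (by omega)) h1)
    · subst h1; rw [hh_uni_self]; exact g_pos _ _

theorem al_pos_true {χ : Pat} {i : ℕ} (h : ∀ b, χ i b = true) : 0 < al χ i := by
  unfold al; simp [h]; norm_num

theorem al_pos_false {χ : Pat} {i : ℕ} (h : ∀ b, χ i b = false) : 0 < al χ i := by
  unfold al; simp [h]

theorem g_sq_false (k : ℕ) : (g k false) ^ 2 = mg k / 16 := by unfold g mg; simp; ring
theorem g_sq_true (k : ℕ) : (g k true) ^ 2 = mg k / 4 := by unfold g mg; simp; ring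

/-- new steps at stage `k` -/
theorem stepNew {k : ℕ} {s : ℝ} {χ : Pat} (b : Bool)
    (h0 : 0 < s * sg χ k b)
    (hother : s * sg χ k (!b) < 0 ∨ b = true)
    (hP : ∀ i' b', i' < k → s * (sg χ i' b' * (al χ k * Dd χ k i' b')) < 0 ∨
      (al χ k * Dd χ k i' b') ^ 2 + mg k / 64 ≤
        (g k b) ^ 2 * (Ll χ k i' b' + om χ k * (Dd χ k i' b') ^ 2)) :
    StepP (k + 1) s χ (flip χ k b) := by
  have hDs : ∀ b', Dd χ (k + 1) k b' = g k b' := fun b' => hh_uni_self χ k b'
  have hLs : ∀ b', Ll χ (k + 1) k b' = 1 := fun b' => nsq_uni_self χ k b'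
  have hm := mg_pos k
  refine ⟨k, b, by omega, rfl, ?_, ?_, ?_⟩
  · rw [hDs, ← mul_assoc]; exact mul_pos h0 (g_pos _ _)
  · intro i' b' hi' hne
    rcases Nat.lt_succ_iff_lt_or_eq.1 hi' with h1 | h1
    · have e1 : Dd χ (k + 1) i' b' = al χ k * Dd χ k i' b' := hh_uni_succ χ i' b' k h1
      have e2 : Ll χ (k + 1) i' b' = Ll χ k i' b' + om χ k * (Dd χ k i' b') ^ 2 :=
        nsq_uni_succ χ i' b' k h1
      rw [e1, e2, hDs, hLs, mg_succ, mul_one]
      exact hP i' b' h1
    · subst h1
      have hb : b' = !b := by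
        rcases hne with h2 | h2
        · exact absurd rfl h2
        · cases b <;> cases b' <;> simp_all
      subst hb
      rw [hDs, hLs, hDs, hLs, mg_succ]
      rcases hother with h3 | h3
      · left; rw [← mul_assoc]; exact mul_neg_of_neg_of_pos h3 (g_pos _ _)
      · right
        subst h3
        rw [Bool.not_true, g_sq_false, g_sq_true]
        nlinarith
  · rw [hDs, hLs, mg_succ]
    cases b
    · rw [g_sq_false]; nlinarith
    · rw [g_sq_true]; nlinarith

theorem flip_k (χ : Pat) (k : ℕ) (b : Bool) : flip χ k b k b = !(χ k b) := by simp [flip]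
theorem flip_k' (χ : Pat) (k : ℕ) (b : Bool) : flip χ k b k (!b) = χ k (!b) := by
  cases b <;> simp [flip]
theorem flip_ne (χ : Pat) (k i : ℕ) (b : Bool) (h : i ≠ k) : flip χ k b i = χ i := by
  funext b'; simp [flip, h]

theorem paths (k : ℕ) :
    (∀ χ : Pat, (∀ i < k, ∀ b, χ i b = false) → ∃ L χ', 2 ^ k ≤ L + 1 ∧
      PathN (StepP k 1) L χ χ' ∧ (∀ i < k, ∀ b, χ' i b = true) ∧ ∀ i, k ≤ i → χ' i = χ i) ∧
    (∀ χ : Pat, (∀ i < k, ∀ b, χ i b = true) → ∃ L χ',
      PathN (StepP k (-1)) L χ χ' ∧ (∀ i < k, ∀ b, χ' i b = false) ∧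
        ∀ i, k ≤ i → χ' i = χ i) := by
  induction k with
  | zero =>
    exact ⟨fun χ _ => ⟨0, χ, by simp, PathN.nil _, by simp, fun _ _ => rfl⟩,
      fun χ _ => ⟨0, χ, PathN.nil _, by simp, fun _ _ => rfl⟩⟩
  | succ k ih =>
    obtain ⟨ihp, ihm⟩ := ih
    constructor
    · intro χ hχ
      obtain ⟨L1, χ1, hL1, hP1, ht1, hk1⟩ := ihp χ (fun i hi => hχ i (by omega))
      have c1 : χ1 k = χ k := hk1 k le_rfl
      have c1f : χ1 k false = false := by rw [c1]; exact hχ k (by omega) _
      have c1t : χ1 k true = false := by rw [c1]; exact hχ k (by omega) _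
      have P1 : PathN (StepP (k + 1) 1) L1 χ χ1 :=
        hP1.liftStep (χ k) (fun a b ha h => lift_ff (by rw [ha]; exact hχ k (by omega) _)
          (by rw [ha]; exact hχ k (by omega) _) h) rfl
      -- flip (k,true)
      set χ2 := flip χ1 k true with hχ2
      have S2 : StepP (k + 1) 1 χ1 χ2 := by
        refine stepNew true (by simp [sg, c1t]) (Or.inr rfl) ?_
        intro i' b' hi'
        left
        have hD := Dd_pos (fun i hi => al_pos_true (ht1 i hi)) i' b' hi'
        have ha : al χ1 k = 1 := by unfold al; simp [c1f, c1t]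
        have hs : sg χ1 i' b' = -1 := by simp [sg, ht1 i' hi' b']
        rw [ha, hs]; linarith
      have c2f : χ2 k false = false := by
        have := flip_k' χ1 k true; simp only [Bool.not_true] at this; rw [hχ2, this, c1f]
      have c2t : χ2 k true = true := by rw [hχ2, flip_k, c1t]; rfl
      have lo2 : ∀ i < k, ∀ b, χ2 i b = true := by
        intro i hi b; rw [hχ2, flip_ne χ1 k i true (by omega)]; exact ht1 i hi b
      obtain ⟨L3, χ3, hP3, hf3, hk3⟩ := ihm χ2 lo2
      have P3 : PathN (StepP (k + 1) 1) L3 χ2 χ3 :=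
        hP3.liftStep (χ2 k) (fun a b ha h => lift_ft (by rw [ha]; exact c2f)
          (by rw [ha]; exact c2t) h) rfl
      have c3 := hk3 k le_rfl
      have c3f : χ3 k false = false := by rw [c3, c2f]
      have c3t : χ3 k true = true := by rw [c3, c2t]
      set χ4 := flip χ3 k false with hχ4
      have S4 : StepP (k + 1) 1 χ3 χ4 := by
        refine stepNew false (by simp [sg, c3f]) (Or.inl (by simp [sg, c3t])) ?_
        intro i' b' hi'
        left
        have hD := Dd_pos (fun i hi => al_pos_false (hf3 i hi)) i' b' hi'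
        have ha : al χ3 k = -2 := by unfold al; simp [c3f, c3t]; norm_num
        have hs : sg χ3 i' b' = 1 := by simp [sg, hf3 i' hi' b']
        rw [ha, hs]; linarith
      have c4f : χ4 k false = true := by rw [hχ4, flip_k, c3f]; rfl
      have c4t : χ4 k true = true := by
        have := flip_k' χ3 k false; simp only [Bool.not_false] at this; rw [hχ4, this, c3t]
      have lo4 : ∀ i < k, ∀ b, χ4 i b = false := by
        intro i hi b; rw [hχ4, flip_ne χ3 k i false (by omega)]; exact hf3 i hi b
      obtain ⟨L5, χ5, hL5, hP5, ht5, hk5⟩ := ihp χ4 lo4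
      have P5 : PathN (StepP (k + 1) 1) L5 χ4 χ5 :=
        hP5.liftStep (χ4 k) (fun a b ha h => lift_tt (by rw [ha]; exact c4f)
          (by rw [ha]; exact c4t) h) rfl
      refine ⟨L1 + (1 + (L3 + (1 + L5))), χ5, ?_, ?_, ?_, ?_⟩
      · rw [pow_succ]; omega
      · exact P1.append ((PathN.single S2).append (P3.append ((PathN.single S4).append P5)))
      · intro i hi b
        rcases Nat.lt_succ_iff_lt_or_eq.1 hi with h1 | h1
        · exact ht5 i h1 b
        · subst h1
          rw [hk5 i le_rfl]
          cases b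
          · exact c4f
          · exact c4t
      · intro i hi
        rw [hk5 i (by omega), hχ4, flip_ne _ _ _ _ (by omega), hk3 i (by omega), hχ2,
          flip_ne _ _ _ _ (by omega), hk1 i (by omega)]
    · intro χ hχ
      have c0f : χ k false = true := hχ k (by omega) _
      have c0t : χ k true = true := hχ k (by omega) _
      set χ1 := flip χ k true with hχ1
      have S1 : StepP (k + 1) (-1) χ χ1 := by
        refine stepNew true (by simp [sg, c0t]) (Or.inr rfl) ?_
        intro i' b' hi'
        right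
        have ho := om_mg χ k
        rw [c0f, c0t] at ho
        simp at ho
        have hL1 : 1 ≤ Ll χ k i' b' := nsq_uni_ge_one χ i' b' k hi'
        have ha : al χ k = 3 := by unfold al; simp [c0f, c0t]; norm_num
        have hm := mg_pos k
        rw [ha, g_sq_true]
        set D2 := (Dd χ k i' b') ^ 2 with hD2
        have hD0 : 0 ≤ D2 := sq_nonneg _
        have e1 : (3 * Dd χ k i' b') ^ 2 = 9 * D2 := by rw [hD2]; ring
        have e2 : mg k / 4 * (Ll χ k i' b' + om χ k * D2) =
            mg k / 4 * Ll χ k i' b' + (om χ k * mg k) * D2 / 4 := by ring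
        rw [e1, e2, ho]
        nlinarith
      have c1f : χ1 k false = true := by
        have := flip_k' χ k true; simp only [Bool.not_true] at this; rw [hχ1, this, c0f]
      have c1t : χ1 k true = false := by rw [hχ1, flip_k, c0t]; rfl
      have lo1 : ∀ i < k, ∀ b, χ1 i b = true := by
        intro i hi b; rw [hχ1, flip_ne χ k i true (by omega)]; exact hχ i (by omega) b
      obtain ⟨L2, χ2, hP2, hf2, hk2⟩ := ihm χ1 lo1
      have P2 : PathN (StepP (k + 1) (-1)) L2 χ1 χ2 :=
        hP2.liftStep (χ1 k) (fun a b ha h => lift_tf (by rw [ha]; exact c1f)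
          (by rw [ha]; exact c1t) h) rfl
      have c2 := hk2 k le_rfl
      have c2f : χ2 k false = true := by rw [c2, c1f]
      have c2t : χ2 k true = false := by rw [c2, c1t]
      set χ3 := flip χ2 k false with hχ3
      have S3 : StepP (k + 1) (-1) χ2 χ3 := by
        refine stepNew false (by simp [sg, c2f]) (Or.inl (by simp [sg, c2t])) ?_
        intro i' b' hi'
        left
        have hD := Dd_pos (fun i hi => al_pos_false (hf2 i hi)) i' b' hi'
        have ha : al χ2 k = 6 := by unfold al; simp [c2f, c2t]; norm_num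
        have hs : sg χ2 i' b' = 1 := by simp [sg, hf2 i' hi' b']
        rw [ha, hs]; linarith
      have c3f : χ3 k false = false := by rw [hχ3, flip_k, c2f]; rfl
      have c3t : χ3 k true = false := by
        have := flip_k' χ2 k false; simp only [Bool.not_false] at this; rw [hχ3, this, c2t]
      refine ⟨1 + (L2 + 1), χ3, ?_, ?_, ?_⟩
      · exact (PathN.single S1).append (P2.append (PathN.single S3))
      · intro i hi b
        rcases Nat.lt_succ_iff_lt_or_eq.1 hi with h1 | h1
        · rw [hχ3, flip_ne _ _ _ _ (by omega)]; exact hf2 i h1 b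
        · subst h1
          cases b
          · exact c3f
          · exact c3t
      · intro i hi
        rw [hχ3, flip_ne _ _ _ _ (by omega), hk2 i (by omega), hχ1,
          flip_ne _ _ _ _ (by omega)]

end Pool.H836R3.SE
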