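import Pool.Agent.H836R3.SE.Defs

set_option autoImplicit false
set_option linter.unusedSectionVars false
set_option linter.unusedSimpArgs false

namespace Pool.H836R3.SE

variable {ι κ : Type} [Fintype ι] [Fintype κ] [DecidableEq ι] [DecidableEq κ]

/-- transformed constraint matrix -/
def NA (A : ι → κ → ℝ) (Λ : ℝ) (w : ι → ℝ) (q : ι) (l : κ) : ℝ := w q * Λ * A q l

def bA (A : ι → κ → ℝ) (Λ : ℝ) (w : ι → ℝ) (o : κ → ℝ) (q : ι) : ℝ :=
  w q + dot (NA A Λ w q) o

def phi (Λ : ℝ) (o : κ → ℝ) (t : κ → ℝ) : κ → ℝ := Λ • (t - o)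

variable {A : ι → κ → ℝ} {Λ : ℝ} {w : ι → ℝ} {o : κ → ℝ} {c z : κ → ℝ}

theorem phi_key (q : ι) (t : κ → ℝ) :
    bA A Λ w o q - dot (NA A Λ w q) t = w q * (1 - dot (A q) (phi Λ o t)) := by
  have h1 : ∀ s, dot (NA A Λ w q) s = w q * Λ * dot (A q) s := by
    intro s
    have : NA A Λ w q = (w q * Λ) • A q := by funext l; simp [NA]
    rw [this, smul_dot]
  unfold bA phi
  rw [h1, h1, dot_smul, dot_sub]; ring

theorem phi_feas (hw : ∀ q, 0 < w q) (t : κ → ℝ) :
    Feas A (fun _ => 1) (phi Λ o t) ↔ Feas (NA A Λ w) (bA A Λ w o) t := by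
  unfold Feas
  refine forall_congr' (fun q => ?_)
  have h := phi_key (A := A) (Λ := Λ) (w := w) (o := o) q t
  constructor
  · intro h1
    have : 0 ≤ w q * (1 - dot (A q) (phi Λ o t)) := mul_nonneg (hw q).le (by linarith)
    linarith
  · intro h1
    have : 0 ≤ w q * (1 - dot (A q) (phi Λ o t)) := by rw [← h]; linarith
    have := nonneg_of_mul_nonneg_right this (hw q)
    linarith

theorem phi_tight (hw : ∀ q, 0 < w q) (t : κ → ℝ) :
    tightSet A (fun _ => 1) (phi Λ o t) = tightSet (NA A Λ w) (bA A Λ w o) t := by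
  ext q
  have h := phi_key (A := A) (Λ := Λ) (w := w) (o := o) q t
  simp only [tightSet, Finset.mem_filter, Finset.mem_univ, true_and]
  constructor
  · intro h1
    rw [h1] at h; linarith
  · intro h1
    rw [h1, sub_self] at h
    have := (mul_eq_zero.1 h.symm).resolve_left (hw q).ne'
    linarith

theorem phi_vertex (hΛ : 0 < Λ) (hw : ∀ q, 0 < w q) (t : κ → ℝ) :
    IsVertex A (fun _ => 1) (phi Λ o t) ↔ IsVertex (NA A Λ w) (bA A Λ w o) t := by
  unfold IsVertex
  rw [phi_feas hw, phi_tight hw]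
  refine and_congr_right (fun _ => ?_)
  refine forall_congr' (fun y => ?_)
  refine imp_congr_left ?_
  refine forall_congr' (fun q => ?_)
  refine imp_congr_right (fun _ => ?_)
  have : dot (NA A Λ w q) y = w q * Λ * dot (A q) y := by
    have : NA A Λ w q = (w q * Λ) • A q := by funext l; simp [NA]
    rw [this, smul_dot]
  rw [this]
  have : w q * Λ ≠ 0 := (mul_pos (hw q) hΛ).ne'
  simp [this, (hw q).ne', hΛ.ne']

theorem phi_surj (hΛ : 0 < Λ) (x : κ → ℝ) : ∃ t, x = phi Λ o t := by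
  refine ⟨Λ⁻¹ • x + o, ?_⟩
  unfold phi
  rw [add_sub_cancel_right, smul_smul, mul_inv_cancel₀ hΛ.ne', one_smul]

theorem phi_sub (u v : κ → ℝ) : phi Λ o u - phi Λ o v = Λ • (u - v) := by
  unfold phi; rw [← smul_sub]; congr 1; abel

theorem phi_neighbor (hΛ : 0 < Λ) (hw : ∀ q, 0 < w q) (u v : κ → ℝ) :
    Neighbor A (fun _ => 1) (phi Λ o u) (phi Λ o v) ↔
      Neighbor (NA A Λ w) (bA A Λ w o) u v := by
  unfold Neighbor
  rw [phi_vertex hΛ hw, phi_vertex hΛ hw, phi_tight hw, phi_tight hw]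

theorem phi_slope (hΛ : 0 < Λ) (Λc : ℝ) (hc : 0 < Λc) (u v : κ → ℝ) :
    slope (Λc • c) u v = Λc * slope c (phi Λ o u) (phi Λ o v) := by
  unfold slope
  rw [phi_sub, dot_smul, dot_smul, smul_dot, smul_dot]
  have : Real.sqrt (Λ * (Λ * dot (v - u) (v - u))) = Λ * Real.sqrt (dot (v - u) (v - u)) := by
    rw [← mul_assoc, Real.sqrt_mul (by positivity), Real.sqrt_mul_self hΛ.le]
  rw [this, mul_div_mul_left _ _ hΛ.ne', mul_div_assoc]

theorem phi_step (hΛ : 0 < Λ) (hw : ∀ q, 0 < w q) (Λc : ℝ) (hc : 0 < Λc) (u v : κ → ℝ)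
    (h : SEStep (NA A Λ w) (bA A Λ w o) (Λc • c) u v) :
    SEStep A (fun _ => 1) c (phi Λ o u) (phi Λ o v) := by
  obtain ⟨h1, h2, h3⟩ := h
  refine ⟨(phi_neighbor hΛ hw _ _).2 h1, ?_, ?_⟩
  · rw [phi_sub, dot_smul]
    rw [smul_dot] at h2
    have := pos_of_mul_pos_right h2 hc.le
    positivity
  · intro x hx hpos
    obtain ⟨s, rfl⟩ := phi_surj (o := o) hΛ x
    have h4 := h3 s ((phi_neighbor hΛ hw _ _).1 hx) (by
      rw [phi_sub, dot_smul] at hpos
      have := pos_of_mul_pos_right hpos hΛ.le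
      rw [smul_dot]; positivity)
    rw [phi_slope (o := o) hΛ Λc hc, phi_slope (o := o) hΛ Λc hc] at h4
    exact le_of_mul_le_mul_left h4 hc

theorem phi_start (hΛ : 0 < Λ) (hw : ∀ q, 0 < w q) (v : κ → ℝ)
    (h : IsStart (NA A Λ w) (bA A Λ w o) z v) : IsStart A (fun _ => 1) z (phi Λ o v) := by
  obtain ⟨h1, h2⟩ := h
  refine ⟨(phi_vertex hΛ hw _).2 h1, ?_⟩
  intro y hy hne
  obtain ⟨s, rfl⟩ := phi_surj (o := o) hΛ y
  have h3 := h2 s ((phi_feas hw _).1 hy) (fun e => hne (by rw [e]))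
  have : dot z (phi Λ o s - phi Λ o v) < 0 := by
    rw [phi_sub, dot_smul, dot_sub]
    exact mul_neg_of_pos_of_neg hΛ (by linarith)
  rw [dot_sub] at this
  linarith

theorem phi_path (hΛ : 0 < Λ) (hw : ∀ q, 0 < w q) (Λc : ℝ) (hc : 0 < Λc) (L : ℕ)
    (h : HasPath (NA A Λ w) (bA A Λ w o) (Λc • c) z L) :
    HasPath A (fun _ => 1) c z L := by
  obtain ⟨v, h1, h2⟩ := h
  exact ⟨fun i => phi Λ o (v i), phi_start hΛ hw _ h1,
    fun i hi => phi_step hΛ hw Λc hc _ _ (h2 i hi)⟩

/-! ### images of convex sets -/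

theorem image_hull {E : Type} [AddCommGroup E] [Module ℝ E] (T : (κ → ℝ) →ₗ[ℝ] E) (e0 : E)
    (P : Set (κ → ℝ)) (hP : Convex ℝ P) (v0 : κ → ℝ) (p : κ → κ → ℝ) (ξ : κ)
    (h1 : ∀ x ∈ P, ∃ lam : κ → ℝ, (∀ j, 0 ≤ lam j) ∧ ∑ j, lam j ≤ 1 ∧
      x - v0 = ∑ j, lam j • (p j - v0))
    (hv : v0 ∈ P) (hp : ∀ j, j ≠ ξ → p j ∈ P) (a b : κ) (ha : a ≠ ξ) (hb : b ≠ ξ)
    (α β : ℝ) (hα : 0 ≤ α) (hβ : 0 ≤ β) (hαβ : α + β ≤ 1)
    (hT : T (p ξ - v0) = α • T (p a - v0) + β • T (p b - v0)) :
    ∃ G : κ → E, (fun x => T x + e0) '' P = convexHull ℝ (Set.range G) := by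
  set G : κ → E := fun j => if j = ξ then T v0 + e0 else T (p j) + e0 with hG
  set Cn := convexHull ℝ (Set.range G) with hCn
  have hconv : Convex ℝ Cn := convex_convexHull ℝ _
  have hGm : ∀ j, G j ∈ Cn := fun j => subset_convexHull ℝ _ (Set.mem_range_self j)
  have m0 : T v0 + e0 ∈ Cn := by simpa [hG] using hGm ξ
  have mj : ∀ j, j ≠ ξ → T (p j) + e0 ∈ Cn := fun j hj => by simpa [hG, hj] using hGm j
  have hcomb : ∀ (y : κ → E) (lam : κ → ℝ), (∀ j, y j ∈ Cn) → (∀ j, 0 ≤ lam j) →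
      ∑ j, lam j ≤ 1 → (T v0 + e0) + ∑ j, lam j • (y j - (T v0 + e0)) ∈ Cn := by
    intro y lam hy hl hs
    have := hconv.sum_mem (t := (Finset.univ : Finset (Option κ)))
      (w := fun o => match o with | none => 1 - ∑ j, lam j | some j => lam j)
      (z := fun o => match o with | none => T v0 + e0 | some j => y j)
      (by
        intro o _
        cases o with
        | none => simp only; linarith
        | some j => exact hl j)
      (by rw [Fintype.sum_option]; simp)
      (by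
        intro o _
        cases o with
        | none => exact m0
        | some j => exact hy j)
    rw [Fintype.sum_option] at this
    convert this using 1
    simp only [smul_sub, Finset.sum_sub_distrib, sub_smul, one_smul, Finset.sum_smul]
    abel
  have mξ : T (p ξ) + e0 ∈ Cn := by
    have e1 : T (p ξ) + e0 = (1 - α - β) • (T v0 + e0) + α • (T (p a) + e0) +
        β • (T (p b) + e0) := by
      rw [map_sub, map_sub, map_sub] at hT
      have : T (p ξ) = T v0 + (α • (T (p a) - T v0) + β • (T (p b) - T v0)) := by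
        rw [← hT]; abel
      rw [this]
      module
    rw [e1]
    have hab : 0 ≤ 1 - α - β := by linarith
    have := hconv.sum_mem (t := (Finset.univ : Finset (Fin 3)))
      (w := ![1 - α - β, α, β]) (z := ![T v0 + e0, T (p a) + e0, T (p b) + e0])
      (by intro i _; fin_cases i <;> simp <;> linarith)
      (by rw [Fin.sum_univ_three]; simp; ring)
      (by
        intro i _
        fin_cases i
        · exact m0
        · exact mj a ha
        · exact mj b hb)
    rw [Fin.sum_univ_three] at this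
    simpa using this
  have mall : ∀ j, T (p j) + e0 ∈ Cn := fun j => by
    by_cases hj : j = ξ
    · rw [hj]; exact mξ
    · exact mj j hj
  refine ⟨G, Set.Subset.antisymm ?_ ?_⟩
  · rintro _ ⟨x, hx, rfl⟩
    obtain ⟨lam, hl, hs, he⟩ := h1 x hx
    have h2 := hcomb (fun j => T (p j) + e0) lam mall hl hs
    have e1 : T x + e0 = (T v0 + e0) + ∑ j, lam j • ((T (p j) + e0) - (T v0 + e0)) := by
      have : T x = T v0 + ∑ j, lam j • (T (p j) - T v0) := by
        have : x = v0 + ∑ j, lam j • (p j - v0) := by rw [← he]; abel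
        conv_lhs => rw [this]
        rw [map_add, map_sum]
        congr 1
        exact Finset.sum_congr rfl (fun j _ => by rw [map_smul, map_sub])
      rw [this]
      have e2 : ∀ j, lam j • ((T (p j) + e0) - (T v0 + e0)) = lam j • (T (p j) - T v0) := by
        intro j; congr 1; abel
      simp only [e2]
      abel
    show T x + e0 ∈ Cn
    rw [e1]; exact h2
  · apply convexHull_min
    · rintro _ ⟨j, rfl⟩
      by_cases hj : j = ξ
      · exact ⟨v0, hv, by simp [hG, hj]⟩
      · exact ⟨p j, hp j hj, by simp [hG, hj]⟩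
    · intro x hx y hy s t hs ht hst
      obtain ⟨x', hx', rfl⟩ := hx
      obtain ⟨y', hy', rfl⟩ := hy
      refine ⟨s • x' + t • y', hP hx' hy' hs ht hst, ?_⟩
      simp only [map_add, map_smul]
      have : e0 = (s + t) • e0 := by rw [hst, one_smul]
      conv_lhs => rw [this]
      module

theorem encard_extreme {E : Type} [AddCommGroup E] [Module ℝ E] (S : Set E)
    (h : ∃ G : κ → E, S = convexHull ℝ (Set.range G)) :
    (Set.extremePoints ℝ S).encard ≤ Fintype.card κ := by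
  obtain ⟨G, rfl⟩ := h
  refine (Set.encard_le_encard extremePoints_convexHull_subset).trans ?_
  rw [← Set.image_univ]
  refine (Set.encard_image_le _ _).trans ?_
  rw [Set.encard_univ]
  simp

end Pool.H836R3.SE
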