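import Pool.Agent.H836R3.SE.Robust
import Pool.Agent.H836R3.SE.Transfer

set_option autoImplicit false
set_option linter.unusedSectionVars false
set_option linter.unusedSimpArgs false

namespace Pool.H836R3.SE

theorem bb_true_ge (K : ℕ) (j : Ix K) : 1 ≤ bb K (j, true) := by
  have he := eta_pos K
  rcases j with p | a
  · simp only [bb]
    have h1 : 0 ≤ kst p.1 p.2 * (eta K * rr p.1 p.2) := by
      unfold kst rr; have := cab_pos p.1 p.2
      split_ifs <;> positivity
    linarith
  · simp only [bb]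
    have h1 : 0 ≤ kw K a * (eta K * Wv K a) := by
      have := (ikw_cases K a).1
      have := (Wv_cases K a).1
      unfold kw; positivity
    linarith

theorem vbase_m (K : ℕ) :
    VBase (NN K) (bb K) 1 1 (fun j => (j, false)) 0 (fun j l => if l = j then 1 else 0) := by
  have h := vbase_0 K
  refine ⟨h.inj, h.dir, h.tgt, ?_, ?_, ?_⟩
  · intro q hq
    obtain ⟨j, b⟩ := q
    have hb : b = true := by
      cases b
      · exact absurd rfl (hq j)
      · rfl
    subst hb
    rw [dot_zero]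
    have := bb_true_ge K j
    linarith
  · intro l; simp
  · intro j l
    split_ifs <;> simp

theorem convex_feas {ι κ : Type} [Fintype ι] [Fintype κ] [DecidableEq ι] [DecidableEq κ]
    (N : ι → κ → ℝ) (b : ι → ℝ) : Convex ℝ {t : κ → ℝ | Feas N b t} := by
  intro x hx y hy s t hs ht hst q
  rw [dot_add, dot_smul, dot_smul]
  have h1 := mul_le_mul_of_nonneg_left (hx q) hs
  have h2 := mul_le_mul_of_nonneg_left (hy q) ht
  have : b q = s * b q + t * b q := by rw [← add_mul, hst, one_mul]
  linarith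

theorem prod_err {x y : ℝ} (x0 y0 : ℝ) (hx : -(1 / 10 ^ 5) ≤ x - x0 ∧ x - x0 ≤ 1 / 10 ^ 5)
    (hy : -(1 / 10 ^ 5) ≤ y - y0 ∧ y - y0 ≤ 1 / 10 ^ 5) (hx0 : |x0| ≤ 12) (hy0 : |y0| ≤ 12) :
    |x * y - x0 * y0| ≤ 1 / 1000 := by
  have hx' := abs_le.2 hx
  have hy' := abs_le.2 hy
  have e : x * y - x0 * y0 = (x - x0) * (y - y0) + (x - x0) * y0 + x0 * (y - y0) := by ring
  rw [e]
  refine (abs_add_three _ _ _).trans ?_
  rw [abs_mul, abs_mul, abs_mul]
  have h1 : |x - x0| * |y - y0| ≤ 1 / 10 ^ 5 * (1 / 10 ^ 5) := by gcongr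
  have h2 : |x - x0| * |y0| ≤ 1 / 10 ^ 5 * 12 := by gcongr
  have h3 : |x0| * |y - y0| ≤ 12 * (1 / 10 ^ 5) := by gcongr
  linarith

theorem outer_hull (K : ℕ) (hK : 0 < K) {N' : Ix K × Bool → Ix K → ℝ} {b' : Ix K × Bool → ℝ}
    {c' : Ix K → ℝ} {ε : ℝ} (hε : 0 ≤ ε)
    (hN : ∀ q l, |N' q l - NN K q l| ≤ ε) (hb : ∀ q, |b' q - bb K q| ≤ ε)
    (hc : ∀ l, |c' l - cc K l| ≤ ε)
    (hsm : 10 ^ 7 * ((Fintype.card (Ix K) : ℝ) ^ 6 * ε) ≤ 1)
    {E : Type} [AddCommGroup E] [Module ℝ E] (T : (Ix K → ℝ) →ₗ[ℝ] E)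
    (hT : ∀ u, dot (zc K) u = 0 → dot c' u = 0 → T u = 0) (e0 : E) :
    ∃ G : Ix K → E, (fun x => T x + e0) '' {t | Feas N' b' t} = convexHull ℝ (Set.range G) := by
  have hne : Nonempty (Ix K) := ⟨Sum.inr 0⟩
  have bN := NN_bound K
  have bbb : ∀ q, |bb K q| ≤ 2 := fun q => by
    obtain ⟨h1, h2⟩ := bb_bound K q
    rw [abs_of_nonneg h1]; exact h2
  have hn1 : (1:ℝ) ≤ Fintype.card (Ix K) := by exact_mod_cast Fintype.card_pos
  obtain ⟨d, V, hE, hd, hV⟩ := robust_vertex (vbase_m K) hne le_rfl one_pos le_rfl bN bbb hε hN hb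
    (by rw [one_pow, mul_one]; nlinarith)
  rw [one_pow, mul_one] at hd hV
  set n : ℝ := (Fintype.card (Ix K) : ℝ) with hn
  have hpw : ∀ a : ℕ, a ≤ 6 → n ^ a * ε ≤ 1 / 10 ^ 7 := by
    intro a ha
    have h1 := pow_le_pow_right₀ hn1 ha
    have : n ^ a * ε ≤ n ^ 6 * ε := by gcongr
    linarith
  have p0 := hpw 0 (by norm_num)
  have p1 := hpw 1 (by norm_num)
  have p3 := hpw 3 (by norm_num)
  have p4 := hpw 4 (by norm_num)
  have p5 := hpw 5 (by norm_num)
  rw [pow_zero, one_mul] at p0
  rw [pow_one] at p1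
  have hdb : ∀ j l, |d j l| ≤ 2 := by
    intro j l
    have h1 := hd j l
    have h2 : |(if l = j then (1:ℝ) else 0)| ≤ 1 := by split_ifs <;> simp
    have : d j l = (d j l - if l = j then 1 else 0) + (if l = j then 1 else 0) := by ring
    rw [this]
    refine (abs_add_le _ _).trans ?_
    linarith
  have est : ∀ (u u' : Ix K → ℝ), (∀ l, |u l| ≤ 10) → (∀ l, |u' l - u l| ≤ ε) →
      ∀ j, |dot u' (d j) - u j| ≤ 1 / 10 ^ 5 := by
    intro u u' hu hu' j
    have e1 : dot u' (d j) - u j = dot (fun l => u' l - u l) (d j) +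
        dot u (fun l => d j l - if l = j then 1 else 0) := by
      have a1 : dot (fun l => u' l - u l) (d j) = dot u' (d j) - dot u (d j) := by
        rw [← sub_dot]; rfl
      have a2 : dot u (fun l => d j l - if l = j then 1 else 0) =
          dot u (d j) - dot u (fun l => if l = j then 1 else 0) := by
        rw [← dot_sub]; rfl
      have a3 : dot u (fun l => if l = j then (1:ℝ) else 0) = u j := by
        rw [dot_comm, dot_single]; ring
      rw [a1, a2, a3]; ring
    rw [e1]
    have b1 := abs_dot_le (fun l => u' l - u l) (d j) ε 2 hu' (hdb j)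
    have b2 := abs_dot_le u (fun l => d j l - if l = j then 1 else 0) 10 _ hu (fun l => hd j l)
    rw [← hn] at b1 b2
    refine (abs_add_le _ _).trans ?_
    have e2 : n * (ε * 2) = 2 * (n * ε) := by ring
    have e3 : n * (10 * (2 * (n ^ 3 * ε))) = 20 * (n ^ 4 * ε) := by ring
    rw [e2] at b1
    rw [e3] at b2
    linarith
  have estV : ∀ (u' : Ix K → ℝ), (∀ l, |u' l| ≤ 11) → |dot u' V| ≤ 1 / 10 ^ 5 := by
    intro u' hu'
    have b1 := abs_dot_le u' V 11 (7 * (n ^ 4 * ε)) hu' (fun l => by simpa using hV l)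
    rw [← hn] at b1
    have e3 : n * (11 * (7 * (n ^ 4 * ε))) = 77 * (n ^ 5 * ε) := by ring
    rw [e3] at b1
    linarith
  have hNb : ∀ q l, |N' q l| ≤ 11 := by
    intro q l
    have : N' q l = NN K q l + (N' q l - NN K q l) := by ring
    rw [this]
    refine (abs_add_le _ _).trans ?_
    have := bN q l; have := hN q l
    linarith
  set far : Ix K × Bool := (Sum.inr 3, true) with hfar
  have hNfar : NN K far = farRow K := by simp [hfar, NN]
  have hbfar : bb K far = 1 := by simp [hfar, bb, kw_three]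
  set F : ℝ := b' far - dot (N' far) V with hF
  have hF1 : |F - 1| ≤ 2 / 10 ^ 5 := by
    have h1 := hb far
    rw [hbfar] at h1
    have h2 := estV (N' far) (hNb far)
    have : F - 1 = (b' far - 1) - dot (N' far) V := by rw [hF]; ring
    rw [this]
    refine (abs_sub _ _).trans ?_
    linarith
  obtain ⟨hFl, hFu⟩ := abs_le.1 hF1
  set f : Ix K → ℝ := fun j => dot (N' far) (d j) with hf
  have hfe : ∀ j, |f j - farRow K j| ≤ 1 / 10 ^ 5 := by
    intro j
    rw [← hNfar]
    exact est (NN K far) (N' far) (fun l => (bN far l).trans (by norm_num)) (hN far) j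
  have hfpos : ∀ j, 0 < f j := by
    intro j
    have h1 := (abs_le.1 (hfe j)).1
    have : (1:ℝ) / 32 ≤ farRow K j := by unfold farRow; split_ifs <;> norm_num
    linarith
  have hFpos : 0 < F := by linarith
  set p : Ix K → Ix K → ℝ := fun j => V + (F / f j) • d j with hp
  have hpV : ∀ j, p j - V = (F / f j) • d j := fun j => by rw [hp]; simp
  -- values
  have z1 := est (zc K) (zc K) (fun l => (zc_bound K l).2) (fun l => by simpa using hε)
  have c1 := est (cc K) c' (fun l => (cc_bound K l).trans (by norm_num)) hc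
  set ξ : Ix K := Sum.inr 0 with hξ
  set a : Ix K := Sum.inr 3 with ha
  set xb : Ix K := Sum.inl (⟨0, hK⟩, true) with hxb
  have vz0 : zc K ξ = -10 := by simp [hξ, zc]
  have vz3 : zc K a = -2 := by simp [ha, zc]
  have vzx : zc K xb = -3 := by simp [hxb, zc]
  have vc0 : cc K ξ = 4 := by simp [hξ, cc, cw]
  have vc3 : cc K a = 1 := by simp [ha, cc, cw]
  have vcx : cc K xb = -(1 / 2) := by simp [hxb, cc, g, lam]
  have vf0 : farRow K ξ = 1 / 2 := by simp [hξ, farRow]
  have vf3 : farRow K a = 1 / 32 := by simp [ha, farRow]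
  have vfx : farRow K xb = 1 / 2 := by simp [hxb, farRow]
  have zz0 := z1 ξ; rw [vz0] at zz0
  have zz3 := z1 a; rw [vz3] at zz3
  have zzx := z1 xb; rw [vzx] at zzx
  have cc0 := c1 ξ; rw [vc0] at cc0
  have cc3 := c1 a; rw [vc3] at cc3
  have ccx := c1 xb; rw [vcx] at ccx
  have ff0 := hfe ξ; rw [vf0] at ff0
  have ff3 := hfe a; rw [vf3] at ff3
  have ffx := hfe xb; rw [vfx] at ffx
  rw [abs_le] at zz0 zz3 zzx cc0 cc3 ccx ff0 ff3 ffx
  obtain ⟨al', be', hal0, hal1, hbe0, hbe1, hzeq, hceq⟩ : ∃ al' be' : ℝ, 0 ≤ al' ∧ al' ≤ 43 / 10 ∧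
      0 ≤ be' ∧ be' ≤ 51 / 100 ∧
      dot (zc K) (d ξ) = al' * dot (zc K) (d a) + be' * dot (zc K) (d xb) ∧
      dot c' (d ξ) = al' * dot c' (d a) + be' * dot c' (d xb) := by
    set A1 := dot (zc K) (d ξ)
    set A2 := dot (zc K) (d a)
    set A3 := dot (zc K) (d xb)
    set B1 := dot c' (d ξ)
    set B2 := dot c' (d a)
    set B3 := dot c' (d xb)
    have q1 := prod_err (-2) (-(1 / 2)) zz3 ccx (by norm_num [abs_of_pos]) (by norm_num [abs_of_pos])
    have q2 := prod_err (-3) 1 zzx cc3 (by norm_num [abs_of_pos]) (by norm_num [abs_of_pos])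
    have q3 := prod_err (-10) (-(1 / 2)) zz0 ccx (by norm_num [abs_of_pos]) (by norm_num [abs_of_pos])
    have q4 := prod_err (-3) 4 zzx cc0 (by norm_num [abs_of_pos]) (by norm_num [abs_of_pos])
    have q5 := prod_err (-2) 4 zz3 cc0 (by norm_num [abs_of_pos]) (by norm_num [abs_of_pos])
    have q6 := prod_err (-10) 1 zz0 cc3 (by norm_num [abs_of_pos]) (by norm_num [abs_of_pos])
    rw [abs_le] at q1 q2 q3 q4 q5 q6
    set Δ := A2 * B3 - A3 * B2 with hΔ
    have hΔl : 399 / 100 ≤ Δ := by linarith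
    have hΔ0 : Δ ≠ 0 := by linarith
    have hΔp : 0 < Δ := by linarith
    refine ⟨(A1 * B3 - A3 * B1) / Δ, (A2 * B1 - A1 * B2) / Δ, ?_, ?_, ?_, ?_, ?_, ?_⟩
    · apply div_nonneg <;> linarith
    · rw [div_le_iff₀ hΔp]; linarith
    · apply div_nonneg <;> linarith
    · rw [div_le_iff₀ hΔp]; linarith
    · field_simp; rw [hΔ]; ring
    · field_simp; rw [hΔ]; ring
  have hT1 : T (d ξ) = al' • T (d a) + be' • T (d xb) := by
    have h1 := hT (d ξ - (al' • d a + be' • d xb)) (by
      rw [dot_sub, dot_add, dot_smul, dot_smul, hzeq]; ring) (by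
      rw [dot_sub, dot_add, dot_smul, dot_smul, hceq]; ring)
    rw [map_sub, map_add, map_smul, map_smul] at h1
    exact sub_eq_zero.1 h1
  have hfξ := hfpos ξ
  have hfa := hfpos a
  have hfx := hfpos xb
  refine image_hull T e0 _ (convex_feas N' b') V p ξ ?_ hE.feas ?_ a xb (by simp [ha, hξ])
    (by simp [hxb, hξ]) (al' * (f a / f ξ)) (be' * (f xb / f ξ)) (by positivity) (by positivity)
    ?_ ?_
  · intro x hx
    have hdec := hE.decomp x
    refine ⟨fun j => (b' (j, false) - dot (N' (j, false)) x) * (f j / F), ?_, ?_, ?_⟩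
    · intro j
      have h1 : 0 ≤ b' (j, false) - dot (N' (j, false)) x := sub_nonneg.2 (hx _)
      have := hfpos j
      positivity
    · have h1 : dot (N' far) (x - V) = ∑ j, (b' (j, false) - dot (N' (j, false)) x) * f j := by
        rw [hdec, dot_sum]
        exact Finset.sum_congr rfl (fun j _ => by rw [dot_smul])
      have h2 : ∑ j, (b' (j, false) - dot (N' (j, false)) x) * (f j / F) =
          (∑ j, (b' (j, false) - dot (N' (j, false)) x) * f j) / F := by
        rw [Finset.sum_div]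
        exact Finset.sum_congr rfl (fun j _ => by ring)
      rw [h2, ← h1, dot_sub, div_le_one hFpos]
      have := hx far
      linarith
    · rw [hdec]
      refine Finset.sum_congr rfl (fun j _ => ?_)
      rw [hpV, smul_smul]
      congr 1
      have := (hfpos j).ne'
      field_simp
  · intro j hj q
    have hpq : dot (N' q) (p j) = dot (N' q) V + F / f j * dot (N' q) (d j) := by
      rw [hp]; simp only; rw [dot_add, dot_smul]
    rw [hpq]
    obtain ⟨i, bo⟩ := q
    have hFf : 0 < F / f j := div_pos hFpos (hfpos j)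
    cases bo with
    | false =>
      have h1 : dot (N' (i, false)) V = b' (i, false) := hE.tgt i
      have h2 : dot (N' (i, false)) (d j) = if i = j then -1 else 0 := hE.dir i j
      rw [h1, h2]
      split_ifs
      · linarith
      · simp
    | true =>
      by_cases hi : i = Sum.inr 3
      · subst hi
        show dot (N' far) V + F / f j * f j ≤ b' far
        rw [div_mul_cancel₀ _ (hfpos j).ne', hF]; linarith
      · obtain ⟨-, hs⟩ := NN_up K i hi
        have h1 := (abs_le.1 (estV (N' (i, true)) (hNb _))).2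
        have h2 := (abs_le.1 (est (NN K (i, true)) (N' (i, true))
          (fun l => (bN _ l).trans (by norm_num)) (hN _) j)).2
        have h3 := (abs_le.1 (hb (i, true))).1
        have h4 := bb_true_ge K i
        by_cases hj3 : j = Sum.inr 3
        · have h0 : NN K (i, true) j = 0 := by
            rw [hj3]
            rcases i with q | a'
            · simp [NN, upRow, hvec]
            · have ha' : a' ≠ 3 := fun e => hi (by rw [e])
              simp only [NN, ha', if_false, upRow, hvec]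
              have : (3 : Fin 4) ≠ a' := fun e => ha' e.symm
              simp [this]
          rw [h0] at h2
          have h5 : F / f j ≤ 33 := by
            rw [div_le_iff₀ (hfpos j), hj3]
            linarith
          have h6 : F / f j * dot (N' (i, true)) (d j) ≤ 33 * (1 / 10 ^ 5) := by
            have : F / f j * dot (N' (i, true)) (d j) ≤ F / f j * (1 / 10 ^ 5) := by
              apply mul_le_mul_of_nonneg_left _ hFf.le
              linarith
            refine this.trans ?_
            gcongr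
          linarith
        · have h0 := (abs_le.1 (hs j hj)).2
          have hfj : 49 / 100 ≤ f j := by
            have h1 := (abs_le.1 (hfe j)).1
            have : farRow K j = 1 / 2 := by simp [farRow, hj3]
            rw [this] at h1; linarith
          have h5 : F / f j ≤ 3 := by
            rw [div_le_iff₀ (hfpos j)]
            linarith
          have h6 : F / f j * dot (N' (i, true)) (d j) ≤ 3 * (1 / 5) := by
            have : F / f j * dot (N' (i, true)) (d j) ≤ F / f j * (1 / 5) := by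
              apply mul_le_mul_of_nonneg_left _ hFf.le
              linarith
            refine this.trans ?_
            gcongr
          linarith
  · have r1 : f a / f ξ ≤ 7 / 100 := by
      rw [div_le_iff₀ hfξ]; linarith
    have r2 : f xb / f ξ ≤ 101 / 100 := by
      rw [div_le_iff₀ hfξ]; linarith
    have r3 : al' * (f a / f ξ) ≤ 43 / 10 * (7 / 100) := by gcongr
    have r4 : be' * (f xb / f ξ) ≤ 51 / 100 * (101 / 100) := by gcongr
    linarith
  · rw [hpV, hpV, hpV, map_smul, map_smul, map_smul, hT1, smul_add, smul_smul, smul_smul,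
      smul_smul, smul_smul]
    congr 2
    · field_simp
    · field_simp

/-- the shadow has at most `n` vertices -/
theorem outer_shadow (K : ℕ) (hK : 0 < K) {A : Ix K × Bool → Ix K → ℝ} {Λ : ℝ}
    {w : Ix K × Bool → ℝ} {o : Ix K → ℝ} {c : Ix K → ℝ} {Λc : ℝ} (hΛ : 0 < Λ) (hΛc : 0 < Λc)
    (hw : ∀ q, 0 < w q) {ε : ℝ} (hε : 0 ≤ ε)
    (hN : ∀ q l, |NA A Λ w q l - NN K q l| ≤ ε) (hb : ∀ q, |bA A Λ w o q - bb K q| ≤ ε)
    (hc : ∀ l, |(Λc • c) l - cc K l| ≤ ε)
    (hsm : 10 ^ 7 * ((Fintype.card (Ix K) : ℝ) ^ 6 * ε) ≤ 1) :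
    shadowCard A (zc K) c ≤ Fintype.card (Ix K) := by
  unfold shadowCard
  apply encard_extreme
  let U : Submodule ℝ (EuclideanSpace ℝ (Ix K)) :=
    Submodule.span ℝ {WithLp.toLp 2 (zc K), WithLp.toLp 2 c}
  let T0 : (Ix K → ℝ) →ₗ[ℝ] EuclideanSpace ℝ (Ix K) :=
    (U.starProjection : EuclideanSpace ℝ (Ix K) →ₗ[ℝ] EuclideanSpace ℝ (Ix K)) ∘ₗ
      ((WithLp.linearEquiv 2 ℝ (Ix K → ℝ)).symm : (Ix K → ℝ) →ₗ[ℝ] EuclideanSpace ℝ (Ix K))
  have hT0 : ∀ x, T0 x = U.starProjection (WithLp.toLp 2 x) := fun x => rfl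
  have hker : ∀ u, dot (zc K) u = 0 → dot (Λc • c) u = 0 → (Λ • T0) u = 0 := by
    intro u h1 h2
    rw [smul_dot] at h2
    have h3 : dot c u = 0 := (mul_eq_zero.1 h2).resolve_left hΛc.ne'
    have : T0 u = 0 := by
      rw [hT0, Submodule.starProjection_apply_eq_zero_iff, Submodule.mem_orthogonal]
      intro v hv
      refine Submodule.span_induction (p := fun v _ => inner ℝ v (WithLp.toLp 2 u) = 0) ?_ ?_ ?_ ?_ hv
      · intro x hx
        rcases hx with rfl | hx
        · rw [EuclideanSpace.inner_toLp_toLp]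
          simpa [dotProduct, dot, mul_comm] using h1
        · rw [Set.mem_singleton_iff] at hx
          subst hx
          rw [EuclideanSpace.inner_toLp_toLp]
          simpa [dotProduct, dot, mul_comm] using h3
      · simp
      · intro x y _ _ hx hy
        rw [inner_add_left, hx, hy, add_zero]
      · intro r x _ hx
        rw [inner_smul_left, hx, mul_zero]
    rw [LinearMap.smul_apply, this, smul_zero]
  obtain ⟨G, hG⟩ := outer_hull K hK hε hN hb hc hsm (Λ • T0) hker (- (Λ • T0 o))
  refine ⟨G, ?_⟩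
  rw [← hG]
  unfold shadow
  ext y
  constructor
  · rintro ⟨x, hx, rfl⟩
    obtain ⟨t, rfl⟩ := phi_surj (o := o) hΛ x
    refine ⟨t, (phi_feas hw t).1 hx, ?_⟩
    show (Λ • T0) t + -(Λ • T0 o) = T0 (phi Λ o t)
    rw [phi, map_smul, map_sub, LinearMap.smul_apply, smul_sub]
    abel
  · rintro ⟨t, ht, rfl⟩
    refine ⟨phi Λ o t, (phi_feas hw t).2 ht, ?_⟩
    show T0 (phi Λ o t) = (Λ • T0) t + -(Λ • T0 o)
    rw [phi, map_smul, map_sub, LinearMap.smul_apply, smul_sub]
    abel

end Pool.H836R3.SE
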