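import Pool.Agent.H836R3.SE.Center5

set_option autoImplicit false
set_option linter.unusedSectionVars false
set_option linter.unusedSimpArgs false

namespace Pool.H836R3.SE

section gen
variable {ι κ : Type} [Fintype ι] [Fintype κ] [DecidableEq ι] [DecidableEq κ]
variable {N : ι → κ → ℝ} {b : ι → ℝ} {z : κ → ℝ} {tf : κ → ι} {t : κ → ℝ} {δ : κ → κ → ℝ}

theorem dot_sum {α : Type} (s : Finset α) (u : κ → ℝ) (f : α → κ → ℝ) :
    dot u (∑ j ∈ s, f j) = ∑ j ∈ s, dot u (f j) := by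
  simp only [dot, Finset.sum_apply, Finset.mul_sum]
  rw [Finset.sum_comm]

theorem Exact.decomp (h : Exact N b tf t δ) (y : κ → ℝ) :
    y - t = ∑ j, (b (tf j) - dot (N (tf j)) y) • δ j := by
  refine h.eq_of _ _ (fun i => ?_)
  rw [dot_sum, dot_sub, h.tgt]
  have : ∀ j, dot (N (tf i)) ((b (tf j) - dot (N (tf j)) y) • δ j) =
      if i = j then - (b (tf j) - dot (N (tf j)) y) else 0 := by
    intro j; rw [dot_smul, h.dir]; split_ifs <;> ring
  simp only [this]
  rw [Finset.sum_ite_eq]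
  simp

theorem isStart_of_exact (h : Exact N b tf t δ) (hz : ∀ j, dot z (δ j) < 0) :
    IsStart N b z t := by
  refine ⟨h.isVertex, fun y hy hne => ?_⟩
  have hd := h.decomp y
  have h1 : dot z (y - t) = ∑ j, (b (tf j) - dot (N (tf j)) y) * dot z (δ j) := by
    rw [hd, dot_sum]
    exact Finset.sum_congr rfl (fun j _ => by rw [dot_smul])
  have hnn : ∀ j, 0 ≤ b (tf j) - dot (N (tf j)) y := fun j => sub_nonneg.2 (hy _)
  have hex : ∃ j, 0 < b (tf j) - dot (N (tf j)) y := by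
    by_contra hcon
    push Not at hcon
    apply hne
    have : y - t = 0 := by
      rw [hd]
      refine Finset.sum_eq_zero (fun j _ => ?_)
      have : b (tf j) - dot (N (tf j)) y = 0 := le_antisymm (hcon j) (hnn j)
      rw [this, zero_smul]
    exact sub_eq_zero.1 this
  obtain ⟨j, hj⟩ := hex
  have h2 : ∑ j, (b (tf j) - dot (N (tf j)) y) * dot z (δ j) < 0 := by
    refine Finset.sum_neg' (fun i _ => mul_nonpos_of_nonneg_of_nonpos (hnn i) (hz i).le)
      ⟨j, Finset.mem_univ _, mul_neg_of_pos_of_neg hj (hz j)⟩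
  rw [← h1, dot_sub] at h2
  linarith

end gen

/-- the starting objective -/
noncomputable def zc (K : ℕ) : Ix K → ℝ
  | Sum.inl p => if p.1.val = 0 ∧ p.2 = true then -3 else -1
  | Sum.inr a => if a = 0 then -10 else if a = 3 then -2 else -1

theorem zc_bound (K : ℕ) (l : Ix K) : zc K l ≤ -1 ∧ |zc K l| ≤ 10 := by
  rcases l with p | a
  · simp only [zc]; split_ifs
    · constructor <;> norm_num
    · constructor <;> norm_num
  · simp only [zc]; split_ifs
    · constructor <;> norm_num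
    · constructor <;> norm_num
    · constructor <;> norm_num

theorem card_Ix (K : ℕ) : Fintype.card (Ix K) = 2 * K + 4 := by
  simp [Ix]; ring

theorem center_path (K : ℕ) {N' : Ix K × Bool → Ix K → ℝ} {b' : Ix K × Bool → ℝ}
    {c' : Ix K → ℝ} {ε : ℝ} (hε : 0 ≤ ε)
    (hN : ∀ q l, |N' q l - NN K q l| ≤ ε) (hb : ∀ q, |b' q - bb K q| ≤ ε)
    (hc : ∀ l, |c' l - cc K l| ≤ ε)
    (hsm : 600 * ((Fintype.card (Ix K) : ℝ) ^ 6 * RK K ^ 5 * ε) ≤ muK K) :
    ∃ L, 2 ^ K < L ∧ HasPath N' b' c' (zc K) L := by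
  have hne : Nonempty (Ix K) := ⟨Sum.inr 0⟩
  have hR : 1 ≤ RK K := by have := RK_ge K; linarith
  have hμ := muK_pos K
  have hμ1 : muK K ≤ 1 := by have := muK_le_one K; linarith
  have bN := NN_bound K
  have bbb : ∀ q, |bb K q| ≤ 2 := fun q => by
    obtain ⟨h1, h2⟩ := bb_bound K q
    rw [abs_of_nonneg h1]; exact h2
  have bc := cc_bound K
  have hgen : ∀ (χ : Pat) (x : Fin 4 → Bool), ∃ δ' t', x 0 = true → x 3 = false →
      (Exact N' b' (tfS K χ x) t' δ' ∧
      (∀ j l, |δ' j l - dS K χ x j l| ≤ 2 * ((Fintype.card (Ix K) : ℝ) ^ 3 * RK K ^ 2 * ε))) := by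
    intro χ x
    by_cases h : x 0 = true ∧ x 3 = false
    · obtain ⟨δ', t', h1, h2, -⟩ := robust_vertex (vbase_S K χ x h.1 h.2) hne hR hμ hμ1 bN bbb hε
        hN hb hsm
      exact ⟨δ', t', fun _ _ => ⟨h1, h2⟩⟩
    · exact ⟨fun _ _ => 0, fun _ => 0, fun h1 h2 => absurd ⟨h1, h2⟩ h⟩
  choose δf tf hf using hgen
  obtain ⟨δ0, t0, hE0, hδ0, -⟩ := robust_vertex (vbase_0 K) hne hR hμ hμ1 bN bbb hε hN hb hsm
  have g0 := good0 K
  have g1 := good1 K
  have g2 := good2 K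
  obtain ⟨a0, a0'⟩ := robust_gain (c' := c') hne hR hμ hμ1 (vbase_0 K).bδ bc hε hc hδ0 hsm
    (Sum.inr 0) g0.1 g0.2
  have f1 := hf χ0 X1 (by decide) (by decide)
  have f2 := hf χ0 X2 (by decide) (by decide)
  have f3 : ∀ χ, _ := fun χ => hf χ X3 (by decide) (by decide)
  obtain ⟨a1, a1'⟩ := robust_gain (c' := c') hne hR hμ hμ1 (fun j l => dS_bound K χ0 X1 j l) bc
    hε hc f1.2 hsm (Sum.inr 1) g1.1 g1.2
  obtain ⟨a2, a2'⟩ := robust_gain (c' := c') hne hR hμ hμ1 (fun j l => dS_bound K χ0 X2 j l) bc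
    hε hc f2.2 hsm (Sum.inr 2) g2.1 g2.2
  have S0 : SEStep N' b' c' t0 (tf χ0 X1) := by
    refine seStep_of_exact hE0 f1.1 (Sum.inr 0) ?_ ?_ a0 a0'
    · intro j hj
      rcases j with p | a
      · simp [tfS, sS, χ0]
      · have : a ≠ 0 := fun e => hj (by rw [e])
        simp [tfS, sS, X1, this]
    · simp [tfS, sS, X1]
  have S1 : SEStep N' b' c' (tf χ0 X1) (tf χ0 X2) := by
    refine seStep_of_exact f1.1 f2.1 (Sum.inr 1) ?_ ?_ a1 a1'
    · intro j hj
      rcases j with p | a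
      · simp [tfS, sS, χ0]
      · have : a ≠ 1 := fun e => hj (by rw [e])
        simp [tfS, sS, X1, X2, this]
    · simp [tfS, sS, X1, X2]
  have S2 : SEStep N' b' c' (tf χ0 X2) (tf χ0 X3) := by
    refine seStep_of_exact f2.1 (f3 χ0).1 (Sum.inr 2) ?_ ?_ a2 a2'
    · intro j hj
      rcases j with p | a
      · simp [tfS, sS, χ0]
      · have h2 : a ≠ 2 := fun e => hj (by rw [e])
        rcases fin4 a with rfl | rfl | rfl | rfl
        · simp [tfS, sS, X2, X3]
        · simp [tfS, sS, X2, X3]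
        · exact absurd rfl h2
        · simp [tfS, sS, X2, X3]
    · simp [tfS, sS, X2, X3]
  have SP : ∀ χ χ', StepP K 1 χ χ' → SEStep N' b' c' (tf χ X3) (tf χ' X3) := by
    intro χ χ' h
    obtain ⟨p, he, hg⟩ := good3 K χ χ' h
    obtain ⟨a3, a3'⟩ := robust_gain (c' := c') hne hR hμ hμ1 (fun j l => dS_bound K χ X3 j l) bc
      hε hc (f3 χ).2 hsm (Sum.inl p) hg.1 hg.2
    refine seStep_of_exact (f3 χ).1 (f3 χ').1 (Sum.inl p) ?_ ?_ a3 a3'
    · intro j hj
      rcases j with q | a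
      · have hq : q ≠ p := fun e => hj (by rw [e])
        have : ¬ ((q.1 : ℕ) = (p.1 : ℕ) ∧ q.2 = p.2) := fun ⟨h1, h2⟩ =>
          hq (Prod.ext (Fin.ext h1) h2)
        simp only [tfS, sS, he, flip, this, if_false]
      · simp [tfS, sS]
    · simp only [tfS, sS, he, flip]
      simp
  obtain ⟨L, χ', hL, hP, -, -⟩ := (paths K).1 χ0 (fun _ _ _ => rfl)
  have hP' := hP.map (r' := SEStep N' b' c') (fun χ => tf χ X3) SP
  have hall := PathN.cons S0 (PathN.cons S1 (PathN.cons S2 hP'))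
  obtain ⟨v, hv0, hv⟩ := hall.seq
  refine ⟨L + 1 + 1 + 1, by omega, v, ?_, hv⟩
  rw [hv0]
  refine isStart_of_exact hE0 (fun j => ?_)
  obtain ⟨z1, z2⟩ := zc_bound K j
  have e1 : dot (zc K) (δ0 j) = zc K j + dot (zc K) (fun l => δ0 j l - if l = j then 1 else 0) := by
    have : (fun l => δ0 j l - if l = j then (1:ℝ) else 0) = δ0 j - fun l => if l = j then (1:ℝ) else 0 := rfl
    rw [this, dot_sub]
    have : dot (zc K) (fun l => if l = j then (1:ℝ) else 0) = zc K j := by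
      rw [dot_comm, dot_single]; ring
    rw [this]; ring
  have e2 := abs_dot_le (zc K) (fun l => δ0 j l - if l = j then 1 else 0) 10 _
    (fun l => (zc_bound K l).2) (fun l => hδ0 j l)
  have hn1 : (1:ℝ) ≤ Fintype.card (Ix K) := by exact_mod_cast Fintype.card_pos
  set n : ℝ := (Fintype.card (Ix K) : ℝ)
  have e3 : n * (10 * (2 * (n ^ 3 * RK K ^ 2 * ε))) = 20 * (n ^ 4 * RK K ^ 2 * ε) := by ring
  rw [e3] at e2
  have e4 : n ^ 4 * RK K ^ 2 * ε ≤ n ^ 6 * RK K ^ 5 * ε := by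
    have h1 := pow_le_pow_right₀ hn1 (show 4 ≤ 6 by norm_num)
    have h2 := pow_le_pow_right₀ hR (show 2 ≤ 5 by norm_num)
    gcongr <;> norm_num
  rw [e1]
  have := (abs_le.1 e2).2
  linarith

end Pool.H836R3.SE
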