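import Pool.Agent.H836R3.SE.Defs

set_option autoImplicit false
set_option linter.unusedSectionVars false

namespace Pool.H836R3.SE

variable {ι κ : Type} [Fintype ι] [Fintype κ] [DecidableEq ι] [DecidableEq κ]

/-- Exact vertex data: tight facets `tf j`, point `t`, edge directions `δ j`. -/
structure Exact (N : ι → κ → ℝ) (b : ι → ℝ) (tf : κ → ι) (t : κ → ℝ) (δ : κ → κ → ℝ) : Prop where
  inj : Function.Injective tf
  dir : ∀ i j, dot (N (tf i)) (δ j) = if i = j then -1 else 0
  tgt : ∀ j, dot (N (tf j)) t = b (tf j)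
  slack : ∀ q, (∀ j, tf j ≠ q) → dot (N q) t < b q

variable {N : ι → κ → ℝ} {b : ι → ℝ} {c : κ → ℝ} {tf tf2 : κ → ι} {t t2 : κ → ℝ}
  {δ δ2 : κ → κ → ℝ}

theorem Exact.eq_of (h : Exact N b tf t δ) (x y : κ → ℝ)
    (hxy : ∀ i, dot (N (tf i)) x = dot (N (tf i)) y) : x = y := by
  let M : Matrix κ κ ℝ := Matrix.of fun i l => N (tf i) l
  let D : Matrix κ κ ℝ := Matrix.of fun l j => δ j l
  have hMD : M * (-D) = 1 := by
    ext i j
    rw [Matrix.mul_apply]
    have := h.dir i j
    simp only [dot] at this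
    simp only [M, D, Matrix.neg_apply, Matrix.of_apply, mul_neg, Finset.sum_neg_distrib, this,
      Matrix.one_apply]
    split_ifs <;> simp
  have hDM : (-D) * M = 1 := mul_eq_one_comm.1 hMD
  have hx : M.mulVec x = M.mulVec y := by
    ext i
    simpa [Matrix.mulVec, dotProduct, M, dot] using hxy i
  have := congrArg ((-D).mulVec) hx
  simpa [Matrix.mulVec_mulVec, hDM] using this

theorem Exact.mem_tight (h : Exact N b tf t δ) (q : ι) :
    q ∈ tightSet N b t ↔ ∃ j, tf j = q := by
  constructor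
  · intro hq
    by_contra hne
    push Not at hne
    have := h.slack q hne
    simp [tightSet] at hq
    linarith
  · rintro ⟨j, rfl⟩
    simp [tightSet, h.tgt j]

theorem Exact.feas (h : Exact N b tf t δ) : Feas N b t := by
  intro q
  by_cases hq : ∃ j, tf j = q
  · obtain ⟨j, rfl⟩ := hq
    exact (h.tgt j).le
  · push Not at hq
    exact (h.slack q hq).le

theorem Exact.isVertex (h : Exact N b tf t δ) : IsVertex N b t := by
  refine ⟨h.feas, fun y hy => ?_⟩
  refine h.eq_of y 0 (fun i => ?_)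
  rw [hy (tf i) ((h.mem_tight _).2 ⟨i, rfl⟩), dot_zero]

theorem Exact.dir_ne (h : Exact N b tf t δ) (j : κ) : δ j ≠ 0 := by
  intro h0
  have := h.dir j j
  rw [h0, dot_zero] at this
  simp at this

/-- The main step lemma. -/
theorem seStep_of_exact (h : Exact N b tf t δ) (h2 : Exact N b tf2 t2 δ2) (js : κ)
    (hoff : ∀ j, j ≠ js → tf2 j = tf j) (hne : tf2 js ≠ tf js)
    (hgain : 0 < dot c (δ js))
    (hother : ∀ j, j ≠ js → dot c (δ j) < 0 ∨
      (dot c (δ j)) ^ 2 * dot (δ js) (δ js) < (dot c (δ js)) ^ 2 * dot (δ j) (δ j)) :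
    SEStep N b c t t2 := by
  have hnot : ∀ j, tf2 j ≠ tf js := by
    intro j
    by_cases hj : j = js
    · rw [hj]; exact hne
    · rw [hoff j hj]
      exact fun e => hj (h.inj e)
  have hnot2 : ∀ j, tf j ≠ tf2 js := by
    intro j
    by_cases hj : j = js
    · rw [hj]; exact hne.symm
    · rw [← hoff j hj]
      exact fun e => hj (h2.inj e)
  have hT1 : tightSet N b t \ tightSet N b t2 = {tf js} := by
    ext q
    rw [Finset.mem_sdiff, h.mem_tight, h2.mem_tight, Finset.mem_singleton]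
    constructor
    · rintro ⟨⟨j, rfl⟩, hj⟩
      by_cases e : j = js
      · rw [e]
      · exact absurd ⟨j, hoff j e⟩ hj
    · rintro rfl
      exact ⟨⟨js, rfl⟩, fun ⟨j, hj⟩ => hnot j hj⟩
  have hT2 : tightSet N b t2 \ tightSet N b t = {tf2 js} := by
    ext q
    rw [Finset.mem_sdiff, h.mem_tight, h2.mem_tight, Finset.mem_singleton]
    constructor
    · rintro ⟨⟨j, rfl⟩, hj⟩
      by_cases e : j = js
      · rw [e]
      · exact absurd ⟨j, (hoff j e).symm⟩ hj
    · rintro rfl
      exact ⟨⟨js, rfl⟩, fun ⟨j, hj⟩ => hnot2 j hj⟩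
  have hnb : Neighbor N b t t2 := by
    refine ⟨h.isVertex, h2.isVertex, ?_, ?_⟩
    · rw [hT1]; simp
    · rw [hT2]; simp
  -- any neighbour is reached along one of the directions
  have key : ∀ w, Neighbor N b t w → ∃ p : κ, ∃ s : ℝ, 0 < s ∧ w - t = s • δ p ∧
      tightSet N b t \ tightSet N b w = {tf p} := by
    intro w hw
    obtain ⟨-, hwv, hc1, -⟩ := hw
    obtain ⟨q, hq⟩ := Finset.card_eq_one.1 hc1
    have hqm : q ∈ tightSet N b t \ tightSet N b w := by rw [hq]; simp
    rw [Finset.mem_sdiff, h.mem_tight] at hqm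
    obtain ⟨⟨p, rfl⟩, hqw⟩ := hqm
    have hlt : dot (N (tf p)) w < b (tf p) := by
      refine lt_of_le_of_ne (hwv.1 _) (fun e => hqw ?_)
      simp [tightSet, e]
    refine ⟨p, b (tf p) - dot (N (tf p)) w, by linarith, ?_, hq⟩
    refine h.eq_of _ _ (fun i => ?_)
    rw [dot_sub, dot_smul, h.dir, h.tgt]
    by_cases hip : i = p
    · subst hip
      simp
    · have : tf i ∈ tightSet N b w := by
        by_contra hcon
        have : tf i ∈ tightSet N b t \ tightSet N b w := by
          rw [Finset.mem_sdiff]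
          exact ⟨(h.mem_tight _).2 ⟨i, rfl⟩, hcon⟩
        rw [hq, Finset.mem_singleton] at this
        exact hip (h.inj this)
      simp [tightSet] at this
      simp [hip, this]
  obtain ⟨p2, s2, hs2, he2, hTp⟩ := key t2 hnb
  have hp2 : p2 = js := by
    rw [hT1] at hTp
    have := Finset.singleton_injective hTp
    exact (h.inj this).symm
  subst hp2
  have slope_eq : ∀ w (p : κ) (s : ℝ), 0 < s → w - t = s • δ p →
      slope c t w = dot c (δ p) / Real.sqrt (dot (δ p) (δ p)) := by
    intro w p s hs he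
    have hd := dot_self_pos (h.dir_ne p)
    unfold slope
    rw [he, dot_smul, dot_smul, smul_dot]
    have : Real.sqrt (s * (s * dot (δ p) (δ p))) = s * Real.sqrt (dot (δ p) (δ p)) := by
      rw [← mul_assoc, Real.sqrt_mul (by positivity), Real.sqrt_mul_self hs.le]
    rw [this, mul_div_mul_left _ _ hs.ne']
  refine ⟨hnb, ?_, ?_⟩
  · rw [he2, dot_smul]; positivity
  · intro w hw hwpos
    obtain ⟨p, s, hs, he, -⟩ := key w hw
    rw [slope_eq w p s hs he, slope_eq t2 _ s2 hs2 he2]
    by_cases hpj : p = p2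
    · rw [hpj]
    have hpg : 0 < dot c (δ p) := by
      rw [he, dot_smul] at hwpos
      exact (mul_pos_iff_of_pos_left hs).1 hwpos
    rcases hother p hpj with hneg | hsq
    · linarith
    · have hd1 := dot_self_pos (h.dir_ne p)
      have hd2 := dot_self_pos (h.dir_ne p2)
      rw [div_le_div_iff₀ (Real.sqrt_pos.2 hd1) (Real.sqrt_pos.2 hd2)]
      have a1 : dot c (δ p) * Real.sqrt (dot (δ p2) (δ p2)) =
          Real.sqrt ((dot c (δ p)) ^ 2 * dot (δ p2) (δ p2)) := by
        rw [Real.sqrt_mul (by positivity), Real.sqrt_sq hpg.le]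
      have a2 : dot c (δ p2) * Real.sqrt (dot (δ p) (δ p)) =
          Real.sqrt ((dot c (δ p2)) ^ 2 * dot (δ p) (δ p)) := by
        rw [Real.sqrt_mul (by positivity), Real.sqrt_sq hgain.le]
      rw [a1, a2]
      exact Real.sqrt_le_sqrt hsq.le

end Pool.H836R3.SE
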